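import Pool.Agent.Helper791_Cyc.Defs

set_option autoImplicit false

namespace Pool.Agent.Helper791.Cyc

open MeasureTheory Filter Topology Polynomial



theorem A_q_prime (k : ℕ) : (q k).Prime := Nat.prime_nth_prime _

theorem A_q_gt (k : ℕ) : 2 < q k := by
  have h : Nat.nth Nat.Prime 0 < Nat.nth Nat.Prime (k + 1) :=
    Nat.nth_strictMono Nat.infinite_setOfPred_prime (Nat.succ_pos k)
  have h0 : Nat.nth Nat.Prime 0 = 2 := Nat.nth_prime_zero_eq_two
  rw [h0] at h; exact h

theorem A_q_inj : Function.Injective q := by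
  intro i j hij
  have := (Nat.nth_strictMono Nat.infinite_setOfPred_prime).injective hij
  omega

theorem A_q_odd (k : ℕ) : Odd (q k) := (A_q_prime k).odd_of_ne_two (by have := A_q_gt k; omega)

theorem A_ndvd (k : ℕ) : ¬ q k ∣ m k := by
  intro h
  unfold m at h
  rw [(A_q_prime k).prime.dvd_finsetProd_iff] at h
  obtain ⟨i, hi, hd⟩ := h
  have := (Nat.prime_dvd_prime_iff_eq (A_q_prime k) (A_q_prime i)).1 hd
  have := A_q_inj this
  rw [Finset.mem_range] at hi
  omega

theorem A_m_succ (k : ℕ) : m (k + 1) = m k * q k := Finset.prod_range_succ _ _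

theorem A_m_pos (k : ℕ) : 0 < m k := Finset.prod_pos fun i _ => (A_q_prime i).pos

theorem A_ne (k : ℕ) {y : ℝ} (hy : |y| < 1) : (cyclotomic (m k) ℝ).eval y ≠ 0 := by
  intro h
  have hne : NeZero (m k : ℝ) := ⟨by exact_mod_cast (A_m_pos k).ne'⟩
  have h1 : IsPrimitiveRoot y (m k) := (isRoot_cyclotomic_iff).1 h
  have h2 := h1.pow_eq_one
  have h3 : |y| ^ (m k) = 1 := by rw [← abs_pow, h2, abs_one]
  have h4 := pow_lt_one₀ (abs_nonneg y) hy (A_m_pos k).ne'
  linarith

theorem A_eval (k : ℕ) (y : ℝ) : (cyclotomic (m k) ℝ).eval (y ^ q k)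
    = (cyclotomic (m (k + 1)) ℝ).eval y * (cyclotomic (m k) ℝ).eval y := by
  have h := cyclotomic_expand_eq_cyclotomic_mul (A_q_prime k) (A_ndvd k) ℝ
  rw [← A_m_succ] at h
  have := congrArg (eval y) h
  rwa [expand_eval, eval_mul] at this

theorem A_deriv (k : ℕ) (y : ℝ) :
    (q k : ℝ) * y ^ q k * (derivative (cyclotomic (m k) ℝ)).eval (y ^ q k)
    = (derivative (cyclotomic (m (k + 1)) ℝ)).eval y * y * (cyclotomic (m k) ℝ).eval y
      + (cyclotomic (m (k + 1)) ℝ).eval y * ((derivative (cyclotomic (m k) ℝ)).eval y * y) := by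
  have h := cyclotomic_expand_eq_cyclotomic_mul (A_q_prime k) (A_ndvd k) ℝ
  rw [← A_m_succ] at h
  have h2 := congrArg (fun P => eval y (derivative P)) h
  simp only [derivative_expand, derivative_mul, eval_mul, eval_add, expand_eval, eval_natCast,
    eval_pow, eval_X] at h2
  have h3 : y ^ q k = y ^ (q k - 1) * y := by
    rw [← pow_succ, Nat.sub_add_cancel (A_q_prime k).one_le]
  have h4 : (q k : ℝ) * y ^ q k * (derivative (cyclotomic (m k) ℝ)).eval (y ^ q k)
      = ((derivative (cyclotomic (m k) ℝ)).eval (y ^ q k) * ((q k : ℝ) * y ^ (q k - 1))) * y := by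
    rw [show (q k : ℝ) * y ^ q k = (q k : ℝ) * (y ^ (q k - 1) * y) by rw [← h3]]
    ring
  rw [h4, h2]; ring

/-- the induction step, for a curve `y` with `y (v + log (q k)) = y v ^ q k` -/
theorem A_step (k : ℕ) (y f : ℝ → ℝ) (g : ℝ) (hy : ∀ v, |y v| < 1)
    (hq : ∀ v, y (v + Real.log (q k)) = y v ^ q k)
    (ih : ∀ v, (derivative (cyclotomic (m k) ℝ)).eval (y v) * y v * Real.exp v
      = g * f v * (cyclotomic (m k) ℝ).eval (y v)) (v : ℝ) :
    (derivative (cyclotomic (m (k + 1)) ℝ)).eval (y v) * y v * Real.exp v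
      = -g * (f v - f (v + Real.log (q k))) * (cyclotomic (m (k + 1)) ℝ).eval (y v) := by
  have h1 := ih v
  have h2 := ih (v + Real.log (q k))
  have hq0 : (0 : ℝ) < q k := by exact_mod_cast (A_q_prime k).pos
  rw [hq, Real.exp_add, Real.exp_log hq0, A_eval] at h2
  have h3 := A_deriv k (y v)
  have hne := A_ne k (hy v)
  apply mul_right_cancel₀ hne
  linear_combination h2 - (cyclotomic (m (k + 1)) ℝ).eval (y v) * h1 - Real.exp v * h3

theorem A_curve (k : ℕ) (v : ℝ) : Real.exp (-Real.exp (v + Real.log (q k)))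
    = Real.exp (-Real.exp v) ^ q k := by
  have hq0 : (0 : ℝ) < q k := by exact_mod_cast (A_q_prime k).pos
  rw [Real.exp_add, Real.exp_log hq0, ← Real.exp_nat_mul]
  congr 1; ring

theorem A_lt (v : ℝ) : Real.exp (-Real.exp v) < 1 := by
  rw [Real.exp_lt_one_iff]
  have := Real.exp_pos v
  linarith


/-! END -/

/-- TARGET -/
theorem cyc_neg (k : ℕ) (v : ℝ) :
    (derivative (cyclotomic (m k) ℝ)).eval (-Real.exp (-Real.exp v)) * (-Real.exp (-Real.exp v)) *
      Real.exp v = (-1) ^ k * h k v * (cyclotomic (m k) ℝ).eval (-Real.exp (-Real.exp v)) := by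
  induction k generalizing v with
  | zero =>
    have hm : m 0 = 1 := by simp [m]
    rw [hm, cyclotomic_one]
    simp only [derivative_sub, derivative_X, derivative_one, sub_zero, eval_one, one_mul, pow_zero,
      eval_sub, eval_X, h, it, base]
    have h1 : Real.exp (Real.exp v) + 1 ≠ 0 := by positivity
    have h2 : Real.exp (-Real.exp v) * Real.exp (Real.exp v) = 1 := by
      rw [← Real.exp_add]; simp
    rw [div_mul_eq_mul_div, eq_div_iff h1]
    linear_combination (-Real.exp v) * h2
  | succ k ih =>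
    have := A_step k (fun v => -Real.exp (-Real.exp v)) (h k) ((-1) ^ k)
      (fun v => by
        rw [abs_neg, abs_of_pos (Real.exp_pos _)]; exact A_lt v)
      (fun v => by
        show -Real.exp (-Real.exp (v + Real.log (q k))) = (-Real.exp (-Real.exp v)) ^ q k
        rw [A_curve, (A_q_odd k).neg_pow])
      ih v
    rw [this, pow_succ]
    simp only [h, it]
    ring

/-- TARGET -/
theorem cyc_pos (k : ℕ) (v : ℝ) :
    (derivative (cyclotomic (m k) ℝ)).eval (Real.exp (-Real.exp v)) * Real.exp (-Real.exp v) *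
      Real.exp v = -((-1) ^ k * hp k v * (cyclotomic (m k) ℝ).eval (Real.exp (-Real.exp v))) := by
  induction k generalizing v with
  | zero =>
    have hm : m 0 = 1 := by simp [m]
    rw [hm, cyclotomic_one]
    simp only [derivative_sub, derivative_X, derivative_one, sub_zero, eval_one, one_mul, pow_zero,
      eval_sub, eval_X, hp, it, baseP]
    have h1 : Real.exp (Real.exp v) - 1 ≠ 0 := by
      have : 1 < Real.exp (Real.exp v) := by
        rw [Real.one_lt_exp_iff]; exact Real.exp_pos v
      linarith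
    have h2 : Real.exp (-Real.exp v) * Real.exp (Real.exp v) = 1 := by
      rw [← Real.exp_add]; simp
    rw [div_mul_eq_mul_div, ← neg_div, eq_div_iff h1]
    linear_combination (Real.exp v) * h2
  | succ k ih =>
    have := A_step k (fun v => Real.exp (-Real.exp v)) (hp k) (-((-1) ^ k))
      (fun v => by
        rw [abs_of_pos (Real.exp_pos _)]; exact A_lt v)
      (fun v => A_curve k v)
      (fun v => by rw [ih v]; ring) v
    rw [this, pow_succ]
    simp only [hp, it]
    ring

end Pool.Agent.Helper791.Cyc
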