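import Pool.Agent.Helper791_Cyc.Defs

set_option autoImplicit false

namespace Pool.Agent.Helper791.Cyc

open MeasureTheory Filter Topology Polynomial



/-- good functions -/
def B_good (F : ℝ → ℝ) : Prop :=
  Continuous F ∧ ∀ p : ℝ[X], Integrable (fun v => F v * p.eval v)

theorem B_poly (p : ℝ[X]) : ∃ C : ℝ, 0 ≤ C ∧ ∀ v : ℝ, |p.eval v| ≤ C * Real.exp (|v| / 2) := by
  induction p using Polynomial.induction_on' with
  | add p r hp hr =>
    obtain ⟨C, hC, h1⟩ := hp
    obtain ⟨D, hD, h2⟩ := hr
    refine ⟨C + D, by linarith, fun v => ?_⟩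
    rw [Polynomial.eval_add, add_mul]
    exact (abs_add_le _ _).trans (add_le_add (h1 v) (h2 v))
  | monomial n a =>
    refine ⟨|a| * (n.factorial * 2 ^ n), by positivity, fun v => ?_⟩
    rw [Polynomial.eval_monomial, abs_mul, abs_pow, mul_assoc]
    apply mul_le_mul_of_nonneg_left _ (abs_nonneg a)
    have h1 := Real.pow_div_factorial_le_exp (|v| / 2) (by positivity) n
    rw [div_pow, div_div, div_le_iff₀ (by positivity)] at h1
    calc |v| ^ n ≤ _ := h1
      _ = _ := by ring

theorem B_good_of_bound {F : ℝ → ℝ} (hF : Continuous F) (K : ℝ)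
    (hK : ∀ v, |F v| ≤ K * Real.exp (-|v|)) : B_good F := by
  refine ⟨hF, fun p => ?_⟩
  obtain ⟨C, hC, h1⟩ := B_poly p
  have hK0 : 0 ≤ K := by
    have := (abs_nonneg _).trans (hK 0)
    simpa using this
  refine (integrable_inv_one_add_sq.const_mul (8 * (K * C))).mono'
    (hF.mul p.continuous).aestronglyMeasurable (Eventually.of_forall fun v => ?_)
  rw [norm_mul, Real.norm_eq_abs, Real.norm_eq_abs]
  have h2 : |F v| * |p.eval v| ≤ (K * Real.exp (-|v|)) * (C * Real.exp (|v| / 2)) :=
    mul_le_mul (hK v) (h1 v) (abs_nonneg _) (by positivity)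
  refine h2.trans ?_
  have h3 : (K * Real.exp (-|v|)) * (C * Real.exp (|v| / 2)) = K * C * Real.exp (-(|v| / 2)) := by
    rw [show (K * Real.exp (-|v|)) * (C * Real.exp (|v| / 2)) =
      K * C * (Real.exp (-|v|) * Real.exp (|v| / 2)) by ring, ← Real.exp_add]
    congr 2
    ring
  rw [h3]
  have h4 : (1 + v ^ 2) / 8 ≤ Real.exp (|v| / 2) := by
    have h5 := Real.quadratic_le_exp_of_nonneg (x := |v| / 2) (by positivity)
    have h6 : |v| ^ 2 = v ^ 2 := sq_abs v
    nlinarith [abs_nonneg v]
  have h7 : Real.exp (-(|v| / 2)) ≤ 8 * (1 + v ^ 2)⁻¹ := by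
    rw [Real.exp_neg]
    have : (8 : ℝ) * (1 + v ^ 2)⁻¹ = ((1 + v ^ 2) / 8)⁻¹ := by
      rw [inv_div]
      rfl
    rw [this]
    exact inv_anti₀ (by positivity) h4
  calc K * C * Real.exp (-(|v| / 2)) ≤ K * C * (8 * (1 + v ^ 2)⁻¹) :=
        mul_le_mul_of_nonneg_left h7 (by positivity)
    _ = _ := by ring

theorem B_shift_eval (p : ℝ[X]) (c v : ℝ) : (p.comp (X - C c)).eval (v + c) = p.eval v := by
  simp

theorem B_diff {F : ℝ → ℝ} (hF : B_good F) (c : ℝ) : B_good fun v => F v - F (v + c) := by
  refine ⟨hF.1.sub (hF.1.comp (continuous_id.add continuous_const)), fun p => ?_⟩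
  have h1 := (hF.2 (p.comp (X - C c))).comp_add_right c
  simp only [B_shift_eval] at h1
  have h2 := (hF.2 p).sub h1
  refine h2.congr (Eventually.of_forall fun v => ?_)
  simp only [Pi.sub_apply]
  ring

theorem B_int {F : ℝ → ℝ} (hF : B_good F) (c : ℝ) (p : ℝ[X]) :
    ∫ v, (F v - F (v + c)) * p.eval v = ∫ v, F v * (p - p.comp (X - C c)).eval v := by
  have h1 := (hF.2 (p.comp (X - C c))).comp_add_right c
  simp only [B_shift_eval] at h1
  have h2 : ∫ v, F (v + c) * p.eval v = ∫ v, F v * (p.comp (X - C c)).eval v := by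
    have := integral_add_right_eq_self (μ := volume) (fun v => F v * (p.comp (X - C c)).eval v) c
    simp only [B_shift_eval] at this
    exact this
  simp_rw [sub_mul, Polynomial.eval_sub, mul_sub]
  rw [integral_sub (hF.2 p) h1, h2, integral_sub (hF.2 p) (hF.2 _)]

theorem B_mom {F : ℝ → ℝ} (hF : B_good F) (c : ℝ) (n : ℕ)
    (hm : ∀ p : ℝ[X], p.natDegree < n → ∫ v, F v * p.eval v = 0) :
    ∀ p : ℝ[X], p.natDegree < n + 1 → ∫ v, (F v - F (v + c)) * p.eval v = 0 := by
  intro p hp
  rw [B_int hF]
  rcases Nat.eq_zero_or_pos p.natDegree with h0 | h0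
  · rw [Polynomial.eq_C_of_natDegree_eq_zero h0]
    simp
  · apply hm
    have hp0 : p ≠ 0 := by
      rintro rfl
      simp at h0
    have h1 : (p.comp (X - C c)).natDegree = p.natDegree := by
      rw [Polynomial.natDegree_comp, Polynomial.natDegree_X_sub_C, mul_one]
    have h2 : (p.comp (X - C c)).leadingCoeff = p.leadingCoeff := by
      rw [Polynomial.leadingCoeff_comp (by simp), Polynomial.leadingCoeff_X_sub_C, one_pow,
        mul_one]
    have hq0 : p.comp (X - C c) ≠ 0 := by
      intro h
      rw [h] at h1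
      simp at h1
      omega
    have h3 : p.degree = (p.comp (X - C c)).degree := by
      rw [Polynomial.degree_eq_natDegree hp0, Polynomial.degree_eq_natDegree hq0, h1]
    have h4 := Polynomial.degree_sub_lt_left h3 hp0 h2.symm
    by_cases h5 : p - p.comp (X - C c) = 0
    · rw [h5]
      simp
      omega
    · have := Polynomial.natDegree_lt_natDegree h5 h4
      omega

theorem B_it {F : ℝ → ℝ} (a : ℕ) (hF : B_good (it F a)) (k : ℕ) :
    B_good (it F (a + k)) ∧
      ∀ p : ℝ[X], p.natDegree < k → ∫ v, it F (a + k) v * p.eval v = 0 := by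
  induction k with
  | zero => exact ⟨hF, fun p hp => absurd hp (Nat.not_lt_zero _)⟩
  | succ k ih => exact ⟨B_diff ih.1 _, B_mom ih.1 _ k ih.2⟩

theorem B_base_good : B_good base := by
  have hc : Continuous base := by
    unfold base
    refine Real.continuous_exp.div (by fun_prop) fun v => ?_
    positivity
  refine B_good_of_bound hc 2 fun v => ?_
  have ht := Real.exp_pos v
  have h0 : 0 ≤ base v := by unfold base; positivity
  rw [abs_of_nonneg h0]
  rcases le_total 0 v with hv | hv
  · rw [abs_of_nonneg hv, Real.exp_neg, base, div_le_iff₀ (by positivity)]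
    have h1 := Real.quadratic_le_exp_of_nonneg ht.le
    have : 2 * (Real.exp v)⁻¹ * (Real.exp (Real.exp v) + 1) =
      2 * (Real.exp (Real.exp v) + 1) / Real.exp v := by ring
    rw [this, le_div_iff₀ ht]
    nlinarith
  · rw [abs_of_nonpos hv, neg_neg, base, div_le_iff₀ (by positivity)]
    have h1 := Real.exp_pos (Real.exp v)
    nlinarith

theorem B_den (v : ℝ) : 0 < Real.exp (Real.exp v) - 1 := by
  have := Real.add_one_lt_exp (Real.exp_pos v).ne'
  have := Real.exp_pos v
  linarith

theorem B_baseP_cont : Continuous baseP := by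
  unfold baseP
  exact Real.continuous_exp.div (by fun_prop) fun v => (B_den v).ne'

theorem B_baseP_nonneg (v : ℝ) : 0 ≤ baseP v := div_nonneg (Real.exp_pos v).le (B_den v).le

theorem B_baseP_le (v : ℝ) : baseP v ≤ 2 * Real.exp (-v) := by
  have ht := Real.exp_pos v
  rw [Real.exp_neg, baseP, div_le_iff₀ (B_den v)]
  have h1 := Real.quadratic_le_exp_of_nonneg ht.le
  have : 2 * (Real.exp v)⁻¹ * (Real.exp (Real.exp v) - 1) =
    2 * (Real.exp (Real.exp v) - 1) / Real.exp v := by ring
  rw [this, le_div_iff₀ ht]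
  nlinarith

theorem B_baseP_one (v : ℝ) : 1 - Real.exp v ≤ baseP v ∧ baseP v ≤ 1 := by
  have ht := Real.exp_pos v
  have hd := B_den v
  have h1 := Real.add_one_lt_exp ht.ne'
  constructor
  · rw [baseP, le_div_iff₀ hd]
    have h2 : Real.exp (Real.exp v) * (1 - Real.exp v) ≤ 1 := by
      have h3 : 1 - Real.exp v ≤ Real.exp (-Real.exp v) := by
        have := Real.add_one_le_exp (-Real.exp v)
        linarith
      calc Real.exp (Real.exp v) * (1 - Real.exp v) ≤
          Real.exp (Real.exp v) * Real.exp (-Real.exp v) :=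
            mul_le_mul_of_nonneg_left h3 (Real.exp_pos _).le
        _ = 1 := by rw [← Real.exp_add, add_neg_cancel, Real.exp_zero]
    nlinarith
  · rw [baseP, div_le_one hd]
    linarith

theorem B_q_pos (i : ℕ) : 1 ≤ q i := by
  have : Nat.Prime (q i) := Nat.prime_nth_prime _
  exact this.one_lt.le

theorem B_hp_good : B_good (it baseP 1) := by
  have hc0 : 0 ≤ Real.log (q 0) := Real.log_nonneg (by exact_mod_cast B_q_pos 0)
  set c := Real.log (q 0) with hc
  have he : ∀ v, it baseP 1 v = baseP v - baseP (v + c) := fun v => rfl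
  have hcont : Continuous (it baseP 1) := by
    have : it baseP 1 = fun v => baseP v - baseP (v + c) := rfl
    rw [this]
    exact B_baseP_cont.sub (B_baseP_cont.comp (continuous_id.add continuous_const))
  refine B_good_of_bound hcont (2 + Real.exp c) fun v => ?_
  rw [he]
  have hec := Real.exp_pos c
  have hev := Real.exp_pos (-v)
  rcases le_total 0 v with hv | hv
  · rw [abs_of_nonneg hv]
    have h1 := B_baseP_le v
    have h2 := B_baseP_le (v + c)
    have h3 := B_baseP_nonneg v
    have h4 := B_baseP_nonneg (v + c)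
    have h5 : Real.exp (-(v + c)) ≤ Real.exp (-v) := Real.exp_le_exp.2 (by linarith)
    have h6 : 0 ≤ Real.exp c * Real.exp (-v) := by positivity
    rw [abs_le]
    constructor <;> nlinarith
  · rw [abs_of_nonpos hv, neg_neg]
    have h1 := B_baseP_one v
    have h2 := B_baseP_one (v + c)
    have h5 : Real.exp (v + c) = Real.exp c * Real.exp v := by rw [Real.exp_add, mul_comm]
    rw [h5] at h2
    have hev := Real.exp_pos v
    have h6 : 0 ≤ Real.exp c * Real.exp v := by positivity
    rw [abs_le]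
    constructor <;> nlinarith [h1.1, h1.2, h2.1, h2.2]

/-! END -/

/-- TARGET -/
theorem h_cont (k : ℕ) : Continuous (h k) := by
  have := (B_it (F := base) 0 B_base_good k).1.1
  rwa [Nat.zero_add] at this

/-- TARGET -/
theorem h_int (k : ℕ) (p : ℝ[X]) : Integrable (fun v => h k v * p.eval v) := by
  have := (B_it (F := base) 0 B_base_good k).1.2 p
  rwa [Nat.zero_add] at this

/-- TARGET -/
theorem h_mom (k : ℕ) (p : ℝ[X]) (hp : p.natDegree < k) : ∫ v, h k v * p.eval v = 0 := by
  have := (B_it (F := base) 0 B_base_good k).2 p hp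
  rwa [Nat.zero_add] at this

/-- TARGET -/
theorem hp_cont (k : ℕ) : Continuous (hp k) := by
  cases k with
  | zero => exact B_baseP_cont
  | succ k =>
    have := (B_it (F := baseP) 1 B_hp_good k).1.1
    rwa [Nat.add_comm] at this

/-- TARGET -/
theorem hp_int (k : ℕ) (p : ℝ[X]) : Integrable (fun v => hp (k + 1) v * p.eval v) := by
  have := (B_it (F := baseP) 1 B_hp_good k).1.2 p
  rwa [Nat.add_comm] at this

/-- TARGET -/
theorem hp_mom (k : ℕ) (p : ℝ[X]) (hp' : p.natDegree < k) :
    ∫ v, hp (k + 1) v * p.eval v = 0 := by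
  have := (B_it (F := baseP) 1 B_hp_good k).2 p hp'
  rwa [Nat.add_comm] at this

end Pool.Agent.Helper791.Cyc
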