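import Pool.Agent.Helper791_Cyc.Defs
import Pool.Agent.Helper791_Cyc.A
import Pool.Agent.Helper791_Cyc.B

set_option autoImplicit false

namespace Pool.Agent.Helper791.Cyc

open MeasureTheory Filter Topology Polynomial



/-- one sign -/
def C_CS (f : ℝ → ℝ) : Prop := (∀ v, 0 ≤ f v) ∨ (∀ v, f v ≤ 0)

theorem C_mul {f g : ℝ → ℝ} (hf : C_CS f) (hg : C_CS g) : C_CS (fun v => f v * g v) := by
  rcases hf with hf | hf <;> rcases hg with hg | hg
  · exact Or.inl fun v => mul_nonneg (hf v) (hg v)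
  · exact Or.inr fun v => mul_nonpos_of_nonneg_of_nonpos (hf v) (hg v)
  · exact Or.inr fun v => mul_nonpos_of_nonpos_of_nonneg (hf v) (hg v)
  · exact Or.inl fun v => mul_nonneg_of_nonpos_of_nonpos (hf v) (hg v)

theorem C_prod (s : Multiset ℝ) (F : ℝ → ℝ → ℝ) (hF : ∀ r ∈ s, C_CS (F r)) :
    C_CS (fun v => (s.map (fun r => F r v)).prod) := by
  induction s using Multiset.induction_on with
  | empty => exact Or.inl fun v => by simp
  | cons a s ih =>
    have h1 := ih fun r hr => hF r (Multiset.mem_cons_of_mem hr)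
    have h2 := C_mul (hF a (Multiset.mem_cons_self a s)) h1
    simpa only [Multiset.map_cons, Multiset.prod_cons] using h2

theorem C_congr {f g : ℝ → ℝ} (hf : C_CS f) (h : ∀ v, g v = f v) : C_CS g := by
  rcases hf with hf | hf
  · exact Or.inl fun v => by rw [h]; exact hf v
  · exact Or.inr fun v => by rw [h]; exact hf v

theorem C_nozero (E : ℝ[X]) (hE0 : E ≠ 0) (hE : E.roots = 0) : (∀ x, 0 < E.eval x) ∨ (∀ x, E.eval x < 0) := by
  have hne : ∀ x, E.eval x ≠ 0 := by
    intro x hx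
    have : x ∈ E.roots := (mem_roots hE0).2 hx
    rw [hE] at this
    exact Multiset.notMem_zero x this
  by_contra hcon
  rw [not_or, not_forall, not_forall] at hcon
  obtain ⟨⟨a, ha⟩, ⟨b, hb⟩⟩ := hcon
  have ha' : E.eval a < 0 := lt_of_le_of_ne (not_lt.1 ha) (hne a)
  have hb' : 0 < E.eval b := lt_of_le_of_ne (not_lt.1 hb) (hne b).symm
  have hc : Continuous fun x => E.eval x := E.continuous
  obtain ⟨z, hz⟩ := mem_range_of_exists_le_of_exists_ge hc ⟨a, ha'.le⟩ ⟨b, hb'.le⟩
  exact hne z hz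

theorem C_main (D : ℝ[X]) (hD : D ≠ 0) (x y : ℝ → ℝ) (a b : ℝ) (hx : ∀ v, a < x v ∧ x v < b)
    (hmon : ∀ r, a < r → r < b → C_CS (fun v => (x v - r) * (v - y r))) :
    C_CS (fun v => D.eval (x v) *
      (((D.roots.filter (fun r => a < r ∧ r < b)).map y).map (fun t => v - t)).prod) := by
  obtain ⟨E, hE1, -, hE2⟩ := exists_prod_multiset_X_sub_C_mul D
  have hE0 : E ≠ 0 := by
    rintro rfl
    rw [mul_zero] at hE1
    exact hD hE1.symm
  have hEs : C_CS (fun v => E.eval (x v)) := by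
    rcases C_nozero E hE0 hE2 with h | h
    · exact Or.inl fun v => (h _).le
    · exact Or.inr fun v => (h _).le
  have h1 : C_CS (fun v => ((D.roots.filter (fun r => a < r ∧ r < b)).map
      (fun r => (x v - r) * (v - y r))).prod) :=
    C_prod _ (fun r v => (x v - r) * (v - y r)) fun r hr => by
      have := (Multiset.mem_filter.1 hr).2
      exact hmon r this.1 this.2
  have h2 : C_CS (fun v => ((D.roots.filter (fun r => ¬ (a < r ∧ r < b))).map (fun r => x v - r)).prod) :=
    C_prod _ (fun r v => x v - r) fun r hr => by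
      have := (Multiset.mem_filter.1 hr).2
      rcases le_or_gt r a with h | h
      · exact Or.inl fun v => by linarith [(hx v).1]
      · have : b ≤ r := by
          by_contra hc
          exact this ⟨h, not_le.1 hc⟩
        exact Or.inr fun v => by linarith [(hx v).2]
  refine C_congr (C_mul (C_mul h1 h2) hEs) fun v => ?_
  have h3 : D.eval (x v) = ((D.roots.map (fun r => x v - r)).prod) * E.eval (x v) := by
    conv_lhs => rw [← hE1]
    rw [eval_mul, eval_multiset_prod, Multiset.map_map]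
    congr 2
    apply Multiset.map_congr rfl
    intro r _
    simp
  have h4 : (D.roots.map (fun r => x v - r)).prod =
      ((D.roots.filter (fun r => a < r ∧ r < b)).map (fun r => x v - r)).prod *
      ((D.roots.filter (fun r => ¬ (a < r ∧ r < b))).map (fun r => x v - r)).prod := by
    rw [← Multiset.prod_add, ← Multiset.map_add, Multiset.filter_add_not]
  rw [h3, h4, Multiset.map_map, Multiset.prod_map_mul]
  simp only [Function.comp_def]
  ring

theorem C_zero (D : ℝ[X]) (hD : D ≠ 0) (x : ℝ → ℝ) (hinj : Function.Injective x) (s : Multiset ℝ) :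
    ¬ ∀ v, D.eval (x v) * (s.map (fun t => v - t)).prod = 0 := by
  intro h
  have h1 : ({v : ℝ | v ∈ s}ᶜ).Infinite := by
    have hf : {v : ℝ | v ∈ s}.Finite := by
      classical
      have : {v : ℝ | v ∈ s} = (s.toFinset : Set ℝ) := by
        ext v
        simp
      rw [this]
      exact s.toFinset.finite_toSet
    exact hf.infinite_compl
  have h2 : (x '' {v : ℝ | v ∈ s}ᶜ).Infinite := h1.image hinj.injOn
  apply h2
  refine (D.roots.toFinset.finite_toSet).subset ?_
  rintro _ ⟨v, hv, rfl⟩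
  rw [Finset.mem_coe, Multiset.mem_toFinset, mem_roots hD]
  have h3 := h v
  rcases mul_eq_zero.1 h3 with h4 | h4
  · exact h4
  · exfalso
    rw [Multiset.prod_eq_zero_iff, Multiset.mem_map] at h4
    obtain ⟨t, ht, ht2⟩ := h4
    apply hv
    have : v = t := by linarith
    rw [this]
    exact ht

theorem C_key (D : ℝ[X]) (hD : D ≠ 0) (x y : ℝ → ℝ) (a b : ℝ) (hx : ∀ v, a < x v ∧ x v < b)
    (hinj : Function.Injective x)
    (hmon : ∀ r, a < r → r < b → C_CS (fun v => (x v - r) * (v - y r)))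
    (g u : ℝ → ℝ) (hg : ∀ v, g v = D.eval (x v) * u v) (hu : (∀ v, 0 < u v) ∨ (∀ v, u v < 0))
    (hgc : Continuous g) (hint : ∀ p : ℝ[X], Integrable (fun v => g v * p.eval v)) (K : ℕ)
    (hmom : ∀ p : ℝ[X], p.natDegree < K → ∫ v, g v * p.eval v = 0) :
    C_CS (fun v => g v * (((D.roots.filter (fun r => a < r ∧ r < b)).map y).map (fun t => v - t)).prod) ∧
      K ≤ Multiset.card (D.roots.filter (fun r => a < r ∧ r < b)) := by
  set s := (D.roots.filter (fun r => a < r ∧ r < b)).map y with hs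
  have hm := C_main D hD x y a b hx hmon
  rw [← hs] at hm
  have hus : C_CS u := by
    rcases hu with h | h
    · exact Or.inl fun v => (h v).le
    · exact Or.inr fun v => (h v).le
  have hcs : C_CS (fun v => g v * (s.map (fun t => v - t)).prod) :=
    C_congr (C_mul hm hus) fun v => by rw [hg]; ring
  refine ⟨hcs, ?_⟩
  by_contra hcon
  set p : ℝ[X] := (s.map (fun t => X - C t)).prod with hp
  have hpe : ∀ v, p.eval v = (s.map (fun t => v - t)).prod := by
    intro v
    rw [hp, eval_multiset_prod, Multiset.map_map]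
    congr 1
    apply Multiset.map_congr rfl
    intro r _
    simp
  have hpd : p.natDegree < K := by
    rw [hp, natDegree_multiset_prod_X_sub_C_eq_card, hs, Multiset.card_map]
    omega
  have h0 := hmom p hpd
  have hc : Continuous (fun v => g v * p.eval v) := hgc.mul p.continuous
  have hz : ∀ v, g v * p.eval v = 0 := by
    have hcs' : C_CS (fun v => g v * p.eval v) := C_congr hcs fun v => by rw [hpe]
    rcases hcs' with h | h
    · have h1 := (integral_eq_zero_iff_of_nonneg h (hint p)).1 h0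
      have h2 := (hc.ae_eq_iff_eq volume continuous_zero).1 h1
      exact fun v => congrFun h2 v
    · have h3 : ∫ v, -(g v * p.eval v) = 0 := by rw [integral_neg, h0, neg_zero]
      have h1 := (integral_eq_zero_iff_of_nonneg (fun v => neg_nonneg.2 (h v)) (hint p).neg).1 h3
      have h2 := (hc.neg.ae_eq_iff_eq volume continuous_zero).1 h1
      intro v
      have := congrFun h2 v
      simp only [Pi.zero_apply] at this
      exact neg_eq_zero.1 this
  apply C_zero D hD x hinj s
  intro v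
  have h1 := hz v
  rw [hpe, hg] at h1
  have hu0 : u v ≠ 0 := by
    rcases hu with h | h
    · exact (h v).ne'
    · exact (h v).ne
  have h2 : D.eval (x v) * (s.map (fun t => v - t)).prod * u v = 0 := by linarith
  exact (mul_eq_zero.1 h2).resolve_right hu0

theorem C_m_gt (k : ℕ) (hk : 1 ≤ k) : 2 < m k := by
  have hq : ∀ i, 3 ≤ q i := by
    intro i
    have h1 : Nat.nth Nat.Prime 1 ≤ q i := by
      unfold q
      exact (Nat.nth_monotone Nat.infinite_setOfPred_prime) (by omega)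
    rwa [Nat.nth_prime_one_eq_three] at h1
  obtain ⟨k', rfl⟩ : ∃ k', k = k' + 1 := ⟨k - 1, by omega⟩
  unfold m
  rw [Finset.prod_range_succ]
  have h2 : 1 ≤ ∏ i ∈ Finset.range k', q i := Finset.one_le_prod'' fun i => by
    have := hq i
    omega
  have h3 := hq k'
  nlinarith

theorem C_D_ne (k : ℕ) (hk : 1 ≤ k) : derivative (cyclotomic (m k) ℝ) ≠ 0 := by
  intro h
  have h1 := derivative_eq_zero.1 h
  rw [natDegree_cyclotomic] at h1
  have h2 := C_m_gt k hk
  have h3 : 0 < Nat.totient (m k) := Nat.totient_pos.2 (by omega)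
  omega


/-- the negative change of variables -/
noncomputable def C_x1 (v : ℝ) : ℝ := -Real.exp (-Real.exp v)

/-- the positive change of variables -/
noncomputable def C_x2 (v : ℝ) : ℝ := Real.exp (-Real.exp v)

/-- inverse of `C_x1` -/
noncomputable def C_y1 (r : ℝ) : ℝ := Real.log (-Real.log (-r))

/-- inverse of `C_x2` -/
noncomputable def C_y2 (r : ℝ) : ℝ := Real.log (-Real.log r)

theorem C_x2_mem (v : ℝ) : 0 < C_x2 v ∧ C_x2 v < 1 := by
  refine ⟨Real.exp_pos _, ?_⟩
  unfold C_x2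
  rw [Real.exp_lt_one_iff]
  have := Real.exp_pos v
  linarith

theorem C_x1_mem (v : ℝ) : -1 < C_x1 v ∧ C_x1 v < 0 := by
  have h := C_x2_mem v
  unfold C_x2 at h
  unfold C_x1
  constructor <;> linarith [h.1, h.2]

theorem C_x2_anti : StrictAnti C_x2 := by
  intro a b hab
  unfold C_x2
  apply Real.exp_lt_exp.2
  have := Real.exp_lt_exp.2 hab
  linarith

theorem C_x1_mono : StrictMono C_x1 := by
  intro a b hab
  have := C_x2_anti hab
  unfold C_x2 at this
  unfold C_x1
  linarith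

theorem C_x2_y2 (r : ℝ) (h0 : 0 < r) (h1 : r < 1) : C_x2 (C_y2 r) = r := by
  unfold C_x2 C_y2
  have h2 : Real.log r < 0 := Real.log_neg h0 h1
  rw [Real.exp_log (by linarith), neg_neg, Real.exp_log h0]

theorem C_x1_y1 (r : ℝ) (h0 : -1 < r) (h1 : r < 0) : C_x1 (C_y1 r) = r := by
  have h2 := C_x2_y2 (-r) (by linarith) (by linarith)
  unfold C_x2 C_y2 at h2
  unfold C_x1 C_y1
  rw [h2, neg_neg]

theorem C_mon1 (r : ℝ) (h0 : -1 < r) (h1 : r < 0) : C_CS (fun v => (C_x1 v - r) * (v - C_y1 r)) := by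
  left
  intro v
  have h2 := C_x1_y1 r h0 h1
  rcases le_total v (C_y1 r) with h | h
  · have h3 := C_x1_mono.monotone h
    rw [h2] at h3
    exact mul_nonneg_of_nonpos_of_nonpos (by linarith) (by linarith)
  · have h3 := C_x1_mono.monotone h
    rw [h2] at h3
    exact mul_nonneg (by linarith) (by linarith)

theorem C_mon2 (r : ℝ) (h0 : 0 < r) (h1 : r < 1) : C_CS (fun v => (C_x2 v - r) * (v - C_y2 r)) := by
  right
  intro v
  have h2 := C_x2_y2 r h0 h1
  rcases le_total v (C_y2 r) with h | h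
  · have h3 := C_x2_anti.antitone h
    rw [h2] at h3
    exact mul_nonpos_of_nonneg_of_nonpos (by linarith) (by linarith)
  · have h3 := C_x2_anti.antitone h
    rw [h2] at h3
    exact mul_nonpos_of_nonpos_of_nonneg (by linarith) (by linarith)

theorem C_sgn (k : ℕ) : ((-1 : ℝ) ^ k = 1) ∨ ((-1 : ℝ) ^ k = -1) := neg_one_pow_eq_or ℝ k

theorem C_h_eq (k : ℕ) (hk : 1 ≤ k) (v : ℝ) :
    h k v = (derivative (cyclotomic (m k) ℝ)).eval (C_x1 v) *
      ((-1) ^ k * (C_x1 v * Real.exp v / (cyclotomic (m k) ℝ).eval (C_x1 v))) := by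
  have hP : 0 < (cyclotomic (m k) ℝ).eval (C_x1 v) := cyclotomic_pos (C_m_gt k hk) _
  have h1 := cyc_neg k v
  change (derivative (cyclotomic (m k) ℝ)).eval (C_x1 v) * C_x1 v * Real.exp v =
    (-1) ^ k * h k v * (cyclotomic (m k) ℝ).eval (C_x1 v) at h1
  have h2 : (derivative (cyclotomic (m k) ℝ)).eval (C_x1 v) *
      ((-1) ^ k * (C_x1 v * Real.exp v / (cyclotomic (m k) ℝ).eval (C_x1 v))) =
      (-1) ^ k * ((derivative (cyclotomic (m k) ℝ)).eval (C_x1 v) * C_x1 v * Real.exp v) /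
        (cyclotomic (m k) ℝ).eval (C_x1 v) := by ring
  rw [h2, h1]
  rcases C_sgn k with h3 | h3 <;> rw [h3] <;> field_simp

theorem C_hp_eq (k : ℕ) (hk : 1 ≤ k) (v : ℝ) :
    hp k v = (derivative (cyclotomic (m k) ℝ)).eval (C_x2 v) *
      (-(-1) ^ k * (C_x2 v * Real.exp v / (cyclotomic (m k) ℝ).eval (C_x2 v))) := by
  have hP : 0 < (cyclotomic (m k) ℝ).eval (C_x2 v) := cyclotomic_pos (C_m_gt k hk) _
  have h1 := cyc_pos k v
  change (derivative (cyclotomic (m k) ℝ)).eval (C_x2 v) * C_x2 v * Real.exp v =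
    -((-1) ^ k * hp k v * (cyclotomic (m k) ℝ).eval (C_x2 v)) at h1
  have h2 : (derivative (cyclotomic (m k) ℝ)).eval (C_x2 v) *
      (-(-1) ^ k * (C_x2 v * Real.exp v / (cyclotomic (m k) ℝ).eval (C_x2 v))) =
      -(-1) ^ k * ((derivative (cyclotomic (m k) ℝ)).eval (C_x2 v) * C_x2 v * Real.exp v) /
        (cyclotomic (m k) ℝ).eval (C_x2 v) := by ring
  rw [h2, h1]
  rcases C_sgn k with h3 | h3 <;> rw [h3] <;> field_simp

theorem C_u1 (k : ℕ) (hk : 1 ≤ k) :
    (∀ v, 0 < (-1 : ℝ) ^ k * (C_x1 v * Real.exp v / (cyclotomic (m k) ℝ).eval (C_x1 v))) ∨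
    (∀ v, (-1 : ℝ) ^ k * (C_x1 v * Real.exp v / (cyclotomic (m k) ℝ).eval (C_x1 v)) < 0) := by
  have hB : ∀ v, C_x1 v * Real.exp v / (cyclotomic (m k) ℝ).eval (C_x1 v) < 0 := by
    intro v
    have hP : 0 < (cyclotomic (m k) ℝ).eval (C_x1 v) := cyclotomic_pos (C_m_gt k hk) _
    exact div_neg_of_neg_of_pos (mul_neg_of_neg_of_pos (C_x1_mem v).2 (Real.exp_pos v)) hP
  rcases C_sgn k with h3 | h3
  · right
    intro v
    rw [h3, one_mul]
    exact hB v
  · left
    intro v
    rw [h3]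
    have := hB v
    linarith

theorem C_u2 (k : ℕ) (hk : 1 ≤ k) :
    (∀ v, 0 < -(-1 : ℝ) ^ k * (C_x2 v * Real.exp v / (cyclotomic (m k) ℝ).eval (C_x2 v))) ∨
    (∀ v, -(-1 : ℝ) ^ k * (C_x2 v * Real.exp v / (cyclotomic (m k) ℝ).eval (C_x2 v)) < 0) := by
  have hB : ∀ v, 0 < C_x2 v * Real.exp v / (cyclotomic (m k) ℝ).eval (C_x2 v) := by
    intro v
    have hP : 0 < (cyclotomic (m k) ℝ).eval (C_x2 v) := cyclotomic_pos (C_m_gt k hk) _
    exact div_pos (mul_pos (C_x2_mem v).1 (Real.exp_pos v)) hP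
  rcases C_sgn k with h3 | h3
  · right
    intro v
    rw [h3]
    have := hB v
    linarith
  · left
    intro v
    rw [h3]
    have := hB v
    linarith

theorem C_card (Z : Multiset ℝ) :
    Multiset.card (Z.filter (fun r => -1 < r ∧ r < 0)) + Multiset.card (Z.filter (fun r => 0 < r ∧ r < 1)) ≤
      Multiset.card Z := by
  have h1 : Z.filter (fun r => 0 < r ∧ r < 1) ≤ Z.filter (fun r => ¬ (-1 < r ∧ r < 0)) := by
    apply Multiset.monotone_filter_right
    rintro r ⟨h1, -⟩ ⟨-, h2⟩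
    linarith
  have h2 := Multiset.card_le_card h1
  have h3 : Multiset.card (Z.filter (fun r => -1 < r ∧ r < 0)) +
      Multiset.card (Z.filter (fun r => ¬ (-1 < r ∧ r < 0))) = Multiset.card Z := by
    rw [← Multiset.card_add, Multiset.filter_add_not]
  omega


/-! END -/

/-- TARGET -/
theorem step1 (k : ℕ) (hk : 1 ≤ k)
    (hN : Multiset.card (derivative (cyclotomic (m k) ℝ)).roots ≤ 2 * k - 1) :
    ∃ (s : Multiset ℝ) (σ : ℝ), (σ = 1 ∨ σ = -1) ∧ Multiset.card s = k ∧
      (∀ v, 0 ≤ σ * h k v * (s.map (fun r => v - r)).prod) ∧ ∀ r ∈ s, h k r = 0 := by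
  obtain ⟨hs1, hc1⟩ := C_key (derivative (cyclotomic (m k) ℝ)) (C_D_ne k hk) C_x1 C_y1 (-1) 0 C_x1_mem
    C_x1_mono.injective C_mon1 (h k) _ (C_h_eq k hk) (C_u1 k hk) (h_cont k) (h_int k) k (h_mom k)
  obtain ⟨k', rfl⟩ : ∃ k', k = k' + 1 := ⟨k - 1, by omega⟩
  obtain ⟨-, hc2⟩ := C_key (derivative (cyclotomic (m (k' + 1)) ℝ)) (C_D_ne (k' + 1) hk) C_x2 C_y2 0 1 C_x2_mem
    C_x2_anti.injective C_mon2 (hp (k' + 1)) _ (C_hp_eq (k' + 1) hk) (C_u2 (k' + 1) hk)
    (hp_cont (k' + 1)) (hp_int k') k' (hp_mom k')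
  have hc3 := C_card (derivative (cyclotomic (m (k' + 1)) ℝ)).roots
  have hz : ∀ r ∈ ((derivative (cyclotomic (m (k' + 1)) ℝ)).roots.filter (fun r => -1 < r ∧ r < 0)).map C_y1,
      h (k' + 1) r = 0 := by
    intro r hr
    rw [Multiset.mem_map] at hr
    obtain ⟨t, ht, rfl⟩ := hr
    rw [Multiset.mem_filter, mem_roots (C_D_ne (k' + 1) hk)] at ht
    rw [C_h_eq (k' + 1) hk, C_x1_y1 t ht.2.1 ht.2.2]
    have := ht.1
    rw [IsRoot.def] at this
    rw [this, zero_mul]
  rcases hs1 with h1 | h1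
  · refine ⟨_, 1, Or.inl rfl, ?_, ?_, hz⟩
    · rw [Multiset.card_map]
      omega
    · intro v
      rw [one_mul]
      exact h1 v
  · refine ⟨_, -1, Or.inr rfl, ?_, ?_, hz⟩
    · rw [Multiset.card_map]
      omega
    · intro v
      have h2 := h1 v
      have h3 : -1 * h (k' + 1) v * ((((derivative (cyclotomic (m (k' + 1)) ℝ)).roots.filter
        (fun r => -1 < r ∧ r < 0)).map C_y1).map (fun r => v - r)).prod =
          -(h (k' + 1) v * ((((derivative (cyclotomic (m (k' + 1)) ℝ)).roots.filter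
        (fun r => -1 < r ∧ r < 0)).map C_y1).map (fun r => v - r)).prod) := by ring
      rw [h3]
      exact neg_nonneg.2 h2

end Pool.Agent.Helper791.Cyc
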