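import Pool.Agent.Helper791_Cyc.Defs

set_option autoImplicit false

namespace Pool.Agent.Helper791.Cyc

open MeasureTheory Filter Topology Polynomial



theorem D_den (v R : ℝ) (hR : 0 < R) : (v : ℂ) - Complex.I * R ≠ 0 := by
  intro h
  have h1 := congrArg Complex.im h
  simp at h1
  linarith

theorem D_nrm (v R : ℝ) (hR : 0 < R) : R ≤ ‖(v : ℂ) - Complex.I * R‖ := by
  have h1 := Complex.abs_im_le_norm ((v : ℂ) - Complex.I * R)
  have h2 : ((v : ℂ) - Complex.I * R).im = -R := by simp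
  rw [h2, abs_neg, abs_of_pos hR] at h1
  exact h1

theorem D_int (g : ℝ → ℝ) (hg : Continuous g) (hi : Integrable g) (R : ℝ) (hR : 0 < R) :
    Integrable (fun v : ℝ => (g v : ℂ) / ((v : ℂ) - Complex.I * R)) := by
  refine Integrable.mono' (hi.norm.const_mul R⁻¹) ?_ (Eventually.of_forall fun v => ?_)
  · refine Continuous.aestronglyMeasurable ?_
    refine Continuous.div (by fun_prop) (by fun_prop) fun v => D_den v R hR
  · rw [norm_div, Complex.norm_real, ← div_eq_inv_mul]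
    exact div_le_div_of_nonneg_left (norm_nonneg _) hR (D_nrm v R hR)

theorem D_poly (f : ℝ → ℝ) (k : ℕ)
    (hint : ∀ p : ℝ[X], Integrable (fun v => f v * p.eval v))
    (hmom : ∀ p : ℝ[X], p.natDegree < k → ∫ v, f v * p.eval v = 0) (Q : ℂ[X]) :
    Integrable (fun v : ℝ => (f v : ℂ) * Q.eval (v : ℂ)) ∧
      (Q.natDegree < k → ∫ v : ℝ, (f v : ℂ) * Q.eval (v : ℂ) = 0) := by
  have e : ∀ v : ℝ, (f v : ℂ) * Q.eval (v : ℂ) =
      ∑ n ∈ Finset.range (Q.natDegree + 1), Q.coeff n * ((f v * v ^ n : ℝ) : ℂ) := by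
    intro v
    rw [eval_eq_sum_range, Finset.mul_sum]
    refine Finset.sum_congr rfl fun n _ => ?_
    push_cast
    ring
  have hn : ∀ n : ℕ, Integrable (fun v : ℝ => f v * v ^ n) := by
    intro n
    have := hint (X ^ n)
    simpa only [eval_pow, eval_X] using this
  have hn' : ∀ n : ℕ, Integrable (fun v : ℝ => Q.coeff n * ((f v * v ^ n : ℝ) : ℂ)) :=
    fun n => (hn n).ofReal.const_mul _
  simp only [e]
  refine ⟨integrable_finsetSum _ fun n _ => hn' n, fun hQ => ?_⟩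
  rw [integral_finsetSum _ fun n _ => hn' n]
  refine Finset.sum_eq_zero fun n hnr => ?_
  rw [Finset.mem_range] at hnr
  rw [integral_const_mul, integral_complex_ofReal]
  have h0 := hmom (X ^ n) (by rw [natDegree_X_pow]; omega)
  simp only [eval_pow, eval_X] at h0
  rw [h0]
  simp

theorem D_evalR (s : Multiset ℝ) (v : ℝ) :
    ((s.map (fun r => X - C r)).prod : ℝ[X]).eval v = (s.map (fun r => v - r)).prod := by
  rw [eval_multiset_prod, Multiset.map_map]
  congr 1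
  refine Multiset.map_congr rfl fun r _ => ?_
  simp

theorem D_evalC (s : Multiset ℝ) (z : ℂ) :
    ((s.map (fun r : ℝ => X - C (r : ℂ))).prod : ℂ[X]).eval z =
      (s.map (fun r : ℝ => z - (r : ℂ))).prod := by
  rw [eval_multiset_prod, Multiset.map_map]
  congr 1
  refine Multiset.map_congr rfl fun r _ => ?_
  simp

theorem D_cast (s : Multiset ℝ) (v : ℝ) :
    (((s.map (fun r => v - r)).prod : ℝ) : ℂ) = (s.map (fun r : ℝ => (v : ℂ) - (r : ℂ))).prod := by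
  have h := map_multiset_prod Complex.ofRealHom (s.map (fun r => v - r))
  rw [Multiset.map_map] at h
  rw [← Complex.ofRealHom_eq_coe, h]
  congr 1
  refine Multiset.map_congr rfl fun r _ => ?_
  simp

theorem D_deg (s : Multiset ℝ) :
    ((s.map (fun r : ℝ => X - C (r : ℂ))).prod : ℂ[X]).natDegree = Multiset.card s := by
  have h := natDegree_multiset_prod_X_sub_C_eq_card (s.map (fun r : ℝ => (r : ℂ)))
  rw [Multiset.map_map, Multiset.card_map] at h
  exact h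

/-- the weighted Cauchy transform -/
theorem D_key (f : ℝ → ℝ) (k : ℕ) (hf : Continuous f)
    (hint : ∀ p : ℝ[X], Integrable (fun v => f v * p.eval v))
    (hmom : ∀ p : ℝ[X], p.natDegree < k → ∫ v, f v * p.eval v = 0)
    (s : Multiset ℝ) (hs : Multiset.card s = k) (σ R : ℝ) (hR : 0 < R) :
    ∫ v : ℝ, ((σ * f v * (s.map (fun r => v - r)).prod : ℝ) : ℂ) / ((v : ℂ) - Complex.I * R) =
      σ * (s.map (fun r : ℝ => Complex.I * R - (r : ℂ))).prod *
        ∫ v : ℝ, (f v : ℂ) / ((v : ℂ) - Complex.I * R) := by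
  have hfi : Integrable f := by
    have := hint 1
    simpa using this
  set x : ℂ := Complex.I * R with hx
  set P : ℂ[X] := (s.map (fun r : ℝ => X - C (r : ℂ))).prod with hP
  set p : ℂ[X] := P - C (P.eval x) with hp
  set Q : ℂ[X] := p /ₘ (X - C x) with hQ
  have hroot : p.IsRoot x := by
    rw [IsRoot.def, hp, eval_sub, eval_C, sub_self]
  have hmul : (X - C x) * Q = p := mul_divByMonic_eq_iff_isRoot.2 hroot
  have hQ0 : ∫ v : ℝ, (f v : ℂ) * Q.eval (v : ℂ) = 0 := by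
    rcases Nat.eq_zero_or_pos k with hk | hk
    · have hs0 : s = 0 := by
        rw [← Multiset.card_eq_zero, hs, hk]
      have hP1 : P = 1 := by rw [hP, hs0]; simp
      have hp0 : p = 0 := by rw [hp, hP1]; simp
      have hQz : Q = 0 := by rw [hQ, hp0, zero_divByMonic]
      rw [hQz]
      simp
    · refine (D_poly f k hint hmom Q).2 ?_
      have h1 : Q.natDegree = p.natDegree - (X - C x).natDegree :=
        natDegree_divByMonic p (monic_X_sub_C x)
      have h2 : p.natDegree = k := by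
        rw [hp, natDegree_sub_C, hP, D_deg, hs]
      rw [h1, h2, natDegree_X_sub_C]
      omega
  have hpt : ∀ v : ℝ, ((σ * f v * (s.map (fun r => v - r)).prod : ℝ) : ℂ) / ((v : ℂ) - x) =
      σ * P.eval x * ((f v : ℂ) / ((v : ℂ) - x)) + σ * ((f v : ℂ) * Q.eval (v : ℂ)) := by
    intro v
    have hden : (v : ℂ) - x ≠ 0 := D_den v R hR
    have h1 : P.eval (v : ℂ) = P.eval x + ((v : ℂ) - x) * Q.eval (v : ℂ) := by
      have h2 := congrArg (fun q : ℂ[X] => q.eval (v : ℂ)) hmul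
      simp only [eval_mul, eval_sub, eval_X, eval_C, hp] at h2
      rw [h2]
      ring
    rw [Complex.ofReal_mul, D_cast, ← D_evalC, ← hP, h1]
    push_cast
    field_simp
  have hPx : P.eval x = (s.map (fun r : ℝ => x - (r : ℂ))).prod := D_evalC s x
  simp only [hpt]
  rw [integral_add ((D_int f hf hfi R hR).const_mul _)
    ((D_poly f k hint hmom Q).1.const_mul _), integral_const_mul, integral_const_mul, hQ0, hPx]
  ring

theorem D_split (w v R : ℝ) (hR : 0 < R) : (w : ℂ) / ((v : ℂ) - Complex.I * R) =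
    ((w * (v / (v ^ 2 + R ^ 2)) : ℝ) : ℂ) + Complex.I * ((w * (R / (v ^ 2 + R ^ 2)) : ℝ) : ℂ) := by
  have h1 : (v : ℂ) - Complex.I * R ≠ 0 := D_den v R hR
  have h2 : ((v : ℂ) ^ 2 + (R : ℂ) ^ 2) ≠ 0 := by
    have : (0 : ℝ) < v ^ 2 + R ^ 2 := by positivity
    exact_mod_cast this.ne'
  rw [div_eq_iff h1]
  push_cast
  field_simp
  linear_combination (w : ℂ) * (R : ℂ) ^ 2 * Complex.I_sq

theorem D_kb (w : ℝ → ℝ) (hw : Continuous w) (hi : Integrable w) (R : ℝ) (hR : 0 < R) :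
    Integrable (fun v : ℝ => w v * (v / (v ^ 2 + R ^ 2))) ∧
      Integrable (fun v : ℝ => w v * (1 / (v ^ 2 + R ^ 2))) := by
  have hpos : ∀ v : ℝ, 0 < v ^ 2 + R ^ 2 := fun v => by positivity
  constructor
  · refine Integrable.mono' (hi.norm.mul_const (1 / (2 * R))) ?_
      (Eventually.of_forall fun v => ?_)
    · refine Continuous.aestronglyMeasurable (hw.mul ?_)
      exact Continuous.div (by fun_prop) (by fun_prop) fun v => (hpos v).ne'
    · rw [norm_mul]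
      refine mul_le_mul_of_nonneg_left ?_ (norm_nonneg _)
      rw [Real.norm_eq_abs, abs_div, abs_of_pos (hpos v), div_le_div_iff₀ (hpos v) (by positivity)]
      have h1 := sq_nonneg (|v| - R)
      have h2 := sq_abs v
      nlinarith
  · refine Integrable.mono' (hi.norm.mul_const (1 / R ^ 2)) ?_
      (Eventually.of_forall fun v => ?_)
    · refine Continuous.aestronglyMeasurable (hw.mul ?_)
      exact Continuous.div (by fun_prop) (by fun_prop) fun v => (hpos v).ne'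
    · rw [norm_mul]
      refine mul_le_mul_of_nonneg_left ?_ (norm_nonneg _)
      rw [Real.norm_eq_abs, abs_of_pos (by have := hpos v; positivity)]
      exact one_div_le_one_div_of_le (by positivity) (by nlinarith [sq_nonneg v])

/-- growth of the Cauchy transform of a positive density -/
theorem D_growth (w : ℝ → ℝ) (hw : Continuous w) (hi : Integrable w) (h0 : ∀ v, 0 ≤ w v)
    (R₁ R₂ : ℝ) (hR : 0 < R₁) (h12 : R₁ ≤ R₂) :
    ‖∫ v : ℝ, (w v : ℂ) / ((v : ℂ) - Complex.I * R₂)‖ ≤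
      5 / 2 * (R₂ / R₁) * ‖∫ v : ℝ, (w v : ℂ) / ((v : ℂ) - Complex.I * R₁)‖ := by
  have hR2 : 0 < R₂ := lt_of_lt_of_le hR h12
  have hsplit : ∀ R : ℝ, 0 < R → ∫ v : ℝ, (w v : ℂ) / ((v : ℂ) - Complex.I * R) =
      ((∫ v : ℝ, w v * (v / (v ^ 2 + R ^ 2)) : ℝ) : ℂ) +
        Complex.I * ((R * ∫ v : ℝ, w v * (1 / (v ^ 2 + R ^ 2)) : ℝ) : ℂ) := by
    intro R hR
    obtain ⟨k1, k2⟩ := D_kb w hw hi R hR
    have e : ∀ v : ℝ, w v * (R / (v ^ 2 + R ^ 2)) = R * (w v * (1 / (v ^ 2 + R ^ 2))) := fun v => by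
      ring
    have k3 : Integrable (fun v : ℝ => w v * (R / (v ^ 2 + R ^ 2))) := by
      simp only [e]
      exact k2.const_mul R
    simp only [D_split _ _ R hR]
    rw [integral_add k1.ofReal (k3.ofReal.const_mul _), integral_complex_ofReal,
      integral_const_mul, integral_complex_ofReal]
    simp only [e]
    rw [integral_const_mul]
  set A : ℝ → ℝ := fun R => ∫ v : ℝ, w v * (v / (v ^ 2 + R ^ 2)) with hA
  set B : ℝ → ℝ := fun R => ∫ v : ℝ, w v * (1 / (v ^ 2 + R ^ 2)) with hB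
  have hB0 : ∀ R : ℝ, 0 < R → 0 ≤ B R := fun R hR => integral_nonneg fun v => by
    have := h0 v
    have h2 : (0 : ℝ) < v ^ 2 + R ^ 2 := by positivity
    positivity
  obtain ⟨a1, b1⟩ := D_kb w hw hi R₁ hR
  obtain ⟨a2, b2⟩ := D_kb w hw hi R₂ hR2
  have hBB : B R₂ ≤ B R₁ := by
    refine integral_mono b2 b1 fun v => ?_
    refine mul_le_mul_of_nonneg_left ?_ (h0 v)
    exact one_div_le_one_div_of_le (by positivity) (by nlinarith)
  have hAA : |A R₂ - A R₁| ≤ R₂ / 2 * B R₁ := by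
    have e1 : A R₂ - A R₁ = ∫ v : ℝ, (w v * (v / (v ^ 2 + R₂ ^ 2)) - w v * (v / (v ^ 2 + R₁ ^ 2))) :=
      (integral_sub a2 a1).symm
    rw [e1, hB, ← integral_const_mul]
    refine (abs_integral_le_integral_abs).trans ?_
    refine integral_mono (a2.sub a1).abs (b1.const_mul _) fun v => ?_
    have p1 : 0 < v ^ 2 + R₁ ^ 2 := by positivity
    have p2 : 0 < v ^ 2 + R₂ ^ 2 := by positivity
    have e2 : w v * (v / (v ^ 2 + R₂ ^ 2)) - w v * (v / (v ^ 2 + R₁ ^ 2)) =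
        -(w v * (v * (R₂ ^ 2 - R₁ ^ 2) / ((v ^ 2 + R₁ ^ 2) * (v ^ 2 + R₂ ^ 2)))) := by
      field_simp
      ring
    show |w v * (v / (v ^ 2 + R₂ ^ 2)) - w v * (v / (v ^ 2 + R₁ ^ 2))| ≤
      R₂ / 2 * (w v * (1 / (v ^ 2 + R₁ ^ 2)))
    rw [e2, abs_neg, abs_mul, abs_of_nonneg (h0 v)]
    have e3 : R₂ / 2 * (w v * (1 / (v ^ 2 + R₁ ^ 2))) = w v * (R₂ / 2 * (1 / (v ^ 2 + R₁ ^ 2))) := by
      ring
    rw [e3]
    refine mul_le_mul_of_nonneg_left ?_ (h0 v)
    have hd : 0 ≤ R₂ ^ 2 - R₁ ^ 2 := by nlinarith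
    rw [abs_div, abs_mul, abs_of_nonneg hd, abs_of_pos (mul_pos p1 p2), mul_one_div,
      div_le_div_iff₀ (mul_pos p1 p2) p1]
    have hv : |v| * (2 * R₂) ≤ v ^ 2 + R₂ ^ 2 := by
      nlinarith [sq_nonneg (|v| - R₂), sq_abs v]
    have hle : |v| * (R₂ ^ 2 - R₁ ^ 2) ≤ R₂ / 2 * (v ^ 2 + R₂ ^ 2) := by
      have h3 : |v| * (R₂ ^ 2 - R₁ ^ 2) ≤ |v| * R₂ ^ 2 :=
        mul_le_mul_of_nonneg_left (by nlinarith) (abs_nonneg v)
      nlinarith
    calc |v| * (R₂ ^ 2 - R₁ ^ 2) * (v ^ 2 + R₁ ^ 2) ≤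
        (R₂ / 2 * (v ^ 2 + R₂ ^ 2)) * (v ^ 2 + R₁ ^ 2) := mul_le_mul_of_nonneg_right hle p1.le
      _ = R₂ / 2 * ((v ^ 2 + R₁ ^ 2) * (v ^ 2 + R₂ ^ 2)) := by ring
  have hre : |A R₁| ≤ ‖∫ v : ℝ, (w v : ℂ) / ((v : ℂ) - Complex.I * R₁)‖ := by
    have h1 := Complex.abs_re_le_norm (∫ v : ℝ, (w v : ℂ) / ((v : ℂ) - Complex.I * R₁))
    rw [hsplit R₁ hR] at h1 ⊢
    simpa using h1
  have him : R₁ * B R₁ ≤ ‖∫ v : ℝ, (w v : ℂ) / ((v : ℂ) - Complex.I * R₁)‖ := by
    have h1 := Complex.abs_im_le_norm (∫ v : ℝ, (w v : ℂ) / ((v : ℂ) - Complex.I * R₁))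
    rw [hsplit R₁ hR] at h1 ⊢
    have h2 : (((A R₁ : ℝ) : ℂ) + Complex.I * ((R₁ * B R₁ : ℝ) : ℂ)).im = R₁ * B R₁ := by
      simp
    have h3 := Complex.abs_im_le_norm (((A R₁ : ℝ) : ℂ) + Complex.I * ((R₁ * B R₁ : ℝ) : ℂ))
    rw [h2] at h3
    exact (le_abs_self _).trans h3
  have hup : ‖∫ v : ℝ, (w v : ℂ) / ((v : ℂ) - Complex.I * R₂)‖ ≤ |A R₂| + R₂ * B R₂ := by
    rw [hsplit R₂ hR2]
    refine (norm_add_le _ _).trans ?_
    rw [norm_mul, Complex.norm_I, one_mul, Complex.norm_real, Complex.norm_real,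
      Real.norm_eq_abs, Real.norm_eq_abs, abs_of_nonneg (mul_nonneg hR2.le (hB0 R₂ hR2))]
  set c := ‖∫ v : ℝ, (w v : ℂ) / ((v : ℂ) - Complex.I * R₁)‖ with hc
  have hc0 : 0 ≤ c := norm_nonneg _
  have h1 : |A R₂| ≤ c + R₂ / 2 * B R₁ := by
    have h2 : |A R₂| ≤ |A R₂ - A R₁| + |A R₁| := by
      have := abs_add_le (A R₂ - A R₁) (A R₁)
      simpa using this
    linarith
  have h3 : R₂ * B R₂ ≤ R₂ * B R₁ := mul_le_mul_of_nonneg_left hBB hR2.le
  have h4 : R₂ * B R₁ ≤ R₂ / R₁ * c := by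
    rw [div_mul_eq_mul_div, le_div_iff₀ hR]
    nlinarith
  have h5 : c ≤ R₂ / R₁ * c := by
    have : 1 ≤ R₂ / R₁ := (one_le_div hR).2 h12
    nlinarith
  linarith

theorem D_multi (t : Multiset ℝ) (g₁ g₂ : ℝ → ℝ) (a : ℝ) (ha : 0 ≤ a) (h1 : ∀ r, 0 ≤ g₁ r)
    (h2 : ∀ r ∈ t, a * g₁ r ≤ g₂ r) :
    a ^ Multiset.card t * (t.map g₁).prod ≤ (t.map g₂).prod := by
  induction t using Multiset.induction_on with
  | empty => simp
  | cons r t ih =>
    have h3 := ih fun r' hr' => h2 r' (Multiset.mem_cons_of_mem hr')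
    have h4 := h2 r (Multiset.mem_cons_self r t)
    rw [Multiset.card_cons, Multiset.map_cons, Multiset.map_cons, Multiset.prod_cons,
      Multiset.prod_cons]
    have h5 : 0 ≤ (t.map g₁).prod := Multiset.prod_nonneg fun x hx => by
      obtain ⟨y, -, rfl⟩ := Multiset.mem_map.1 hx
      exact h1 y
    calc a ^ (Multiset.card t + 1) * (g₁ r * (t.map g₁).prod) =
        (a * g₁ r) * (a ^ Multiset.card t * (t.map g₁).prod) := by ring
      _ ≤ g₂ r * (t.map g₂).prod := by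
        refine mul_le_mul h4 h3 (by positivity) ?_
        exact le_trans (mul_nonneg ha (h1 r)) h4

theorem D_normprod (s : Multiset ℝ) (z : ℂ) :
    ‖(s.map (fun r : ℝ => z - (r : ℂ))).prod‖ = (s.map (fun r : ℝ => ‖z - (r : ℂ)‖)).prod := by
  have h := map_multiset_prod (normHom : ℂ →*₀ ℝ) (s.map (fun r : ℝ => z - (r : ℂ)))
  rw [Multiset.map_map] at h
  exact h

theorem D_nsq (R r : ℝ) : ‖Complex.I * (R : ℂ) - (r : ℂ)‖ = √(r ^ 2 + R ^ 2) := by
  rw [Complex.norm_def, Complex.normSq_apply]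
  congr 1
  simp
  ring

/-! END -/

/-- TARGET -/
theorem core (f : ℝ → ℝ) (k : ℕ) (hf : Continuous f)
    (hint : ∀ p : ℝ[X], Integrable (fun v => f v * p.eval v))
    (hmom : ∀ p : ℝ[X], p.natDegree < k → ∫ v, f v * p.eval v = 0)
    (s : Multiset ℝ) (hs : Multiset.card s = k) (σ : ℝ) (hσ : σ = 1 ∨ σ = -1)
    (hsign : ∀ v, 0 ≤ σ * f v * (s.map (fun r => v - r)).prod)
    (R₁ R₂ : ℝ) (h0 : 0 < R₁) (h12 : R₁ ≤ R₂)
    (t : Multiset ℝ) (ht : t ≤ s) (htR : ∀ r ∈ t, |r| ≤ R₁) :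
    (R₂ / (√2 * R₁)) ^ Multiset.card t * ‖∫ v : ℝ, (f v : ℂ) / ((v : ℂ) - Complex.I * R₂)‖ ≤
      5 / 2 * (R₂ / R₁) * ‖∫ v : ℝ, (f v : ℂ) / ((v : ℂ) - Complex.I * R₁)‖ := by
  have hR2 : 0 < R₂ := lt_of_lt_of_le h0 h12
  have hwe : ∀ v, σ * f v * (s.map (fun r => v - r)).prod =
      f v * (C σ * (s.map (fun r => X - C r)).prod : ℝ[X]).eval v := by
    intro v
    rw [eval_mul, eval_C, D_evalR]
    ring
  have hwi : Integrable (fun v => σ * f v * (s.map (fun r => v - r)).prod) := by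
    simp only [hwe]
    exact hint _
  have hwc : Continuous (fun v => σ * f v * (s.map (fun r => v - r)).prod) := by
    simp only [hwe]
    exact hf.mul (Polynomial.continuous _)
  have hg := D_growth _ hwc hwi hsign R₁ R₂ h0 h12
  rw [D_key f k hf hint hmom s hs σ R₁ h0, D_key f k hf hint hmom s hs σ R₂ hR2] at hg
  have hσ1 : ‖(σ : ℂ)‖ = 1 := by
    rcases hσ with rfl | rfl <;> simp
  rw [norm_mul, norm_mul, norm_mul, norm_mul, hσ1, one_mul, one_mul, D_normprod, D_normprod] at hg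
  simp only [D_nsq] at hg
  set H₁ := ‖∫ v : ℝ, (f v : ℂ) / ((v : ℂ) - Complex.I * R₁)‖ with hH1
  set H₂ := ‖∫ v : ℝ, (f v : ℂ) / ((v : ℂ) - Complex.I * R₂)‖ with hH2
  have hH20 : 0 ≤ H₂ := norm_nonneg _
  have hs2 : (0 : ℝ) < √2 := by positivity
  set a : ℝ := R₂ / (√2 * R₁) with ha
  have ha0 : 0 ≤ a := by positivity
  have hp1 : 0 < (s.map (fun r => √(r ^ 2 + R₁ ^ 2))).prod := by
    refine Multiset.prod_pos fun x hx => ?_
    obtain ⟨y, -, rfl⟩ := Multiset.mem_map.1 hx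
    positivity
  have hprod : a ^ Multiset.card t * (s.map (fun r => √(r ^ 2 + R₁ ^ 2))).prod ≤
      (s.map (fun r => √(r ^ 2 + R₂ ^ 2))).prod := by
    have hst : t + (s - t) = s := add_tsub_cancel_of_le ht
    have e1 := D_multi t (fun r => √(r ^ 2 + R₁ ^ 2)) (fun r => √(r ^ 2 + R₂ ^ 2)) a ha0
      (fun r => Real.sqrt_nonneg _) (fun r hr => by
        have h1 : √(r ^ 2 + R₁ ^ 2) ≤ √2 * R₁ := by
          rw [Real.sqrt_le_left (by positivity), mul_pow, Real.sq_sqrt (by norm_num)]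
          have h2 := htR r hr
          have h3 : r ^ 2 ≤ R₁ ^ 2 := by
            rw [← sq_abs r]
            exact pow_le_pow_left₀ (abs_nonneg r) h2 2
          linarith
        have h2 : R₂ ≤ √(r ^ 2 + R₂ ^ 2) := by
          rw [Real.le_sqrt' hR2]
          nlinarith [sq_nonneg r]
        calc a * √(r ^ 2 + R₁ ^ 2) ≤ a * (√2 * R₁) := mul_le_mul_of_nonneg_left h1 ha0
          _ = R₂ := by rw [ha]; field_simp
          _ ≤ _ := h2)
    have e2 := D_multi (s - t) (fun r => √(r ^ 2 + R₁ ^ 2)) (fun r => √(r ^ 2 + R₂ ^ 2)) 1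
      zero_le_one (fun r => Real.sqrt_nonneg _) (fun r _ => by
        rw [one_mul]
        exact Real.sqrt_le_sqrt (by nlinarith))
    rw [one_pow, one_mul] at e2
    have e3 : (s.map (fun r => √(r ^ 2 + R₁ ^ 2))).prod =
        (t.map (fun r => √(r ^ 2 + R₁ ^ 2))).prod * ((s - t).map (fun r => √(r ^ 2 + R₁ ^ 2))).prod := by
      rw [← Multiset.prod_add, ← Multiset.map_add, hst]
    have e4 : (s.map (fun r => √(r ^ 2 + R₂ ^ 2))).prod =
        (t.map (fun r => √(r ^ 2 + R₂ ^ 2))).prod * ((s - t).map (fun r => √(r ^ 2 + R₂ ^ 2))).prod := by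
      rw [← Multiset.prod_add, ← Multiset.map_add, hst]
    rw [e3, e4, ← mul_assoc]
    refine mul_le_mul e1 e2 ?_ ?_
    · refine Multiset.prod_nonneg fun x hx => ?_
      obtain ⟨y, -, rfl⟩ := Multiset.mem_map.1 hx
      exact Real.sqrt_nonneg _
    · refine Multiset.prod_nonneg fun x hx => ?_
      obtain ⟨y, -, rfl⟩ := Multiset.mem_map.1 hx
      exact Real.sqrt_nonneg _
  set P₁ := (s.map (fun r => √(r ^ 2 + R₁ ^ 2))).prod with hP1
  set P₂ := (s.map (fun r => √(r ^ 2 + R₂ ^ 2))).prod with hP2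
  have hfin : (a ^ Multiset.card t * H₂) * P₁ ≤ (5 / 2 * (R₂ / R₁) * H₁) * P₁ := by
    calc (a ^ Multiset.card t * H₂) * P₁ = (a ^ Multiset.card t * P₁) * H₂ := by ring
      _ ≤ P₂ * H₂ := mul_le_mul_of_nonneg_right hprod hH20
      _ ≤ 5 / 2 * (R₂ / R₁) * (P₁ * H₁) := hg
      _ = _ := by ring
  exact le_of_mul_le_mul_right hfin hp1

end Pool.Agent.Helper791.Cyc
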