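import Mathlib

/-!
# Real critical points of cyclotomic polynomials: definitions

`q i` is the `i`-th odd prime (`q 0 = 3`), `m k = q 0 * ... * q (k-1)`.
With `x = -exp (-exp v)` the logarithmic derivative of the cyclotomic polynomial of index `m k` is,
up to the sign `(-1)^k`, the iterated difference `h k` of the function `base`; with `x = exp (-exp v)`
it is the iterated difference `hp k` of `baseP`.
-/

set_option autoImplicit false

namespace Pool.Agent.Helper791.Cyc

/-- the `i`-th odd prime: `q 0 = 3`, `q 1 = 5`, ... -/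
noncomputable def q (i : ℕ) : ℕ := Nat.nth Nat.Prime (i + 1)

/-- `m k = q 0 * ... * q (k-1)`, the product of the `k` smallest odd primes -/
noncomputable def m (k : ℕ) : ℕ := ∏ i ∈ Finset.range k, q i

/-- iterated differences of `F` with the steps `log (q 0), ..., log (q (k-1))` -/
noncomputable def it (F : ℝ → ℝ) : ℕ → ℝ → ℝ
  | 0 => F
  | k + 1 => fun v => it F k v - it F k (v + Real.log (q k))

/-- `t / (e^t + 1)` at `t = e^v` -/
noncomputable def base (v : ℝ) : ℝ := Real.exp v / (Real.exp (Real.exp v) + 1)

/-- `t / (e^t - 1)` at `t = e^v` -/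
noncomputable def baseP (v : ℝ) : ℝ := Real.exp v / (Real.exp (Real.exp v) - 1)

/-- iterated differences of `base` -/
noncomputable def h (k : ℕ) : ℝ → ℝ := it base k

/-- iterated differences of `baseP` -/
noncomputable def hp (k : ℕ) : ℝ → ℝ := it baseP k

/-- the bilateral Laplace transform of `base` -/
noncomputable def c (w : ℂ) : ℂ := ∫ v : ℝ, (base v : ℂ) * Complex.exp (w * v)

/-- the bilateral Laplace transform of `h k` -/
noncomputable def M (k : ℕ) (w : ℂ) : ℂ := c w * ∏ i ∈ Finset.range k, (1 - (q i : ℂ) ^ (-w))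

/-- the Cauchy transform of `h k` at `i R` -/
noncomputable def H (k : ℕ) (R : ℝ) : ℂ := ∫ v : ℝ, (h k v : ℂ) / ((v : ℂ) - Complex.I * R)

end Pool.Agent.Helper791.Cyc
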