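import Pool.Agent.Helper791_Cyc.Defs

set_option autoImplicit false

namespace Pool.Agent.Helper791.Cyc

open MeasureTheory Filter Topology Polynomial



theorem E1_base_nonneg (v : ℝ) : 0 ≤ base v := by
  unfold base
  positivity

theorem E1_base_cont : Continuous base := by
  unfold base
  refine Continuous.div (by fun_prop) (by fun_prop) ?_
  intro v
  positivity

theorem E1_base_le (v : ℝ) : base v ≤ Real.exp v := by
  unfold base
  have h1 : 0 < Real.exp v := Real.exp_pos v
  have h2 : 0 < Real.exp (Real.exp v) := Real.exp_pos _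
  rw [div_le_iff₀ (by positivity)]
  nlinarith

theorem E1_base_le' (N : ℕ) (v : ℝ) :
    base v ≤ (N.factorial : ℝ) * Real.exp ((1 - N) * v) := by
  unfold base
  have h1 : 0 < Real.exp v := Real.exp_pos v
  have h2 : 0 < Real.exp (Real.exp v) := Real.exp_pos _
  have h3 := Real.pow_div_factorial_le_exp _ h1.le N
  have hf : (0 : ℝ) < N.factorial := by exact_mod_cast N.factorial_pos
  have h4 : Real.exp ((1 - N) * v) * Real.exp v ^ N = Real.exp v := by
    rw [← Real.exp_nat_mul, ← Real.exp_add]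
    ring_nf
  rw [div_le_iff₀ (by positivity)]
  rw [div_le_iff₀ hf] at h3
  have h5 : 0 < Real.exp ((1 - N) * v) := Real.exp_pos _
  calc Real.exp v = Real.exp ((1 - N) * v) * Real.exp v ^ N := h4.symm
    _ ≤ Real.exp ((1 - N) * v) * (Real.exp (Real.exp v) * N.factorial) := by
        exact mul_le_mul_of_nonneg_left h3 h5.le
    _ ≤ N.factorial * Real.exp ((1 - N) * v) * (Real.exp (Real.exp v) + 1) := by
        have : 0 < (N.factorial : ℝ) * Real.exp ((1 - N) * v) := by positivity
        nlinarith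

theorem E1_int_real (σ : ℝ) (hσ : -1 < σ) :
    Integrable (fun v : ℝ => base v * Real.exp (σ * v)) := by
  have hc : Continuous (fun v : ℝ => base v * Real.exp (σ * v)) :=
    E1_base_cont.mul (by fun_prop)
  obtain ⟨N, hN⟩ := exists_nat_gt (2 + σ)
  rw [← integrableOn_univ, ← Set.Iic_union_Ioi (a := (0 : ℝ))]
  apply IntegrableOn.union
  · have h1 := integrableOn_exp_mul_Iic (a := 1 + σ) (by linarith) 0
    refine Integrable.mono' h1 hc.aestronglyMeasurable ?_
    filter_upwards with v
    rw [Real.norm_of_nonneg (mul_nonneg (E1_base_nonneg v) (Real.exp_pos _).le)]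
    calc base v * Real.exp (σ * v) ≤ Real.exp v * Real.exp (σ * v) :=
          mul_le_mul_of_nonneg_right (E1_base_le v) (Real.exp_pos _).le
      _ = Real.exp ((1 + σ) * v) := by rw [← Real.exp_add]; ring_nf
  · have h1 := (integrableOn_exp_mul_Ioi (a := -1) (by norm_num) 0).const_mul (N.factorial : ℝ)
    refine Integrable.mono' h1 hc.aestronglyMeasurable ?_
    filter_upwards [ae_restrict_mem measurableSet_Ioi] with v hv
    have hv' : 0 < v := hv
    rw [Real.norm_of_nonneg (mul_nonneg (E1_base_nonneg v) (Real.exp_pos _).le)]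
    have hf : (0 : ℝ) < N.factorial := by exact_mod_cast N.factorial_pos
    calc base v * Real.exp (σ * v)
        ≤ (N.factorial : ℝ) * Real.exp ((1 - N) * v) * Real.exp (σ * v) :=
          mul_le_mul_of_nonneg_right (E1_base_le' N v) (Real.exp_pos _).le
      _ = (N.factorial : ℝ) * Real.exp ((1 + σ - N) * v) := by
          rw [mul_assoc, ← Real.exp_add]; ring_nf
      _ ≤ (N.factorial : ℝ) * Real.exp (-1 * v) := by
          apply mul_le_mul_of_nonneg_left _ hf.le
          apply Real.exp_le_exp.mpr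
          nlinarith

theorem E1_norm (w : ℂ) (v : ℝ) :
    ‖(base v : ℂ) * Complex.exp (w * v)‖ = base v * Real.exp (w.re * v) := by
  rw [norm_mul, Complex.norm_exp, Complex.norm_real, Real.norm_of_nonneg (E1_base_nonneg v)]
  simp

theorem E1_c_int (w : ℂ) (hw : -1 < w.re) :
    Integrable (fun v : ℝ => (base v : ℂ) * Complex.exp (w * v)) := by
  have hc : Continuous (fun v : ℝ => (base v : ℂ) * Complex.exp (w * v)) := by
    have := E1_base_cont
    fun_prop
  rw [← integrable_norm_iff hc.aestronglyMeasurable]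
  simp_rw [E1_norm]
  exact E1_int_real w.re hw

theorem E1_shift (F : ℝ → ℝ) (w : ℂ) (a : ℝ) :
    (fun v : ℝ => (F (v + a) : ℂ) * Complex.exp (w * v)) =
      fun v : ℝ => Complex.exp (-(w * a)) * ((F (v + a) : ℂ) * Complex.exp (w * ((v + a : ℝ) : ℂ))) := by
  funext v
  have : Complex.exp (w * v) = Complex.exp (-(w * a)) * Complex.exp (w * ((v + a : ℝ) : ℂ)) := by
    rw [← Complex.exp_add]
    push_cast
    ring_nf
  rw [this]
  ring

theorem E1_shift_int (F : ℝ → ℝ) (w : ℂ) (a : ℝ)
    (hF : Integrable (fun v : ℝ => (F v : ℂ) * Complex.exp (w * v))) :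
    Integrable (fun v : ℝ => (F (v + a) : ℂ) * Complex.exp (w * v)) := by
  rw [E1_shift]
  exact (hF.comp_add_right a).const_mul _

theorem E1_shift_eq (F : ℝ → ℝ) (w : ℂ) (a : ℝ) :
    ∫ v : ℝ, (F (v + a) : ℂ) * Complex.exp (w * v) =
      Complex.exp (-(w * a)) * ∫ v : ℝ, (F v : ℂ) * Complex.exp (w * v) := by
  rw [E1_shift, integral_const_mul]
  congr 1
  exact integral_add_right_eq_self (fun v : ℝ => (F v : ℂ) * Complex.exp (w * v)) a

theorem E1_h_succ (k : ℕ) (w : ℂ) :
    (fun v : ℝ => (h (k + 1) v : ℂ) * Complex.exp (w * v)) =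
      fun v : ℝ => (h k v : ℂ) * Complex.exp (w * v) -
        (h k (v + Real.log (q k)) : ℂ) * Complex.exp (w * v) := by
  funext v
  have : h (k + 1) v = h k v - h k (v + Real.log (q k)) := rfl
  rw [this]
  push_cast
  ring

theorem E1_M_int (k : ℕ) (w : ℂ) (hw : -1 < w.re) :
    Integrable (fun v : ℝ => (h k v : ℂ) * Complex.exp (w * v)) := by
  induction k with
  | zero => exact E1_c_int w hw
  | succ k ih =>
    rw [E1_h_succ]
    exact ih.sub (E1_shift_int (h k) w _ ih)

theorem E1_q_pos (k : ℕ) : 0 < q k := by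
  have : (q k).Prime := Nat.prime_nth_prime (k + 1)
  exact this.pos

theorem E1_real (σ : ℝ) : c (σ : ℂ) = ((∫ v : ℝ, base v * Real.exp (σ * v) : ℝ) : ℂ) := by
  unfold c
  rw [← integral_complex_ofReal]
  congr 1
  funext v
  push_cast
  rfl

theorem E1_real_norm (σ : ℝ) : ‖c (σ : ℂ)‖ = ∫ v : ℝ, base v * Real.exp (σ * v) := by
  rw [E1_real, Complex.norm_real, Real.norm_of_nonneg]
  apply integral_nonneg
  intro v
  exact mul_nonneg (E1_base_nonneg v) (Real.exp_pos _).le

/-! END -/

/-- TARGET -/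
theorem c_int (w : ℂ) (hw : -1 < w.re) :
    Integrable (fun v : ℝ => (base v : ℂ) * Complex.exp (w * v)) := E1_c_int w hw

/-- TARGET -/
theorem M_int (k : ℕ) (w : ℂ) (hw : -1 < w.re) :
    Integrable (fun v : ℝ => (h k v : ℂ) * Complex.exp (w * v)) := E1_M_int k w hw

/-- TARGET -/
theorem M_eq (k : ℕ) (w : ℂ) (hw : -1 < w.re) :
    ∫ v : ℝ, (h k v : ℂ) * Complex.exp (w * v) = M k w := by
  induction k with
  | zero => simp [M, c, h, it]
  | succ k ih =>
    rw [E1_h_succ, integral_sub (E1_M_int k w hw) (E1_shift_int (h k) w _ (E1_M_int k w hw)),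
      E1_shift_eq, ih]
    have hq : (q k : ℂ) ^ (-w) = Complex.exp (-(w * (Real.log (q k) : ℝ))) := by
      have h0 : (q k : ℂ) ≠ 0 := by exact_mod_cast (E1_q_pos k).ne'
      rw [Complex.cpow_def_of_ne_zero h0, Complex.ofReal_log (by positivity)]
      push_cast
      ring_nf
    unfold M
    rw [Finset.prod_range_succ, hq]
    ring

/-- TARGET -/
theorem c_norm_le (w : ℂ) (hw : -1 < w.re) : ‖c w‖ ≤ ‖c (w.re : ℂ)‖ := by
  rw [E1_real_norm]
  unfold c
  refine (norm_integral_le_integral_norm _).trans (le_of_eq ?_)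
  congr 1
  funext v
  exact E1_norm w v

/-- TARGET -/
theorem c_bdd : ∃ C : ℝ, ∀ σ : ℝ, 0 ≤ σ → σ ≤ 2 → ‖c (σ : ℂ)‖ ≤ C := by
  refine ⟨∫ v : ℝ, (base v * Real.exp (0 * v) + base v * Real.exp (2 * v)), ?_⟩
  intro σ h0 h2
  rw [E1_real_norm]
  apply integral_mono (E1_int_real σ (by linarith))
    ((E1_int_real 0 (by norm_num)).add (E1_int_real 2 (by norm_num)))
  intro v
  have hb := E1_base_nonneg v
  have h1 : Real.exp (σ * v) ≤ Real.exp (0 * v) + Real.exp (2 * v) := by
    rcases le_total v 0 with hv | hv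
    · have : Real.exp (σ * v) ≤ Real.exp (0 * v) := by
        apply Real.exp_le_exp.mpr
        nlinarith
      have := Real.exp_pos (2 * v)
      linarith
    · have : Real.exp (σ * v) ≤ Real.exp (2 * v) := by
        apply Real.exp_le_exp.mpr
        nlinarith
      have := Real.exp_pos (0 * v)
      linarith
  show base v * Real.exp (σ * v) ≤ base v * Real.exp (0 * v) + base v * Real.exp (2 * v)
  rw [← mul_add]
  exact mul_le_mul_of_nonneg_left h1 hb

end Pool.Agent.Helper791.Cyc
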