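import Pool.Agent.Helper791_Cyc.Defs
import Pool.Agent.Helper791_Cyc.E1

set_option autoImplicit false

namespace Pool.Agent.Helper791.Cyc

open MeasureTheory Filter Topology Polynomial



section E2
open Set

/-- fractional part cut off at `1` -/
noncomputable def E2_fr (t : ℝ) : ℂ := (Ioi (1:ℝ)).indicator (fun t => ((Int.fract t : ℝ) : ℂ)) t

lemma E2_fr_measurable : Measurable E2_fr := by
  unfold E2_fr
  refine Measurable.indicator ?_ measurableSet_Ioi
  exact Complex.measurable_ofReal.comp measurable_fract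

lemma E2_fr_norm_le (t : ℝ) : ‖E2_fr t‖ ≤ 1 := by
  unfold E2_fr
  by_cases ht : t ∈ Ioi (1:ℝ)
  · rw [indicator_of_mem ht, Complex.norm_real, Real.norm_of_nonneg (Int.fract_nonneg t)]
    exact (Int.fract_lt_one t).le
  · rw [indicator_of_notMem ht, norm_zero]
    exact zero_le_one

/-- `∫_1^∞ {t} t^(-s-1) dt` as a Mellin transform -/
noncomputable def E2_Hf (s : ℂ) : ℂ := mellin E2_fr (-s)

lemma E2_Hf_differentiableAt {s : ℂ} (hs : 0 < s.re) : DifferentiableAt ℂ E2_Hf s := by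
  have h1 : DifferentiableAt ℂ (mellin E2_fr) (-s) := by
    refine mellin_differentiableAt_of_isBigO_rpow (a := 0) (b := -s.re - 1) ?_ ?_ ?_ ?_ ?_
    · refine LocallyIntegrable.locallyIntegrableOn ?_ _
      refine LocallyIntegrable.mono (locallyIntegrable_const (1:ℝ)) E2_fr_measurable.aestronglyMeasurable ?_
      refine Eventually.of_forall fun t => ?_
      rw [norm_one]
      exact E2_fr_norm_le t
    · refine Asymptotics.IsBigO.of_bound 1 (Eventually.of_forall fun t => ?_)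
      simp only [neg_zero, Real.rpow_zero, norm_one, mul_one]
      exact E2_fr_norm_le t
    · simpa using hs
    · refine Asymptotics.IsBigO.of_bound 1 ?_
      have h2 : ∀ᶠ t : ℝ in 𝓝[>] 0, t < 1 := nhdsWithin_le_nhds (Iio_mem_nhds one_pos)
      filter_upwards [h2] with t ht
      have : E2_fr t = 0 := by
        unfold E2_fr
        rw [indicator_of_notMem]
        simp only [mem_Ioi, not_lt]
        exact ht.le
      rw [this, norm_zero]
      positivity
    · simp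
  exact h1.comp s differentiableAt_id.neg

lemma E2_Hf_eq (s : ℂ) : E2_Hf s = ∫ t in Ioi (1:ℝ), ((Int.fract t : ℝ) : ℂ) * (t : ℂ) ^ (-(s + 1)) := by
  unfold E2_Hf mellin
  have hsub : Ioi (1:ℝ) ⊆ Ioi 0 := Ioi_subset_Ioi zero_le_one
  have h1 : ∀ t : ℝ, (t : ℂ) ^ (-s - 1) • E2_fr t =
      (Ioi (1:ℝ)).indicator (fun t => ((Int.fract t : ℝ) : ℂ) * (t : ℂ) ^ (-(s + 1))) t := by
    intro t
    unfold E2_fr
    by_cases ht : t ∈ Ioi (1:ℝ)
    · rw [indicator_of_mem ht, indicator_of_mem ht, smul_eq_mul, mul_comm]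
      congr 2
      ring
    · rw [indicator_of_notMem ht, indicator_of_notMem ht, smul_zero]
  simp_rw [h1]
  rw [setIntegral_indicator measurableSet_Ioi, inter_eq_self_of_subset_right hsub]

lemma E2_Hf_norm_le {s : ℂ} (hs : 0 < s.re) : ‖E2_Hf s‖ ≤ 1 / s.re := by
  rw [E2_Hf_eq]
  have h1 : ∫ t in Ioi (1:ℝ), t ^ (-s.re - 1) = 1 / s.re := by
    rw [integral_Ioi_rpow_of_lt (by linarith) one_pos]
    rw [Real.one_rpow]
    have : -s.re - 1 + 1 = -s.re := by ring
    rw [this, neg_div_neg_eq]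
  rw [← h1]
  refine norm_integral_le_of_norm_le (integrableOn_Ioi_rpow_of_lt (by linarith) one_pos) ?_
  refine (ae_restrict_mem measurableSet_Ioi).mono fun t ht => ?_
  have ht' : (1:ℝ) < t := ht
  have ht0 : 0 < t := by linarith
  rw [norm_mul, Complex.norm_real, Real.norm_of_nonneg (Int.fract_nonneg t),
    Complex.norm_cpow_eq_rpow_re_of_pos ht0]
  have h2 : (-(s + 1)).re = -s.re - 1 := by simp; ring
  rw [h2]
  have h3 : 0 ≤ t ^ (-s.re - 1) := (Real.rpow_pos_of_pos ht0 _).le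
  have h4 := (Int.fract_lt_one t).le
  calc Int.fract t * t ^ (-s.re - 1) ≤ 1 * t ^ (-s.re - 1) := mul_le_mul_of_nonneg_right h4 h3
    _ = _ := one_mul _

/-- `(s-1)ζ(s)` on `Re s > 0` -/
noncomputable def E2_Zt (s : ℂ) : ℂ := s - s * (s - 1) * E2_Hf s

lemma E2_zeta_eq {s : ℂ} (hs : 1 < s.re) : (s - 1) * riemannZeta s = E2_Zt s := by
  have hs0 : 0 < s.re := by linarith
  have hO : (fun n => ∑ k ∈ Finset.Icc 1 n, (fun _ : ℕ => (1:ℝ)) k) =O[atTop]
      fun n : ℕ => (n : ℝ) ^ (1:ℝ) := by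
    refine Asymptotics.IsBigO.of_bound 1 (Eventually.of_forall fun n => ?_)
    simp
  have hL := LSeries_eq_mul_integral_of_nonneg (fun _ : ℕ => (1:ℝ)) (r := 1) zero_le_one hs hO
    (fun _ => zero_le_one)
  have hL1 : LSeries (fun n : ℕ => (((fun _ : ℕ => (1:ℝ)) n : ℝ) : ℂ)) s = riemannZeta s := by
    rw [← LSeries_one_eq_riemannZeta hs]
    congr 1
  rw [hL1] at hL
  have hi1 : IntegrableOn (fun t : ℝ => (t : ℂ) ^ (-s)) (Ioi 1) :=
    integrableOn_Ioi_cpow_of_lt (by simpa using hs) one_pos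
  have hi2 : IntegrableOn (fun t : ℝ => ((Int.fract t : ℝ) : ℂ) * (t : ℂ) ^ (-(s + 1))) (Ioi 1) := by
    refine Integrable.mono' (g := fun t : ℝ => t ^ (-s.re - 1))
      (integrableOn_Ioi_rpow_of_lt (by linarith) one_pos) ?_ ?_
    · refine AEStronglyMeasurable.mul ?_ ?_
      · exact (Complex.measurable_ofReal.comp measurable_fract).aestronglyMeasurable
      · refine ContinuousOn.aestronglyMeasurable ?_ measurableSet_Ioi
        intro t ht
        have ht' : (1:ℝ) < t := ht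
        refine ContinuousAt.continuousWithinAt ?_
        exact (Complex.continuousAt_ofReal_cpow_const _ _ (Or.inr (by linarith)))
    · refine (ae_restrict_mem measurableSet_Ioi).mono fun t ht => ?_
      have ht' : (1:ℝ) < t := ht
      have ht0 : 0 < t := by linarith
      rw [norm_mul, Complex.norm_real, Real.norm_of_nonneg (Int.fract_nonneg t),
        Complex.norm_cpow_eq_rpow_re_of_pos ht0]
      have h2 : (-(s + 1)).re = -s.re - 1 := by simp; ring
      rw [h2]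
      have h3 : 0 ≤ t ^ (-s.re - 1) := (Real.rpow_pos_of_pos ht0 _).le
      have h4 := (Int.fract_lt_one t).le
      calc Int.fract t * t ^ (-s.re - 1) ≤ 1 * t ^ (-s.re - 1) := mul_le_mul_of_nonneg_right h4 h3
        _ = _ := one_mul _
  have hint : ∫ t in Ioi (1:ℝ), (∑ k ∈ Finset.Icc 1 ⌊t⌋₊, (((fun _ : ℕ => (1:ℝ)) k : ℝ) : ℂ)) *
      (t : ℂ) ^ (-(s + 1)) = 1 / (s - 1) - E2_Hf s := by
    have h1 : ∫ t in Ioi (1:ℝ), (t : ℂ) ^ (-s) = 1 / (s - 1) := by
      rw [integral_Ioi_cpow_of_lt (by simpa using hs) one_pos]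
      rw [Complex.ofReal_one, Complex.one_cpow]
      have : -s + 1 = -(s - 1) := by ring
      rw [this, neg_div_neg_eq]
    rw [← h1, E2_Hf_eq, ← integral_sub hi1 hi2]
    refine setIntegral_congr_fun measurableSet_Ioi fun t ht => ?_
    have ht' : (1:ℝ) < t := ht
    have ht0 : 0 < t := by linarith
    simp only [Complex.ofReal_one, Finset.sum_const, Nat.card_Icc, add_tsub_cancel_right,
      nsmul_eq_mul, mul_one]
    have e1 : (t : ℂ) ^ (-s) = (t : ℂ) * (t : ℂ) ^ (-(s + 1)) := by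
      have htc : (t : ℂ) ≠ 0 := by exact_mod_cast ht0.ne'
      have e3 : -s = 1 + -(s + 1) := by ring
      rw [e3, Complex.cpow_add _ _ htc, Complex.cpow_one]
    have e2 : ((⌊t⌋₊ : ℕ) : ℂ) = (t : ℂ) - ((Int.fract t : ℝ) : ℂ) := by
      have : ((⌊t⌋₊ : ℕ) : ℝ) = t - Int.fract t := by
        rw [natCast_floor_eq_intCast_floor ht0.le]
        rw [Int.fract]
        ring
      rw [← Complex.ofReal_natCast, this]
      push_cast
      ring
    rw [e1, e2]
    ring
  rw [hint] at hL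
  have hs1 : s - 1 ≠ 0 := by
    intro h
    have : (s - 1).re = 0 := by rw [h]; simp
    simp at this
    linarith
  rw [hL]
  unfold E2_Zt
  field_simp

lemma E2_Zt_differentiableAt {s : ℂ} (hs : 0 < s.re) : DifferentiableAt ℂ E2_Zt s := by
  unfold E2_Zt
  have h := E2_Hf_differentiableAt hs
  fun_prop

lemma E2_Zt_analyticOn : AnalyticOnNhd ℂ E2_Zt {s | 0 < s.re} :=
  DifferentiableOn.analyticOnNhd (fun _ hs => (E2_Zt_differentiableAt hs).differentiableWithinAt)
    (isOpen_lt continuous_const Complex.continuous_re)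

/-- representation of `(s-1) ζ(s)` in the right half plane -/
lemma E2_z1_eq {s : ℂ} (hs : 0 < s.re) : riemannZeta₁ s = E2_Zt s := by
  have hconv : Convex ℝ {s : ℂ | 0 < s.re} := convex_halfSpace_re_gt 0
  have hpre : IsPreconnected {s : ℂ | 0 < s.re} := hconv.isPreconnected
  have h1 : AnalyticOnNhd ℂ riemannZeta₁ {s : ℂ | 0 < s.re} :=
    fun z _ => differentiable_riemannZeta₁.analyticAt z
  have h2 : riemannZeta₁ =ᶠ[𝓝 (2:ℂ)] E2_Zt := by
    have hop : IsOpen {s : ℂ | 1 < s.re} := isOpen_lt continuous_const Complex.continuous_re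
    filter_upwards [hop.mem_nhds (show (2:ℂ) ∈ {s : ℂ | 1 < s.re} by simp)] with z hz
    rw [← E2_zeta_eq hz]
    have hz1 : z ≠ 1 := by
      rintro rfl
      simp at hz
    rw [riemannZeta_eq_inv_sub_mul hz1, mul_inv_cancel_left₀ (sub_ne_zero.2 hz1)]
  exact h1.eqOn_of_preconnected_of_eventuallyEq E2_Zt_analyticOn hpre (by simp) h2 hs

lemma E2_z1_norm_le {s : ℂ} (hs : 1 / 2 ≤ s.re) : ‖riemannZeta₁ s‖ ≤ 3 * (‖s‖ + 1) ^ 2 := by
  have hs0 : 0 < s.re := by linarith
  rw [E2_z1_eq hs0]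
  have h1 := E2_Hf_norm_le hs0
  have h2 : 1 / s.re ≤ 2 := by
    rw [div_le_iff₀ hs0]; linarith
  have h3 : ‖s - 1‖ ≤ ‖s‖ + 1 := by
    have := norm_sub_le s 1
    rwa [norm_one] at this
  unfold E2_Zt
  calc ‖s - s * (s - 1) * E2_Hf s‖ ≤ ‖s‖ + ‖s * (s - 1) * E2_Hf s‖ := norm_sub_le _ _
    _ = ‖s‖ + ‖s‖ * ‖s - 1‖ * ‖E2_Hf s‖ := by rw [norm_mul, norm_mul]
    _ ≤ ‖s‖ + ‖s‖ * (‖s‖ + 1) * 2 := by gcongr; exact h1.trans h2
    _ ≤ 3 * (‖s‖ + 1) ^ 2 := by nlinarith [norm_nonneg s]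

lemma E2_z1_of_ne {s : ℂ} (hs : s ≠ 1) : riemannZeta₁ s = (s - 1) * riemannZeta s := by
  rw [riemannZeta_eq_inv_sub_mul hs, mul_inv_cancel_left₀ (sub_ne_zero.2 hs)]

lemma E2_z1_zero_re {s : ℂ} (h : riemannZeta₁ s = 0) : s.re < 1 := by
  have hs1 : s ≠ 1 := by
    rintro rfl
    simp at h
  rw [E2_z1_of_ne hs1] at h
  rcases mul_eq_zero.1 h with h | h
  · exact absurd (sub_eq_zero.1 h) hs1
  · by_contra hc
    push Not at hc
    exact riemannZeta_ne_zero_of_one_le_re hc h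

lemma E2_z1_zero_zeta {s : ℂ} (h : riemannZeta₁ s = 0) : riemannZeta s = 0 := by
  have hs1 : s ≠ 1 := by
    rintro rfl
    simp at h
  rw [E2_z1_of_ne hs1] at h
  rcases mul_eq_zero.1 h with h | h
  · exact absurd (sub_eq_zero.1 h) hs1
  · exact h

/-- no real zeros in `(0,1)` -/
lemma E2_z1_zero_im {s : ℂ} (hs : 0 < s.re) (h : riemannZeta₁ s = 0) : s.im ≠ 0 := by
  intro him
  have h1 := E2_z1_zero_re h
  have hsr : s = (s.re : ℂ) := by
    apply Complex.ext <;> simp [him]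
  rw [E2_z1_eq hs] at h
  unfold E2_Zt at h
  have hH : ∃ a : ℝ, 0 ≤ a ∧ E2_Hf s = (a : ℂ) := by
    refine ⟨∫ t in Ioi (1:ℝ), Int.fract t * t ^ (-(s.re + 1)), ?_, ?_⟩
    · refine setIntegral_nonneg measurableSet_Ioi fun t ht => ?_
      have ht' : (1:ℝ) < t := ht
      exact mul_nonneg (Int.fract_nonneg t) (Real.rpow_nonneg (by linarith) _)
    · rw [E2_Hf_eq, ← integral_complex_ofReal]
      refine setIntegral_congr_fun measurableSet_Ioi fun t ht => ?_
      have ht' : (1:ℝ) < t := ht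
      have ht0 : 0 ≤ t := by linarith
      show ((Int.fract t : ℝ) : ℂ) * (t : ℂ) ^ (-(s + 1)) = ((Int.fract t * t ^ (-(s.re + 1)) : ℝ) : ℂ)
      rw [hsr, Complex.ofReal_re]
      push_cast
      rw [Complex.ofReal_cpow ht0]
      push_cast
      rfl
  obtain ⟨a, ha, haH⟩ := hH
  rw [haH, hsr] at h
  have h2 : s.re - s.re * (s.re - 1) * a = 0 := by exact_mod_cast h
  nlinarith [mul_nonneg (mul_nonneg hs.le (sub_nonneg.2 h1.le)) ha]


theorem E2_mellin_exp (f : ℝ → ℂ) (s : ℂ) :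
    mellin f s = ∫ u : ℝ, Complex.exp (s * u) * f (Real.exp u) := by
  have himg : Real.exp '' univ = Ioi 0 := by
    rw [image_univ, Real.range_exp]
  have hder : ∀ x ∈ (univ : Set ℝ), HasDerivWithinAt Real.exp (Real.exp x) univ x :=
    fun x _ => (Real.hasDerivAt_exp x).hasDerivWithinAt
  rw [mellin, ← himg, integral_image_eq_integral_abs_deriv_smul MeasurableSet.univ hder
    Real.exp_injective.injOn, setIntegral_univ]
  refine integral_congr_ae (Eventually.of_forall fun u => ?_)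
  show |Real.exp u| • (((Real.exp u : ℝ) : ℂ) ^ (s - 1) • f (Real.exp u)) =
    Complex.exp (s * u) * f (Real.exp u)
  rw [abs_of_pos (Real.exp_pos u)]
  have hne : ((Real.exp u : ℝ) : ℂ) ≠ 0 := by exact_mod_cast (Real.exp_pos u).ne'
  have h1 : ((Real.exp u : ℝ) : ℂ) ^ (s - 1) = Complex.exp ((s - 1) * u) := by
    rw [Complex.cpow_def_of_ne_zero hne, ← Complex.ofReal_log (Real.exp_pos u).le, Real.log_exp,
      mul_comm]
  rw [h1, smul_eq_mul, Complex.real_smul, ← mul_assoc, Complex.ofReal_exp, ← Complex.exp_add]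
  congr 2
  ring

theorem E2_eta (s : ℂ) (hs : 1 < s.re) :
    HasSum (fun n : ℕ => (-1 : ℂ) ^ n / ((n : ℂ) + 1) ^ s) ((1 - 2 * 2 ^ (-s)) * riemannZeta s) := by
  have hsummable : Summable (fun n : ℕ => 1 / ((n : ℂ) + 1) ^ s) := by
    have h0 : Summable (fun n : ℕ => 1 / (n : ℂ) ^ s) := Complex.summable_one_div_nat_cpow.2 hs
    have h1 := (summable_nat_add_iff 1).2 h0
    refine h1.congr fun n => ?_
    push_cast
    rfl
  have hz : HasSum (fun n : ℕ => 1 / ((n : ℂ) + 1) ^ s) (riemannZeta s) := by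
    rw [zeta_eq_tsum_one_div_nat_add_one_cpow hs]
    exact hsummable.hasSum
  have hodd : HasSum (fun k : ℕ => 1 / (((2 * k + 1 : ℕ) : ℂ) + 1) ^ s) (2 ^ (-s) * riemannZeta s) := by
    have h1 := hz.mul_left ((2 : ℂ) ^ (-s))
    have he : (fun k : ℕ => 1 / (((2 * k + 1 : ℕ) : ℂ) + 1) ^ s) =
        fun k : ℕ => (2 : ℂ) ^ (-s) * (1 / ((k : ℂ) + 1) ^ s) := by
      funext k
      have e1 : (((2 * k + 1 : ℕ) : ℂ) + 1) = ((2 : ℝ) : ℂ) * (((k : ℝ) + 1 : ℝ) : ℂ) := by
        push_cast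
        ring
      rw [e1, Complex.mul_cpow_ofReal_nonneg (by norm_num) (by positivity), Complex.cpow_neg]
      push_cast
      rw [one_div, one_div, mul_inv]
    rw [he]
    exact h1
  have hev' : Summable (fun k : ℕ => 1 / (((2 * k : ℕ) : ℂ) + 1) ^ s) :=
    hsummable.comp_injective (i := fun k : ℕ => 2 * k) (fun a b h => by
      have h' : 2 * a = 2 * b := h
      omega)
  have hev : HasSum (fun k : ℕ => 1 / (((2 * k : ℕ) : ℂ) + 1) ^ s) ((1 - 2 ^ (-s)) * riemannZeta s) := by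
    have h1 := HasSum.even_add_odd (f := fun n : ℕ => 1 / ((n : ℂ) + 1) ^ s) hev'.hasSum hodd
    have h2 := h1.unique hz
    have h3 : ∑' k : ℕ, 1 / (((2 * k : ℕ) : ℂ) + 1) ^ s = (1 - 2 ^ (-s)) * riemannZeta s := by
      linear_combination h2
    rw [← h3]
    exact hev'.hasSum
  have h4 := HasSum.even_add_odd (f := fun n : ℕ => (-1 : ℂ) ^ n / ((n : ℂ) + 1) ^ s)
    (m := (1 - 2 ^ (-s)) * riemannZeta s) (m' := -(2 ^ (-s) * riemannZeta s)) ?_ ?_
  · have e : (1 - 2 * 2 ^ (-s)) * riemannZeta s =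
        (1 - 2 ^ (-s)) * riemannZeta s + -(2 ^ (-s) * riemannZeta s) := by ring
    rw [e]
    exact h4
  · have e : (fun k : ℕ => (-1 : ℂ) ^ (2 * k) / (((2 * k : ℕ) : ℂ) + 1) ^ s) =
        fun k : ℕ => 1 / (((2 * k : ℕ) : ℂ) + 1) ^ s := by
      funext k
      rw [pow_mul]
      norm_num
    rw [e]
    exact hev
  · have e : (fun k : ℕ => (-1 : ℂ) ^ (2 * k + 1) / (((2 * k + 1 : ℕ) : ℂ) + 1) ^ s) =
        fun k : ℕ => -(1 / (((2 * k + 1 : ℕ) : ℂ) + 1) ^ s) := by
      funext k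
      rw [pow_succ, pow_mul]
      rw [show ((-1 : ℂ) ^ 2) = 1 by norm_num, one_pow, one_mul, neg_div]
    rw [e]
    exact hodd.neg

theorem E2_c_eq (w : ℂ) (hw : 0 < w.re) :
    c w = Complex.Gamma (1 + w) * riemannZeta (1 + w) * (1 - 2 ^ (-w)) := by
  set s : ℂ := 1 + w with hsdef
  have hs : 1 < s.re := by rw [hsdef, Complex.add_re, Complex.one_re]; linarith
  have hF : ∀ t ∈ Ioi (0 : ℝ), HasSum (fun n : ℕ => (-1 : ℂ) ^ n * (Real.exp (-((n : ℝ) + 1) * t) : ℝ))
      ((1 / (Real.exp t + 1) : ℝ) : ℂ) := by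
    intro t ht
    have ht' : 0 < t := ht
    have hr : ‖(-(Real.exp (-t)) : ℂ)‖ < 1 := by
      rw [norm_neg, Complex.norm_real, Real.norm_of_nonneg (Real.exp_pos _).le]
      rw [Real.exp_lt_one_iff]
      linarith
    have h1 := (hasSum_geometric_of_norm_lt_one hr).mul_left ((Real.exp (-t) : ℝ) : ℂ)
    have e1 : ((Real.exp (-t) : ℝ) : ℂ) * (1 - -(Real.exp (-t) : ℂ))⁻¹ =
        ((1 / (Real.exp t + 1) : ℝ) : ℂ) := by
      have e2 : Real.exp (-t) * (1 - -(Real.exp (-t)))⁻¹ = 1 / (Real.exp t + 1) := by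
        rw [Real.exp_neg]
        have hp := Real.exp_pos t
        have hp1 : Real.exp t + 1 ≠ 0 := by positivity
        have hp2 : (1 - -(Real.exp t)⁻¹) = (Real.exp t + 1) / Real.exp t := by
          field_simp
          ring
        rw [hp2, inv_div]
        field_simp
      rw [← e2]
      push_cast
      ring
    have e3 : (fun n : ℕ => (-1 : ℂ) ^ n * (Real.exp (-((n : ℝ) + 1) * t) : ℝ)) =
        fun n : ℕ => ((Real.exp (-t) : ℝ) : ℂ) * (-(Real.exp (-t)) : ℂ) ^ n := by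
      funext n
      have e4 : Real.exp (-((n : ℝ) + 1) * t) = Real.exp (-t) * Real.exp (-t) ^ n := by
        rw [← Real.exp_nat_mul, ← Real.exp_add]
        congr 1
        ring
      rw [e4]
      rw [neg_pow ((Real.exp (-t) : ℝ) : ℂ) n]
      push_cast
      ring
    rw [e3, ← e1]
    exact h1
  have hsum : Summable fun n : ℕ => ‖(-1 : ℂ) ^ n‖ / ((n : ℝ) + 1) ^ s.re := by
    have h0 : Summable (fun n : ℕ => 1 / (n : ℝ) ^ s.re) := Real.summable_one_div_nat_rpow.2 hs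
    have h1 := (summable_nat_add_iff 1).2 h0
    refine h1.congr fun n => ?_
    simp
  have hm := hasSum_mellin (a := fun n : ℕ => (-1 : ℂ) ^ n) (p := fun n : ℕ => (n : ℝ) + 1)
    (F := fun t => ((1 / (Real.exp t + 1) : ℝ) : ℂ)) (s := s) (fun i => Or.inr (by positivity))
    (by linarith) hF hsum
  have he := (E2_eta s hs).mul_left (Complex.Gamma s)
  have hu : mellin (fun t => ((1 / (Real.exp t + 1) : ℝ) : ℂ)) s =
      Complex.Gamma s * ((1 - 2 * 2 ^ (-s)) * riemannZeta s) := by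
    refine hm.unique ?_
    have e : (fun i : ℕ => Complex.Gamma s * (-1 : ℂ) ^ i / (((i : ℝ) + 1 : ℝ) : ℂ) ^ s) =
        fun i : ℕ => Complex.Gamma s * ((-1 : ℂ) ^ i / ((i : ℂ) + 1) ^ s) := by
      funext n
      push_cast
      ring
    rw [e]
    exact he
  have hc : c w = mellin (fun t => ((1 / (Real.exp t + 1) : ℝ) : ℂ)) s := by
    rw [E2_mellin_exp, c]
    refine integral_congr_ae (Eventually.of_forall fun u => ?_)
    show (base u : ℂ) * Complex.exp (w * u) =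
      Complex.exp (s * u) * ((1 / (Real.exp (Real.exp u) + 1) : ℝ) : ℂ)
    have e1 : Complex.exp (s * u) = (Real.exp u : ℝ) * Complex.exp (w * u) := by
      rw [hsdef, add_mul, one_mul, Complex.exp_add, Complex.ofReal_exp]
    rw [e1, base]
    push_cast
    ring
  rw [hc, hu]
  have e2 : (2 : ℂ) * 2 ^ (-s) = 2 ^ (-w) := by
    have : -w = 1 + -s := by rw [hsdef]; ring
    rw [this, Complex.cpow_add _ _ two_ne_zero, Complex.cpow_one]
  rw [e2]
  ring

end E2

/-! END -/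

/-- TARGET -/
theorem c_eq (w : ℂ) (hw : 0 < w.re) :
    c w = Complex.Gamma (1 + w) * riemannZeta (1 + w) * (1 - 2 ^ (-w)) := by
  exact E2_c_eq w hw


/-- TARGET -/
theorem zeta_real_ne (σ : ℝ) (h0 : 0 < σ) (h1 : σ < 1) : riemannZeta (σ : ℂ) ≠ 0 := by
  intro hz
  have h : riemannZeta₁ (σ : ℂ) = 0 := by
    rw [E2_z1_of_ne (by exact_mod_cast h1.ne), hz, mul_zero]
  exact E2_z1_zero_im (by simpa using h0) h (Complex.ofReal_im _)


end Pool.Agent.Helper791.Cyc
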