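import Pool.Agent.Helper791_Cyc.Defs

set_option autoImplicit false

namespace Pool.Agent.Helper791.Cyc

open MeasureTheory Filter Topology Polynomial



open Complex in
theorem F_den_ne (x : ℝ) {R : ℝ} (hR : 0 < R) : (x : ℂ) - I * R ≠ 0 := by
  intro h
  have := congrArg Complex.im h
  simp at this
  exact hR.ne' this

open Complex in
theorem F_norm_inv_den (x : ℝ) {R : ℝ} (hR : 0 < R) : ‖1 / ((x : ℂ) - I * R)‖ ≤ 1 / R := by
  rw [norm_div, norm_one]
  apply one_div_le_one_div_of_le hR
  have h : |((x : ℂ) - I * R).im| ≤ ‖(x : ℂ) - I * R‖ := Complex.abs_im_le_norm _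
  have h2 : ((x : ℂ) - I * R).im = -R := by simp
  rw [h2, abs_neg, abs_of_pos hR] at h
  exact h

open Complex in
theorem F_cont_inv {R : ℝ} (hR : 0 < R) : Continuous fun x : ℝ => 1 / ((x : ℂ) - I * R) :=
  continuous_const.div (by fun_prop) fun x => F_den_ne x hR

open Complex in
theorem F_int_div {f : ℝ → ℂ} (hf : Integrable f) {R : ℝ} (hR : 0 < R) :
    Integrable fun x : ℝ => f x / ((x : ℂ) - I * R) := by
  have : (fun x : ℝ => f x / ((x : ℂ) - I * R)) =
      fun x : ℝ => (1 / ((x : ℂ) - I * R)) * f x := by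
    funext x
    rw [div_eq_mul_one_div, mul_comm]
  rw [this]
  exact hf.bdd_mul (F_cont_inv hR).aestronglyMeasurable (Filter.Eventually.of_forall fun x =>
    F_norm_inv_den x hR)

/-- two-sided Laplace transform -/
noncomputable def F_MM (h : ℝ → ℝ) (w : ℂ) : ℂ := ∫ v : ℝ, (h v : ℂ) * Complex.exp (w * v)

open Complex in
/-- the representation of the Cauchy transform -/
theorem F_rep {h : ℝ → ℝ} (hc : Continuous h) {s : ℝ} (hs : 0 ≤ s) (h0 : Integrable h)
    (h1 : Integrable fun v => h v * Real.exp (s * v)) {R : ℝ} (hR : 0 < R) :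
    ∫ x : ℝ, (h x : ℂ) / ((x : ℂ) - I * R) = Complex.exp (-(I * s * R)) *
        (I * ∫ τ in Set.Ioi (0 : ℝ), Complex.exp (-(R * τ)) * F_MM h (s - I * τ)) -
      ∫ σ in (0 : ℝ)..s, Complex.exp (-(I * σ * R)) * F_MM h σ := by
  have hn : ∀ v : ℝ, Complex.exp (s * ((v : ℂ) - I * R)) =
      Complex.exp (-(I * s * R)) * (Real.exp (s * v) : ℂ) := by
    intro v
    rw [Complex.ofReal_exp, ← Complex.exp_add]
    congr 1
    push_cast
    ring
  -- pointwise identities
  have p1 : ∀ v : ℝ, (h v : ℂ) / ((v : ℂ) - I * R) =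
      (h v : ℂ) * Complex.exp (s * ((v : ℂ) - I * R)) / ((v : ℂ) - I * R) -
        ∫ σ in (0 : ℝ)..s, (h v : ℂ) * Complex.exp (σ * ((v : ℂ) - I * R)) := by
    intro v
    have hne := F_den_ne v hR
    have e1 : ∫ σ in (0 : ℝ)..s, (h v : ℂ) * Complex.exp (σ * ((v : ℂ) - I * R)) =
        (h v : ℂ) * ((Complex.exp (((v : ℂ) - I * R) * s) - 1) / ((v : ℂ) - I * R)) := by
      rw [intervalIntegral.integral_const_mul]
      congr 1
      have := integral_exp_mul_complex (a := 0) (b := s) hne
      simp only [Complex.ofReal_zero, mul_zero, Complex.exp_zero] at this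
      rw [← this]
      congr 1
      funext σ
      rw [mul_comm]
    rw [e1, mul_comm (s : ℂ)]
    field_simp
    ring
  have p2 : ∀ v : ℝ, (h v : ℂ) * Complex.exp (s * ((v : ℂ) - I * R)) / ((v : ℂ) - I * R) =
      ∫ τ in Set.Ioi (0 : ℝ), (h v : ℂ) * Complex.exp (s * ((v : ℂ) - I * R)) *
        (I * Complex.exp (-((R : ℂ) + I * v) * τ)) := by
    intro v
    have hre : (-((R : ℂ) + I * v)).re < 0 := by simp [hR]
    rw [integral_const_mul, integral_const_mul, integral_exp_mul_complex_Ioi hre]
    have hne := F_den_ne v hR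
    have hne2 : (R : ℂ) + I * v ≠ 0 := by
      intro h
      have := congrArg Complex.re h
      simp at this
      exact hR.ne' this
    rw [Complex.ofReal_zero, mul_zero, Complex.exp_zero, div_eq_mul_inv]
    congr 1
    rw [neg_div_neg_eq, mul_one_div, inv_eq_one_div, div_eq_div_iff hne hne2]
    linear_combination (R : ℂ) * Complex.I_sq
  -- integrability
  have i1 : Integrable fun v : ℝ => (h v : ℂ) * Complex.exp (s * ((v : ℂ) - I * R)) := by
    have : (fun v : ℝ => (h v : ℂ) * Complex.exp (s * ((v : ℂ) - I * R))) = fun v : ℝ =>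
        Complex.exp (-(I * s * R)) * ((h v * Real.exp (s * v) : ℝ) : ℂ) := by
      funext v
      rw [hn v]
      push_cast
      ring
    rw [this]
    exact (h1.ofReal (𝕜 := ℂ)).const_mul _
  have i2 := F_int_div i1 hR
  have i3 : Integrable fun v : ℝ => (h v : ℂ) / ((v : ℂ) - I * R) := F_int_div h0.ofReal hR
  have i4 : Integrable fun v : ℝ =>
      ∫ σ in (0 : ℝ)..s, (h v : ℂ) * Complex.exp (σ * ((v : ℂ) - I * R)) := by
    have : (fun v : ℝ => ∫ σ in (0 : ℝ)..s, (h v : ℂ) * Complex.exp (σ * ((v : ℂ) - I * R))) =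
        fun v : ℝ => (h v : ℂ) * Complex.exp (s * ((v : ℂ) - I * R)) / ((v : ℂ) - I * R) -
          (h v : ℂ) / ((v : ℂ) - I * R) := by
      funext v
      rw [p1 v]
      ring
    rw [this]
    exact i2.sub i3
  -- first part
  have f1 : ∫ v : ℝ, (h v : ℂ) * Complex.exp (s * ((v : ℂ) - I * R)) / ((v : ℂ) - I * R) =
      Complex.exp (-(I * s * R)) *
        (I * ∫ τ in Set.Ioi (0 : ℝ), Complex.exp (-(R * τ)) * F_MM h (s - I * τ)) := by
    simp_rw [p2]
    rw [integral_integral_swap]
    · rw [← integral_const_mul, ← integral_const_mul]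
      congr 1
      funext τ
      rw [F_MM, ← integral_const_mul, ← integral_const_mul, ← integral_const_mul]
      congr 1
      funext v
      have e1 : Complex.exp (s * ((v : ℂ) - I * R)) * Complex.exp (-((R : ℂ) + I * v) * τ) =
          Complex.exp (-(I * s * R)) * (Complex.exp (-(R * τ)) *
            Complex.exp ((s - I * τ) * v)) := by
        rw [← Complex.exp_add, ← Complex.exp_add, ← Complex.exp_add]
        congr 1
        ring
      linear_combination ((h v : ℂ) * I) * e1
    · -- integrability on the product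
      have g1 : Integrable (fun v : ℝ => |h v| * Real.exp (s * v)) := by
        refine h1.norm.congr (Filter.Eventually.of_forall fun v => ?_)
        simp only
        rw [norm_mul, Real.norm_eq_abs, Real.norm_of_nonneg (Real.exp_pos _).le]
      have g2 : Integrable (fun τ : ℝ => Real.exp (-R * τ)) (volume.restrict (Set.Ioi 0)) :=
        (exp_neg_integrableOn_Ioi 0 hR)
      have g3 := g1.mul_prod g2
      refine g3.mono' ?_ (Filter.Eventually.of_forall fun z => ?_)
      · apply Continuous.aestronglyMeasurable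
        simp only [Function.uncurry_def]
        fun_prop
      · simp only [Function.uncurry]
        rw [norm_mul, norm_mul, norm_mul, Complex.norm_I, one_mul, Complex.norm_real,
          Real.norm_eq_abs, Complex.norm_exp, Complex.norm_exp]
        apply le_of_eq
        congr 2
        · congr 1
          simp
        · simp
  -- second part
  have f2 : ∫ v : ℝ, (∫ σ in (0 : ℝ)..s, (h v : ℂ) * Complex.exp (σ * ((v : ℂ) - I * R))) =
      ∫ σ in (0 : ℝ)..s, Complex.exp (-(I * σ * R)) * F_MM h σ := by
    simp_rw [intervalIntegral.integral_of_le hs]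
    rw [integral_integral_swap]
    · congr 1
      funext σ
      rw [F_MM, ← integral_const_mul]
      congr 1
      funext v
      have e1 : Complex.exp (σ * ((v : ℂ) - I * R)) =
          Complex.exp (-(I * σ * R)) * Complex.exp (σ * v) := by
        rw [← Complex.exp_add]
        congr 1
        ring
      rw [e1]
      ring
    · have g1 : Integrable (fun v : ℝ => |h v| * (1 + Real.exp (s * v))) := by
        have : (fun v : ℝ => |h v| * (1 + Real.exp (s * v))) = fun v =>
            ‖h v‖ + ‖h v * Real.exp (s * v)‖ := by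
          funext v
          rw [norm_mul, Real.norm_eq_abs, Real.norm_of_nonneg (Real.exp_pos _).le]
          ring
        rw [this]
        exact h0.norm.add h1.norm
      have g2 : Integrable (fun _ : ℝ => (1 : ℝ)) (volume.restrict (Set.Ioc 0 s)) :=
        integrable_const _
      have g3 := g1.mul_prod g2
      refine g3.mono' ?_ ?_
      · apply Continuous.aestronglyMeasurable
        simp only [Function.uncurry_def]
        fun_prop
      · have hmem : ∀ᵐ z : ℝ × ℝ ∂(volume.prod (volume.restrict (Set.Ioc 0 s))),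
            z.2 ∈ Set.Ioc 0 s := by
          have h7 : (volume : Measure ℝ).prod ((volume : Measure ℝ).restrict (Set.Ioc 0 s)) =
              ((volume : Measure ℝ).prod (volume : Measure ℝ)).restrict
                (Set.univ ×ˢ Set.Ioc (0 : ℝ) s) := by
            rw [← Measure.prod_restrict, Measure.restrict_univ]
          rw [h7]
          filter_upwards [ae_restrict_mem (MeasurableSet.univ.prod measurableSet_Ioc)] with z hz
          exact hz.2
        filter_upwards [hmem] with z hz
        simp only [Function.uncurry]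
        rw [norm_mul, Complex.norm_real, Real.norm_eq_abs, Complex.norm_exp, mul_one]
        apply mul_le_mul_of_nonneg_left _ (abs_nonneg _)
        have e2 : ((z.2 : ℂ) * ((z.1 : ℂ) - I * R)).re = z.2 * z.1 := by simp
        rw [e2]
        rcases le_total 0 z.1 with h5 | h5
        · have : Real.exp (z.2 * z.1) ≤ Real.exp (s * z.1) :=
            Real.exp_le_exp.2 (mul_le_mul_of_nonneg_right hz.2 h5)
          linarith
        · have : Real.exp (z.2 * z.1) ≤ 1 :=
            Real.exp_le_one_iff.2 (mul_nonpos_of_nonneg_of_nonpos hz.1.le h5)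
          have := Real.exp_pos (s * z.1)
          linarith
  calc ∫ x : ℝ, (h x : ℂ) / ((x : ℂ) - I * R) = ∫ v : ℝ,
        ((h v : ℂ) * Complex.exp (s * ((v : ℂ) - I * R)) / ((v : ℂ) - I * R) -
        ∫ σ in (0 : ℝ)..s, (h v : ℂ) * Complex.exp (σ * ((v : ℂ) - I * R))) := by
        congr 1
        funext v
        exact p1 v
    _ = _ := by rw [integral_sub i2 i4, f1, f2]


/-! END -/

/-- TARGET -/
theorem shift (f : ℝ → ℝ) (hf : Continuous f) (s R : ℝ) (hs : 0 < s) (hR : 0 < R)
    (h0 : Integrable f) (h1 : Integrable (fun v => f v * Real.exp (s * v))) :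
    ∫ v : ℝ, (f v : ℂ) / ((v : ℂ) - Complex.I * R) =
      Complex.exp (-(s * (Complex.I * R))) * Complex.I *
        (∫ τ in Set.Ioi (0 : ℝ), Complex.exp (-(R * τ)) *
          ∫ v : ℝ, (f v : ℂ) * Complex.exp ((s - Complex.I * τ) * v)) -
      ∫ σ in (0 : ℝ)..s, Complex.exp (-(σ * (Complex.I * R))) *
        ∫ v : ℝ, (f v : ℂ) * Complex.exp (σ * v) := by
  rw [F_rep hf hs.le h0 h1 hR, ← mul_assoc]
  have e1 : Complex.exp (-(Complex.I * s * R)) = Complex.exp (-(s * (Complex.I * R))) := by
    congr 1
    ring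
  have e2 : (fun σ : ℝ => Complex.exp (-(Complex.I * σ * R)) * F_MM f σ) = fun σ : ℝ =>
      Complex.exp (-(σ * (Complex.I * R))) * ∫ v : ℝ, (f v : ℂ) * Complex.exp (σ * v) := by
    funext σ
    rw [F_MM]
    congr 2
    ring
  rw [e1, e2]
  rfl

end Pool.Agent.Helper791.Cyc
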