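import Pool.Agent.Helper791_Cyc.Defs

set_option autoImplicit false

namespace Pool.Agent.Helper791.Cyc

open MeasureTheory Filter Topology Polynomial



theorem HP_inf : (Set.ofPred Nat.Prime).Infinite := Nat.infinite_setOfPred_prime

theorem HP_nth_prime (i : ℕ) : (Nat.nth Nat.Prime i).Prime := Nat.nth_mem_of_infinite HP_inf i

theorem HP_q_prime (i : ℕ) : (q i).Prime := HP_nth_prime (i + 1)

theorem HP_primesBelow (k : ℕ) :
    Nat.primesBelow (Nat.nth Nat.Prime k) = (Finset.range k).image (Nat.nth Nat.Prime) := by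
  ext p
  simp only [Nat.primesBelow, Finset.mem_filter, Finset.mem_range, Finset.mem_image]
  constructor
  · rintro ⟨h1, h2⟩
    have h3 : p ∈ Set.range (Nat.nth Nat.Prime) := by
      rw [Nat.range_nth_of_infinite HP_inf]; exact h2
    obtain ⟨i, rfl⟩ := h3
    exact ⟨i, (Nat.nth_lt_nth HP_inf).1 h1, rfl⟩
  · rintro ⟨i, h1, rfl⟩
    exact ⟨(Nat.nth_lt_nth HP_inf).2 h1, HP_nth_prime i⟩

theorem HP_prod_primesBelow {M : Type*} [CommMonoid M] (f : ℕ → M) (k : ℕ) :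
    ∏ p ∈ Nat.primesBelow (Nat.nth Nat.Prime (k + 1)), f p =
      f 2 * ∏ i ∈ Finset.range k, f (q i) := by
  rw [HP_primesBelow, Finset.prod_image (fun a _ b _ h => Nat.nth_injective HP_inf h),
    Finset.prod_range_succ', Nat.nth_prime_zero_eq_two, mul_comm]
  rfl

theorem HP_pow_re (n : ℕ) (hn : 0 < n) (w : ℂ) : ‖(n : ℂ) ^ (-w)‖ = (n : ℝ) ^ (-w.re) := by
  rw [Complex.norm_natCast_cpow_of_pos hn, Complex.neg_re]

theorem HP_ofReal (n : ℕ) (σ : ℝ) : (n : ℂ) ^ (-(σ : ℂ)) = (((n : ℝ) ^ (-σ) : ℝ) : ℂ) := by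
  rw [Complex.ofReal_cpow (Nat.cast_nonneg n)]
  push_cast
  rfl

theorem HP_prod_real (k : ℕ) (σ : ℝ) :
    ∏ i ∈ Finset.range k, (1 - (q i : ℂ) ^ (-(σ : ℂ))) =
      ((∏ i ∈ Finset.range k, (1 - (q i : ℝ) ^ (-σ)) : ℝ) : ℂ) := by
  push_cast
  refine Finset.prod_congr rfl fun i _ => ?_
  rw [HP_ofReal]

theorem HP_q_one (i : ℕ) : (1 : ℝ) ≤ q i := by exact_mod_cast (HP_q_prime i).one_lt.le

theorem HP_fac_le (i : ℕ) (σ : ℝ) (h0 : 0 ≤ σ) : (q i : ℝ) ^ (-σ) ≤ 1 :=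
  Real.rpow_le_one_of_one_le_of_nonpos (HP_q_one i) (by linarith)

theorem HP_fac_nonneg (i : ℕ) (σ : ℝ) : 0 ≤ (q i : ℝ) ^ (-σ) :=
  Real.rpow_nonneg (Nat.cast_nonneg _) _

theorem HP_not_summable : ¬ Summable (fun i : ℕ => (1 : ℝ) / q i) := by
  intro h
  have h1 : Summable (fun i : ℕ => (1 : ℝ) / (Nat.nth Nat.Prime i : ℕ)) :=
    (summable_nat_add_iff (f := fun i : ℕ => (1 : ℝ) / (Nat.nth Nat.Prime i : ℕ)) 1).1 h
  apply not_summable_one_div_on_primes
  rw [← Function.Injective.summable_iff (Nat.nth_injective HP_inf)]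
  · refine h1.congr fun i => ?_
    simp only [Function.comp_apply]
    rw [Set.indicator_of_mem]
    exact HP_nth_prime i
  · intro x hx
    rw [Nat.range_nth_of_infinite HP_inf] at hx
    exact Set.indicator_of_notMem hx _

theorem HP_sum_tendsto : Tendsto (fun k : ℕ => ∑ i ∈ Finset.range k, (1 : ℝ) / q i) atTop atTop :=
  (not_summable_iff_tendsto_nat_atTop_of_nonneg (fun i => by positivity)).1 HP_not_summable


/-- `(s - 1) ζ(s)` is bounded on `(1, 2]`. -/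
theorem HP_zeta_bound : ∃ C : ℝ, ∀ s : ℝ, 1 < s → s ≤ 2 → ‖riemannZeta s‖ ≤ C / (s - 1) := by
  have hG : Continuous (Function.update (fun s : ℂ => (s - 1) * riemannZeta s) 1 1) := by
    rw [continuous_iff_continuousAt]
    intro z
    by_cases hz : z = 1
    · rw [hz]
      exact continuousAt_update_same.mpr riemannZeta_residue_one
    · rw [continuousAt_update_of_ne hz]
      exact ((continuousAt_id.sub continuousAt_const).mul
        (differentiableAt_riemannZeta hz).continuousAt)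
  have hG2 : ContinuousOn (fun x : ℝ => Function.update (fun s : ℂ => (s - 1) * riemannZeta s) 1 1
      (x : ℂ)) (Set.Icc 1 2) := (hG.comp Complex.continuous_ofReal).continuousOn
  obtain ⟨C, hC⟩ := isCompact_Icc.exists_bound_of_continuousOn hG2
  refine ⟨C, fun s h1 h2 => ?_⟩
  have h3 := hC s ⟨h1.le, h2⟩
  have h4 : (s : ℂ) ≠ 1 := by
    intro h
    have : s = 1 := by exact_mod_cast h
    linarith
  rw [Function.update_of_ne h4, norm_mul] at h3
  rw [le_div_iff₀ (by linarith), mul_comm]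
  refine le_trans (le_of_eq ?_) h3
  congr 1
  have h5 : ((s : ℂ) - 1) = ((s - 1 : ℝ) : ℂ) := by push_cast; rfl
  rw [h5, Complex.norm_real, Real.norm_eq_abs, abs_of_pos (by linarith)]

/-- The partial Euler products at a real number `s > 1`. -/
theorem HP_partial_le (s : ℝ) (hs : 1 < s) (k : ℕ) :
    ∏ i ∈ Finset.range k, (1 - (q i : ℝ) ^ (-s))⁻¹ ≤ ‖riemannZeta s‖ := by
  have h1 := riemannZeta_eulerProduct (s := (s : ℂ)) (by simpa using hs)
  have h2 : Tendsto (fun k : ℕ => Nat.nth Nat.Prime (k + 1)) atTop atTop :=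
    (Nat.nth_strictMono HP_inf).tendsto_atTop.comp (tendsto_add_atTop_nat 1)
  have h3 := (h1.comp h2).norm
  have hfac : ∀ n : ℕ, 2 ≤ n → 1 ≤ (1 - (n : ℝ) ^ (-s))⁻¹ := by
    intro n hn
    have hn1 : (1 : ℝ) < n := by exact_mod_cast hn
    have h4 : (n : ℝ) ^ (-s) < 1 := Real.rpow_lt_one_of_one_lt_of_neg hn1 (by linarith)
    have h5 : 0 ≤ (n : ℝ) ^ (-s) := Real.rpow_nonneg (Nat.cast_nonneg _) _
    exact (one_le_inv₀ (by linarith)).2 (by linarith)
  have h4 : ∀ k : ℕ, ‖((fun n : ℕ => ∏ p ∈ Nat.primesBelow n, (1 - (p : ℂ) ^ (-(s : ℂ)))⁻¹) ∘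
      fun k : ℕ => Nat.nth Nat.Prime (k + 1)) k‖ =
      (1 - (2 : ℝ) ^ (-s))⁻¹ * ∏ i ∈ Finset.range k, (1 - (q i : ℝ) ^ (-s))⁻¹ := by
    intro k
    simp only [Function.comp_apply]
    rw [norm_prod, HP_prod_primesBelow (fun p : ℕ => ‖(1 - (p : ℂ) ^ (-(s : ℂ)))⁻¹‖)]
    have h6 : ∀ n : ℕ, 2 ≤ n → ‖(1 - (n : ℂ) ^ (-(s : ℂ)))⁻¹‖ = (1 - (n : ℝ) ^ (-s))⁻¹ := by
      intro n hn
      have h7 := hfac n hn
      rw [HP_ofReal]
      have h8 : (1 - (((n : ℝ) ^ (-s) : ℝ) : ℂ))⁻¹ = (((1 - (n : ℝ) ^ (-s))⁻¹ : ℝ) : ℂ) := by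
        push_cast; rfl
      rw [h8, Complex.norm_real, Real.norm_eq_abs, abs_of_nonneg (by linarith)]
    have h9 := h6 2 le_rfl
    push_cast at h9
    rw [← h9]
    congr 1
    · exact Finset.prod_congr rfl fun i _ => h6 _ (HP_q_prime i).two_le
  have h5 : Monotone (fun k : ℕ => ‖((fun n : ℕ => ∏ p ∈ Nat.primesBelow n,
      (1 - (p : ℂ) ^ (-(s : ℂ)))⁻¹) ∘ fun k : ℕ => Nat.nth Nat.Prime (k + 1)) k‖) := by
    refine monotone_nat_of_le_succ fun k => ?_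
    rw [h4, h4, Finset.prod_range_succ, ← mul_assoc]
    refine le_mul_of_one_le_right ?_ (hfac _ (HP_q_prime k).two_le)
    refine mul_nonneg ?_ (Finset.prod_nonneg fun i _ => ?_)
    · have := hfac 2 le_rfl
      push_cast at this
      linarith
    · have := hfac _ (HP_q_prime i).two_le
      linarith
  have h6 := h5.ge_of_tendsto h3 k
  rw [h4] at h6
  refine le_trans ?_ h6
  refine le_mul_of_one_le_left (Finset.prod_nonneg fun i _ => ?_) ?_
  · have := hfac _ (HP_q_prime i).two_le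
    linarith
  · have := hfac 2 le_rfl
    push_cast at this
    exact this

/-! END -/

/-- TARGET -/
theorem prod_le_one (k : ℕ) (σ : ℝ) (h0 : 0 ≤ σ) :
    ‖∏ i ∈ Finset.range k, (1 - (q i : ℂ) ^ (-(σ : ℂ)))‖ ≤ 1 := by
  rw [HP_prod_real, Complex.norm_real, norm_prod]
  refine Finset.prod_le_one (fun i _ => norm_nonneg _) fun i _ => ?_
  rw [Real.norm_eq_abs, abs_le]
  have h1 := HP_fac_le i σ h0
  have h2 := HP_fac_nonneg i σ
  constructor <;> linarith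

/-- TARGET -/
theorem prod_zero (σ : ℝ) (h0 : 0 < σ) (h1 : σ ≤ 1) :
    Tendsto (fun k : ℕ => ∏ i ∈ Finset.range k, (1 - (q i : ℂ) ^ (-(σ : ℂ)))) atTop (𝓝 0) := by
  have h2 : Tendsto (fun k : ℕ => ∏ i ∈ Finset.range k, (1 - (q i : ℝ) ^ (-σ))) atTop (𝓝 0) := by
    have h3 : Tendsto (fun k : ℕ => Real.exp (-∑ i ∈ Finset.range k, (1 : ℝ) / q i)) atTop
        (𝓝 0) := Real.tendsto_exp_neg_atTop_nhds_zero.comp HP_sum_tendsto
    refine squeeze_zero (fun k => Finset.prod_nonneg fun i _ => ?_) (fun k => ?_) h3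
    · have := HP_fac_le i σ h0.le
      linarith
    · rw [← Finset.sum_neg_distrib, Real.exp_sum]
      refine Finset.prod_le_prod (fun i _ => ?_) fun i _ => ?_
      · have := HP_fac_le i σ h0.le
        linarith
      · have h4 : (1 : ℝ) / q i ≤ (q i : ℝ) ^ (-σ) := by
          rw [one_div, ← Real.rpow_neg_one]
          exact Real.rpow_le_rpow_of_exponent_le (HP_q_one i) (by linarith)
        have h5 := Real.add_one_le_exp (-((1 : ℝ) / q i))
        linarith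
  have h3 := (Complex.continuous_ofReal.tendsto 0).comp h2
  rw [Complex.ofReal_zero] at h3
  refine h3.congr fun k => ?_
  simp only [Function.comp_apply]
  rw [HP_prod_real]

/-- TARGET -/
theorem prod_zeta (w : ℂ) (hw : 1 < w.re) :
    Tendsto (fun k : ℕ => ∏ i ∈ Finset.range k, (1 - (q i : ℂ) ^ (-w))) atTop
      (𝓝 (((1 - 2 ^ (-w)) * riemannZeta w)⁻¹)) := by
  have h1 := riemannZeta_eulerProduct hw
  have h2 : Tendsto (fun k : ℕ => Nat.nth Nat.Prime (k + 1)) atTop atTop :=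
    (Nat.nth_strictMono HP_inf).tendsto_atTop.comp (tendsto_add_atTop_nat 1)
  have h3 := h1.comp h2
  have hz : riemannZeta w ≠ 0 := riemannZeta_ne_zero_of_one_lt_re hw
  have h4 := h3.inv₀ hz
  have h20 : (1 - (2 : ℂ) ^ (-w)) ≠ 0 := by
    intro h
    have h5 : (2 : ℂ) ^ (-w) = 1 := (sub_eq_zero.1 h).symm
    have h6 : ‖((2 : ℕ) : ℂ) ^ (-w)‖ = ((2 : ℕ) : ℝ) ^ (-w.re) := HP_pow_re 2 (by norm_num) w
    push_cast at h6
    rw [h5, norm_one] at h6
    have h7 : (2 : ℝ) ^ (-w.re) < 1 :=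
      Real.rpow_lt_one_of_one_lt_of_neg (by norm_num) (by linarith)
    linarith
  have h5 := h4.const_mul ((1 - (2 : ℂ) ^ (-w))⁻¹)
  rw [← mul_inv] at h5
  refine h5.congr fun k => ?_
  simp only [Function.comp_apply]
  rw [← Finset.prod_inv_distrib, HP_prod_primesBelow (fun p : ℕ => ((1 - (p : ℂ) ^ (-w))⁻¹)⁻¹)]
  simp only [inv_inv]
  push_cast
  rw [← mul_assoc, inv_mul_cancel₀ h20, one_mul]

/-- TARGET -/
theorem prod_bound : ∃ C : ℝ, ∀ (k : ℕ) (w : ℂ), 1 < w.re → w.re ≤ 2 →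
    ‖∏ i ∈ Finset.range k, (1 - (q i : ℂ) ^ (-w))‖ ≤ C / (w.re - 1) := by
  obtain ⟨C, hC⟩ := HP_zeta_bound
  refine ⟨C, fun k w h1 h2 => ?_⟩
  refine le_trans ?_ ((HP_partial_le w.re h1 k).trans (hC w.re h1 h2))
  rw [norm_prod]
  refine Finset.prod_le_prod (fun i _ => norm_nonneg _) fun i _ => ?_
  have hq : (1 : ℝ) < q i := by exact_mod_cast (HP_q_prime i).one_lt
  have h3 : (q i : ℝ) ^ (-w.re) < 1 := Real.rpow_lt_one_of_one_lt_of_neg hq (by linarith)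
  have h4 := HP_fac_nonneg i w.re
  calc ‖1 - (q i : ℂ) ^ (-w)‖ ≤ ‖(1 : ℂ)‖ + ‖(q i : ℂ) ^ (-w)‖ := norm_sub_le _ _
    _ = 1 + (q i : ℝ) ^ (-w.re) := by rw [norm_one, HP_pow_re _ (HP_q_prime i).pos]
    _ ≤ (1 - (q i : ℝ) ^ (-w.re))⁻¹ := by
      rw [← one_div, le_div_iff₀ (by linarith)]
      nlinarith

end Pool.Agent.Helper791.Cyc
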