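import Pool.Agent.Helper791_Cyc.Defs
import Pool.Agent.Helper791_Cyc.B
import Pool.Agent.Helper791_Cyc.E1
import Pool.Agent.Helper791_Cyc.F
import Pool.Agent.Helper791_Cyc.HP

set_option autoImplicit false

namespace Pool.Agent.Helper791.Cyc

open MeasureTheory Filter Topology Polynomial



theorem G_int (k : ℕ) (s : ℝ) (hs : 0 ≤ s) : Integrable (fun v => h k v * Real.exp (s * v)) := by
  have h1 := (M_int k (s : ℂ) (by simp; linarith)).re
  refine h1.congr (Eventually.of_forall fun v => ?_)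
  simp only [RCLike.re_eq_complex_re]
  have : (h k v : ℂ) * Complex.exp ((s : ℂ) * v) = ((h k v * Real.exp (s * v) : ℝ) : ℂ) := by
    push_cast
    rfl
  rw [this, Complex.ofReal_re]

theorem G_int0 (k : ℕ) : Integrable (h k) := by
  have h1 := G_int k 0 le_rfl
  simpa using h1

theorem G_norm_exp (s R : ℝ) : ‖Complex.exp (-((s : ℂ) * (Complex.I * R)))‖ = 1 := by
  have : -((s : ℂ) * (Complex.I * R)) = ((-(s * R) : ℝ) : ℂ) * Complex.I := by
    push_cast
    ring
  rw [this, Complex.norm_exp_ofReal_mul_I]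

/-! END -/

/-- TARGET -/
theorem H_upper (R : ℝ) (hR : 0 < R) : ∃ C : ℝ, ∀ k : ℕ, ‖H k R‖ ≤ C := by
  obtain ⟨C0, hC0⟩ := c_bdd
  obtain ⟨C1, hC1⟩ := prod_bound
  refine ⟨C0 * C1 / R + 2 * C0, fun k => ?_⟩
  have hC0pos : 0 ≤ C0 := (norm_nonneg _).trans (hC0 0 le_rfl (by norm_num))
  have hC1pos : 0 ≤ C1 := by
    have := (norm_nonneg _).trans (hC1 0 2 (by norm_num) (by norm_num))
    norm_num at this
    exact this
  have hsh := shift (h k) (h_cont k) 2 R (by norm_num) hR (G_int0 k) (G_int k 2 (by norm_num))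
  unfold H
  rw [hsh]
  refine (norm_sub_le _ _).trans (add_le_add ?_ ?_)
  · rw [norm_mul, norm_mul, G_norm_exp, Complex.norm_I, one_mul, one_mul]
    have hint : IntegrableOn (fun τ : ℝ => C0 * C1 * Real.exp (-R * τ)) (Set.Ioi 0) :=
      (integrableOn_exp_mul_Ioi (by linarith : -R < 0) 0).const_mul _
    have hval : ∫ τ in Set.Ioi (0 : ℝ), C0 * C1 * Real.exp (-R * τ) = C0 * C1 / R := by
      rw [integral_const_mul, integral_exp_mul_Ioi (by linarith : -R < 0) 0]
      simp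
      field_simp
    rw [← hval]
    refine norm_integral_le_of_norm_le hint ?_
    refine (ae_restrict_mem measurableSet_Ioi).mono fun τ _ => ?_
    have e1 : ∫ v : ℝ, (h k v : ℂ) * Complex.exp ((((2 : ℝ) : ℂ) - Complex.I * τ) * v) =
        M k (((2 : ℝ) : ℂ) - Complex.I * τ) := M_eq k _ (by simp; norm_num)
    have hre : (((2 : ℝ) : ℂ) - Complex.I * τ).re = 2 := by simp
    rw [e1, norm_mul]
    have e2 : ‖Complex.exp (-((R : ℂ) * τ))‖ = Real.exp (-R * τ) := by
      have : -((R : ℂ) * τ) = ((-R * τ : ℝ) : ℂ) := by push_cast; ring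
      rw [this, ← Complex.ofReal_exp, Complex.norm_real, Real.norm_eq_abs, Real.abs_exp]
    rw [e2]
    have e3 : ‖M k (((2 : ℝ) : ℂ) - Complex.I * τ)‖ ≤ C0 * C1 := by
      unfold M
      rw [norm_mul]
      have a1 := c_norm_le (((2 : ℝ) : ℂ) - Complex.I * τ) (by rw [hre]; norm_num)
      rw [hre] at a1
      have a2 := hC0 2 (by norm_num) le_rfl
      have a3 := hC1 k (((2 : ℝ) : ℂ) - Complex.I * τ) (by rw [hre]; norm_num) (by rw [hre])
      rw [hre] at a3
      have a4 : C1 / ((2 : ℝ) - 1) = C1 := by norm_num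
      rw [a4] at a3
      exact mul_le_mul (a1.trans a2) a3 (norm_nonneg _) hC0pos
    rw [mul_comm]
    exact mul_le_mul_of_nonneg_right e3 (Real.exp_pos _).le
  · have hb : ∀ σ ∈ Set.uIoc (0 : ℝ) 2, ‖Complex.exp (-((σ : ℂ) * (Complex.I * R))) *
        ∫ v : ℝ, (h k v : ℂ) * Complex.exp ((σ : ℂ) * v)‖ ≤ C0 := by
      intro σ hσ
      rw [Set.uIoc_of_le (by norm_num : (0 : ℝ) ≤ 2)] at hσ
      have e1 : ∫ v : ℝ, (h k v : ℂ) * Complex.exp ((σ : ℂ) * v) = M k (σ : ℂ) :=
        M_eq k _ (by simp; linarith [hσ.1])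
      rw [norm_mul, G_norm_exp, one_mul, e1]
      unfold M
      rw [norm_mul]
      calc ‖c (σ : ℂ)‖ * ‖∏ i ∈ Finset.range k, (1 - (q i : ℂ) ^ (-(σ : ℂ)))‖ ≤ C0 * 1 :=
            mul_le_mul (hC0 σ hσ.1.le hσ.2) (prod_le_one k σ hσ.1.le) (norm_nonneg _) hC0pos
        _ = C0 := mul_one _
    have := intervalIntegral.norm_integral_le_of_norm_le_const hb
    refine this.trans (le_of_eq ?_)
    norm_num
    ring

end Pool.Agent.Helper791.Cyc

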