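import Pool.Agent.Helper791_Cyc.Defs

set_option autoImplicit false

namespace Pool.Agent.Helper791.Cyc

open MeasureTheory Filter Topology Polynomial



theorem HL1_int0 (b : ℝ) (hb : 0 < b) : ∫ t in Set.Ioi (0 : ℝ), Real.exp (-(b * t)) = 1 / b := by
  have h := Real.integral_rpow_mul_exp_neg_mul_Ioi (a := 1) (r := b) one_pos hb
  simp only [sub_self, Real.rpow_zero, one_mul, Real.Gamma_one, mul_one, Real.rpow_one] at h
  exact h

theorem HL1_int1 (b : ℝ) (hb : 0 < b) :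
    ∫ t in Set.Ioi (0 : ℝ), t * Real.exp (-(b * t)) = 1 / b ^ 2 := by
  have h := Real.integral_rpow_mul_exp_neg_mul_Ioi (a := 2) (r := b) two_pos hb
  have e1 : (2 : ℝ) - 1 = 1 := by norm_num
  have e2 : Real.Gamma 2 = 1 := Real.Gamma_two
  rw [e1, e2, mul_one] at h
  simp only [Real.rpow_one] at h
  rw [h]
  have : (2 : ℝ) = ((2 : ℕ) : ℝ) := by norm_num
  rw [this, Real.rpow_natCast, div_pow, one_pow]

theorem HL1_i0 (b : ℝ) (hb : 0 < b) :
    Integrable (fun t : ℝ => Real.exp (-(b * t))) (volume.restrict (Set.Ioi (0 : ℝ))) := by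
  by_contra h
  have h1 := integral_undef h
  rw [HL1_int0 b hb] at h1
  have : 0 < 1 / b := by positivity
  exact this.ne' h1

theorem HL1_i1 (b : ℝ) (hb : 0 < b) :
    Integrable (fun t : ℝ => t * Real.exp (-(b * t))) (volume.restrict (Set.Ioi (0 : ℝ))) := by
  by_contra h
  have h1 := integral_undef h
  rw [HL1_int1 b hb] at h1
  have : 0 < 1 / b ^ 2 := by positivity
  exact this.ne' h1

/-- the main estimate for one `R` -/
theorem HL1_one (r : ℝ) (hr : 0 < r) (C A : ℝ) (hC : 0 ≤ C) (hA : 1.6 ≤ A) (hA2 : A ≤ 2)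
    (F : ℂ → ℂ)
    (hF : ∀ w : ℂ, 1 < w.re → w.re ≤ 2 → ‖F w‖ ≤ C / (w.re - 1))
    (hFc : ∀ w : ℂ, 1 < w.re → ContinuousAt F w)
    (hF1 : ∀ w : ℂ, 1 < w.re → ‖w - 1‖ < r →
      ‖F w - (A : ℝ) * (w - 1)‖ ≤ (1 / 8) * ‖w - 1‖)
    (R e : ℝ) (hR : 1 ≤ R) (he : e = 1 / R ^ 3) (her : e < r / 2)
    (hexp : Real.exp (-(R * r / 4)) * (2 * C * R ^ 3 + 12) ≤ 1 / (4 * R ^ 2)) :
    1 / R ^ 2 ≤ ‖∫ τ in Set.Ioi (0 : ℝ), Complex.exp (-(R * τ)) *
        F (1 + (e : ℝ) - Complex.I * τ)‖ := by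
  have hR0 : 0 < R := by linarith
  have he0 : 0 < e := by rw [he]; positivity
  have he1 : e ≤ 1 := by
    rw [he, div_le_one (by positivity)]
    exact one_le_pow₀ hR
  have heR : e ≤ 1 / R := by
    rw [he]
    apply div_le_div_of_nonneg_left zero_le_one hR0
    have : R ^ 1 ≤ R ^ 3 := pow_le_pow_right₀ hR (by norm_num)
    simpa using this
  have hre : ∀ τ : ℝ, ((1 : ℂ) + (e : ℝ) - Complex.I * τ).re = 1 + e := by
    intro τ
    simp
  have hsub : ∀ τ : ℝ, ((1 : ℂ) + (e : ℝ) - Complex.I * τ) - 1 = (e : ℂ) - Complex.I * τ := by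
    intro τ
    ring
  have hnorm : ∀ τ : ℝ, 0 < τ → ‖((1 : ℂ) + (e : ℝ) - Complex.I * τ) - 1‖ ≤ e + τ := by
    intro τ hτ
    rw [hsub]
    refine (norm_sub_le _ _).trans ?_
    rw [norm_mul, Complex.norm_I, one_mul, Complex.norm_real, Complex.norm_real,
      Real.norm_of_nonneg he0.le, Real.norm_of_nonneg hτ.le]
  -- the two parts
  let μ := volume.restrict (Set.Ioi (0 : ℝ))
  let P : ℝ → ℂ := fun τ => ((A * e * Real.exp (-(R * τ)) : ℝ) : ℂ) -
    Complex.I * ((A * (τ * Real.exp (-(R * τ))) : ℝ) : ℂ)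
  let G : ℝ → ℂ := fun τ => Complex.exp (-(R * τ)) * F (1 + (e : ℝ) - Complex.I * τ)
  let g : ℝ → ℝ := fun τ => (1 / 8) * (e * Real.exp (-(R * τ)) + τ * Real.exp (-(R * τ))) +
    Real.exp (-(R * r / 4)) * ((C * R ^ 3 + 2 * e) * Real.exp (-(R / 2 * τ)) +
      2 * (τ * Real.exp (-(R / 2 * τ))))
  have hR2 : 0 < R / 2 := by positivity
  have ia : Integrable (fun τ : ℝ => e * Real.exp (-(R * τ))) μ := (HL1_i0 R hR0).const_mul e
  have ib : Integrable (fun τ : ℝ => τ * Real.exp (-(R * τ))) μ := HL1_i1 R hR0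
  have ic : Integrable (fun τ : ℝ => (C * R ^ 3 + 2 * e) * Real.exp (-(R / 2 * τ))) μ :=
    (HL1_i0 (R / 2) hR2).const_mul _
  have id' : Integrable (fun τ : ℝ => 2 * (τ * Real.exp (-(R / 2 * τ)))) μ :=
    (HL1_i1 (R / 2) hR2).const_mul _
  have iab : Integrable (fun τ : ℝ => (1 / 8) * (e * Real.exp (-(R * τ)) +
      τ * Real.exp (-(R * τ)))) μ := (ia.add ib).const_mul _
  have icd : Integrable (fun τ : ℝ => Real.exp (-(R * r / 4)) *
      ((C * R ^ 3 + 2 * e) * Real.exp (-(R / 2 * τ)) + 2 * (τ * Real.exp (-(R / 2 * τ))))) μ :=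
    (ic.add id').const_mul _
  have hgi : Integrable g μ := iab.add icd
  have hgint : ∫ τ, g τ ∂μ = (1 / 8) * (e * (1 / R) + 1 / R ^ 2) +
      Real.exp (-(R * r / 4)) * ((C * R ^ 3 + 2 * e) * (1 / (R / 2)) +
        2 * (1 / (R / 2) ^ 2)) := by
    show ∫ τ, ((1 / 8) * (e * Real.exp (-(R * τ)) + τ * Real.exp (-(R * τ))) +
      Real.exp (-(R * r / 4)) * ((C * R ^ 3 + 2 * e) * Real.exp (-(R / 2 * τ)) +
      2 * (τ * Real.exp (-(R / 2 * τ))))) ∂μ = _
    rw [integral_add iab icd, integral_const_mul, integral_const_mul, integral_add ia ib,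
      integral_add ic id', integral_const_mul, integral_const_mul, integral_const_mul,
      HL1_int0 R hR0, HL1_int1 R hR0, HL1_int0 (R / 2) hR2, HL1_int1 (R / 2) hR2]
  have hexpR : ∀ τ : ℝ, Complex.exp (-(R * τ)) = ((Real.exp (-(R * τ)) : ℝ) : ℂ) := by
    intro τ
    push_cast
    rfl
  have hPeq : ∀ τ : ℝ, P τ = Complex.exp (-(R * τ)) *
      ((A : ℝ) * (((1 : ℂ) + (e : ℝ) - Complex.I * τ) - 1)) := by
    intro τ
    rw [hexpR, hsub]
    show ((A * e * Real.exp (-(R * τ)) : ℝ) : ℂ) -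
      Complex.I * ((A * (τ * Real.exp (-(R * τ))) : ℝ) : ℂ) = _
    push_cast
    ring
  have hbound : ∀ τ : ℝ, 0 < τ → ‖G τ - P τ‖ ≤ g τ := by
    intro τ hτ
    have e1 : G τ - P τ = Complex.exp (-(R * τ)) * (F (1 + (e : ℝ) - Complex.I * τ) -
        (A : ℝ) * (((1 : ℂ) + (e : ℝ) - Complex.I * τ) - 1)) := by
      rw [hPeq]
      show Complex.exp (-(R * τ)) * F (1 + (e : ℝ) - Complex.I * τ) - _ = _
      ring
    rw [e1, norm_mul, hexpR, Complex.norm_real, Real.norm_of_nonneg (Real.exp_pos _).le]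
    have hE := Real.exp_pos (-(R * τ))
    have hn := hnorm τ hτ
    have hE2 := Real.exp_pos (-(R / 2 * τ))
    have hE3 := Real.exp_pos (-(R * r / 4))
    have hC3 : 0 ≤ C * R ^ 3 := by positivity
    by_cases hτr : τ < r / 2
    · have h1 := hF1 (1 + (e : ℝ) - Complex.I * τ) (by rw [hre]; linarith) (by linarith)
      have h2 : Real.exp (-(R * τ)) * ‖F (1 + (e : ℝ) - Complex.I * τ) -
          (A : ℝ) * (((1 : ℂ) + (e : ℝ) - Complex.I * τ) - 1)‖ ≤
          Real.exp (-(R * τ)) * ((1 / 8) * (e + τ)) :=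
        mul_le_mul_of_nonneg_left (by linarith) hE.le
      refine h2.trans ?_
      have h3 : 0 ≤ Real.exp (-(R * r / 4)) * ((C * R ^ 3 + 2 * e) * Real.exp (-(R / 2 * τ)) +
          2 * (τ * Real.exp (-(R / 2 * τ)))) := by positivity
      have h4 : g τ = (1 / 8) * (e * Real.exp (-(R * τ)) + τ * Real.exp (-(R * τ))) +
        Real.exp (-(R * r / 4)) * ((C * R ^ 3 + 2 * e) * Real.exp (-(R / 2 * τ)) +
        2 * (τ * Real.exp (-(R / 2 * τ)))) := rfl
      rw [h4]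
      linarith
    · push Not at hτr
      have h1 := hF (1 + (e : ℝ) - Complex.I * τ) (by rw [hre]; linarith) (by rw [hre]; linarith)
      rw [hre] at h1
      have h5 : C / (1 + e - 1) = C * R ^ 3 := by
        rw [he]
        field_simp
        ring
      rw [h5] at h1
      have h6 : ‖F (1 + (e : ℝ) - Complex.I * τ) -
          (A : ℝ) * (((1 : ℂ) + (e : ℝ) - Complex.I * τ) - 1)‖ ≤ C * R ^ 3 + 2 * (e + τ) := by
        refine (norm_sub_le _ _).trans (add_le_add h1 ?_)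
        rw [norm_mul, Complex.norm_real, Real.norm_of_nonneg (by linarith)]
        exact mul_le_mul hA2 hn (norm_nonneg _) (by norm_num)
      have h7 : Real.exp (-(R * τ)) ≤ Real.exp (-(R * r / 4)) * Real.exp (-(R / 2 * τ)) := by
        rw [← Real.exp_add]
        apply Real.exp_le_exp.2
        nlinarith
      have h8 : 0 ≤ C * R ^ 3 + 2 * (e + τ) := by positivity
      calc Real.exp (-(R * τ)) * ‖F (1 + (e : ℝ) - Complex.I * τ) -
          (A : ℝ) * (((1 : ℂ) + (e : ℝ) - Complex.I * τ) - 1)‖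
          ≤ (Real.exp (-(R * r / 4)) * Real.exp (-(R / 2 * τ))) * (C * R ^ 3 + 2 * (e + τ)) :=
            mul_le_mul h7 h6 (norm_nonneg _) (by positivity)
        _ ≤ g τ := by
          have h4 : g τ = (1 / 8) * (e * Real.exp (-(R * τ)) + τ * Real.exp (-(R * τ))) +
            Real.exp (-(R * r / 4)) * ((C * R ^ 3 + 2 * e) * Real.exp (-(R / 2 * τ)) +
            2 * (τ * Real.exp (-(R / 2 * τ)))) := rfl
          have h9 : 0 ≤ (1 / 8) * (e * Real.exp (-(R * τ)) + τ * Real.exp (-(R * τ))) := by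
            positivity
          rw [h4]
          nlinarith
  have hPi : Integrable P μ := by
    refine Integrable.sub ?_ ?_
    · exact ((HL1_i0 R hR0).const_mul (A * e)).ofReal
    · exact ((HL1_i1 R hR0).const_mul A).ofReal.const_mul _
  have hPint : ∫ τ, P τ ∂μ = ((A * e * (1 / R) : ℝ) : ℂ) - Complex.I * ((A * (1 / R ^ 2) : ℝ) : ℂ) := by
    show ∫ τ, (((A * e * Real.exp (-(R * τ)) : ℝ) : ℂ) -
      Complex.I * ((A * (τ * Real.exp (-(R * τ))) : ℝ) : ℂ)) ∂μ = _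
    rw [integral_sub ((HL1_i0 R hR0).const_mul (A * e)).ofReal
      (((HL1_i1 R hR0).const_mul A).ofReal.const_mul _), integral_const_mul,
      integral_complex_ofReal, integral_complex_ofReal, integral_const_mul, integral_const_mul,
      HL1_int0 R hR0, HL1_int1 R hR0]
  have hGc : Continuous G := by
    refine Continuous.mul (by fun_prop) ?_
    rw [continuous_iff_continuousAt]
    intro τ
    have h1 : ContinuousAt F (1 + (e : ℝ) - Complex.I * τ) := hFc _ (by rw [hre]; linarith)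
    have h2 : ContinuousAt (fun τ : ℝ => ((1 : ℂ) + (e : ℝ) - Complex.I * τ)) τ := by fun_prop
    exact ContinuousAt.comp (f := fun τ : ℝ => ((1 : ℂ) + (e : ℝ) - Complex.I * τ)) h1 h2
  have hPc : Continuous P := by
    show Continuous (fun τ : ℝ => ((A * e * Real.exp (-(R * τ)) : ℝ) : ℂ) -
      Complex.I * ((A * (τ * Real.exp (-(R * τ))) : ℝ) : ℂ))
    fun_prop
  have hae : ∀ᵐ τ ∂μ, ‖G τ - P τ‖ ≤ g τ := by
    refine (ae_restrict_iff' measurableSet_Ioi).2 (Filter.Eventually.of_forall fun τ hτ => ?_)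
    exact hbound τ hτ
  have hDi : Integrable (fun τ => G τ - P τ) μ :=
    hgi.mono' (hGc.sub hPc).aestronglyMeasurable hae
  have hD : ‖∫ τ, (G τ - P τ) ∂μ‖ ≤ ∫ τ, g τ ∂μ := norm_integral_le_of_norm_le hgi hae
  have hsplit : ∫ τ, G τ ∂μ = ∫ τ, P τ ∂μ + ∫ τ, (G τ - P τ) ∂μ := by
    rw [← integral_add hPi hDi]
    congr 1
    funext τ
    ring
  have hPn : A / R ^ 2 ≤ ‖∫ τ, P τ ∂μ‖ := by
    rw [hPint]
    refine le_trans ?_ (Complex.abs_im_le_norm _)
    have h1 : (((A * e * (1 / R) : ℝ) : ℂ) - Complex.I * ((A * (1 / R ^ 2) : ℝ) : ℂ)).im =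
        -(A * (1 / R ^ 2)) := by
      simp only [Complex.sub_im, Complex.ofReal_im, Complex.mul_im, Complex.I_re, Complex.I_im,
        Complex.ofReal_re]
      ring
    rw [h1, abs_neg, abs_of_nonneg (by positivity)]
    exact le_of_eq (by ring)
  have hg2 : ∫ τ, g τ ∂μ ≤ 1 / (4 * R ^ 2) + 1 / (4 * R ^ 2) := by
    rw [hgint]
    refine add_le_add ?_ ?_
    · have h1 : e * (1 / R) ≤ 1 / R ^ 2 := by
        calc e * (1 / R) ≤ 1 / R * (1 / R) := mul_le_mul_of_nonneg_right heR (by positivity)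
          _ = 1 / R ^ 2 := by field_simp
      have h2 : 1 / (4 * R ^ 2) = 1 / 4 * (1 / R ^ 2) := by field_simp
      rw [h2]
      linarith
    · refine le_trans ?_ hexp
      refine mul_le_mul_of_nonneg_left ?_ (Real.exp_pos _).le
      have h1 : 1 / (R / 2) ≤ 2 := by
        rw [div_le_iff₀ hR2]
        linarith
      have h2 : 1 / (R / 2) ^ 2 ≤ 4 := by
        rw [div_le_iff₀ (by positivity)]
        nlinarith
      have h3 : 0 ≤ C * R ^ 3 + 2 * e := by positivity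
      calc (C * R ^ 3 + 2 * e) * (1 / (R / 2)) + 2 * (1 / (R / 2) ^ 2)
          ≤ (C * R ^ 3 + 2 * e) * 2 + 2 * 4 := by
            refine add_le_add (mul_le_mul_of_nonneg_left h1 h3) ?_
            linarith
        _ ≤ 2 * C * R ^ 3 + 12 := by linarith
  show 1 / R ^ 2 ≤ ‖∫ τ, G τ ∂μ‖
  rw [hsplit]
  have h1 : ‖∫ τ, P τ ∂μ‖ ≤ ‖∫ τ, P τ ∂μ + ∫ τ, (G τ - P τ) ∂μ‖ + ‖∫ τ, (G τ - P τ) ∂μ‖ := by
    have := norm_sub_le (∫ τ, P τ ∂μ + ∫ τ, (G τ - P τ) ∂μ) (∫ τ, (G τ - P τ) ∂μ)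
    rwa [add_sub_cancel_right] at this
  have h2 : A / R ^ 2 = A * (1 / R ^ 2) := by ring
  have h3 : 1 / (4 * R ^ 2) = 1 / 4 * (1 / R ^ 2) := by field_simp
  rw [h3] at hg2
  rw [h2] at hPn
  have h4 : 0 < 1 / R ^ 2 := by positivity
  nlinarith

/-! END -/

/-- TARGET -/
theorem laplace_near (r : ℝ) (hr : 0 < r) (C : ℝ) (F : ℂ → ℂ)
    (hF : ∀ w : ℂ, 1 < w.re → w.re ≤ 2 → ‖F w‖ ≤ C / (w.re - 1))
    (hFc : ∀ w : ℂ, 1 < w.re → ContinuousAt F w)
    (hF1 : ∀ w : ℂ, 1 < w.re → ‖w - 1‖ < r →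
      ‖F w - (Real.pi ^ 2 / 6 : ℝ) * (w - 1)‖ ≤ (1 / 8) * ‖w - 1‖) :
    ∃ R₀ : ℝ, 1 ≤ R₀ ∧ ∀ R ≥ R₀,
      1 / R ^ 2 ≤ ‖∫ τ in Set.Ioi (0 : ℝ), Complex.exp (-(R * τ)) *
        F (1 + (1 / R ^ 3 : ℝ) - Complex.I * τ)‖ := by
  have hpi := Real.pi_gt_d2
  have hpi2 := Real.pi_lt_d2
  have hA : 1.6 ≤ Real.pi ^ 2 / 6 := by nlinarith
  have hA2 : Real.pi ^ 2 / 6 ≤ 2 := by nlinarith
  obtain ⟨K, hK⟩ : ∃ K : ℝ, K = (2 * |C| + 12) * 4 * 720 * 4 ^ 6 / r ^ 6 := ⟨_, rfl⟩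
  have hK0 : 0 < K := by rw [hK]; positivity
  refine ⟨max 1 (max (3 / r) K), le_max_left _ _, ?_⟩
  intro R hR
  have hR1 : 1 ≤ R := (le_max_left _ _).trans hR
  have hR2 : 3 / r ≤ R := (le_max_left _ _).trans ((le_max_right _ _).trans hR)
  have hR3 : K ≤ R := (le_max_right _ _).trans ((le_max_right _ _).trans hR)
  have hR0 : 0 < R := by linarith
  have h := HL1_one r hr |C| (Real.pi ^ 2 / 6) (abs_nonneg _) hA hA2 F
    (fun w h1 h2 => (hF w h1 h2).trans (by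
      have : 0 < w.re - 1 := by linarith
      exact div_le_div_of_nonneg_right (le_abs_self C) this.le)) hFc hF1 R (1 / R ^ 3) hR1 rfl
    (by
      rw [div_le_iff₀ hr] at hR2
      rw [div_lt_iff₀ (by positivity)]
      have h1 : R ≤ R ^ 3 := by
        have : R ^ 1 ≤ R ^ 3 := pow_le_pow_right₀ hR1 (by norm_num)
        simpa using this
      nlinarith)
    (by
      have h1 := Real.pow_div_factorial_le_exp (R * r / 4) (by positivity) 6
      have h2 : Real.exp (-(R * r / 4)) ≤ 720 * 4 ^ 6 / (R * r) ^ 6 := by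
        rw [Real.exp_neg, inv_eq_one_div, div_le_div_iff₀ (Real.exp_pos _) (by positivity)]
        have h3 : ((6).factorial : ℝ) = 720 := by norm_num [Nat.factorial]
        rw [h3, div_le_iff₀ (by norm_num), div_pow, div_le_iff₀ (by norm_num)] at h1
        linarith
      have h4 : 2 * |C| * R ^ 3 + 12 ≤ (2 * |C| + 12) * R ^ 3 := by
        have h5 : 1 ≤ R ^ 3 := one_le_pow₀ hR1
        nlinarith
      calc Real.exp (-(R * r / 4)) * (2 * |C| * R ^ 3 + 12)
          ≤ (720 * 4 ^ 6 / (R * r) ^ 6) * ((2 * |C| + 12) * R ^ 3) :=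
            mul_le_mul h2 h4 (by positivity) (by positivity)
        _ = K / R * (1 / (4 * R ^ 2)) := by
            rw [hK]
            field_simp
        _ ≤ 1 * (1 / (4 * R ^ 2)) := by
            refine mul_le_mul_of_nonneg_right ?_ (by positivity)
            rw [div_le_one hR0]
            exact hR3
        _ = 1 / (4 * R ^ 2) := one_mul _)
  exact h

end Pool.Agent.Helper791.Cyc
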