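import Pool.Agent.Helper791_Cyc.Defs

set_option autoImplicit false

namespace Pool.Agent.Helper791.Cyc

open MeasureTheory Filter Topology Polynomial



/-! END -/

/-- TARGET -/
theorem near_one (η : ℝ) (hη : 0 < η) : ∃ r : ℝ, 0 < r ∧ ∀ w : ℂ, 1 < w.re → ‖w - 1‖ < r →
    ‖Complex.Gamma (1 + w) * riemannZeta (1 + w) / riemannZeta w - (Real.pi ^ 2 / 6 : ℝ) * (w - 1)‖
      ≤ η * ‖w - 1‖ := by
  have h1 := riemannZeta_residue_one
  have hc : ContinuousAt (fun w : ℂ => Complex.Gamma (1 + w) * riemannZeta (1 + w)) 1 := by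
    have e : (1 : ℂ) + 1 = 2 := by norm_num
    have ha : ContinuousAt (fun w : ℂ => 1 + w) (1 : ℂ) := by fun_prop
    have hG : ContinuousAt Complex.Gamma ((1 : ℂ) + 1) := by
      apply DifferentiableAt.continuousAt (𝕜 := ℂ)
      apply Complex.differentiableAt_Gamma
      intro m hm
      have := congrArg Complex.re hm
      simp at this
      have hm0 : (0 : ℝ) ≤ m := Nat.cast_nonneg m
      linarith
    have hZ : ContinuousAt riemannZeta ((1 : ℂ) + 1) := by
      apply DifferentiableAt.continuousAt (𝕜 := ℂ)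
      apply differentiableAt_riemannZeta
      norm_num
    exact (ContinuousAt.comp (g := Complex.Gamma) hG ha).mul
      (ContinuousAt.comp (g := riemannZeta) hZ ha)
  have hval : Complex.Gamma (1 + 1) * riemannZeta (1 + 1) = ((Real.pi ^ 2 / 6 : ℝ) : ℂ) := by
    have e : (1 : ℂ) + 1 = 2 := by norm_num
    have hG2 : Complex.Gamma 2 = 1 := by
      simp
    rw [e, hG2, riemannZeta_two]
    push_cast
    ring
  have h2 : Tendsto (fun w : ℂ => Complex.Gamma (1 + w) * riemannZeta (1 + w) /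
      ((w - 1) * riemannZeta w)) (𝓝[≠] 1) (𝓝 ((Real.pi ^ 2 / 6 : ℝ) : ℂ)) := by
    have h3 := (hc.tendsto.mono_left nhdsWithin_le_nhds : Tendsto _ (𝓝[≠] (1 : ℂ)) _).div h1
      one_ne_zero
    rw [div_one, hval] at h3
    exact h3
  rw [Metric.tendsto_nhdsWithin_nhds] at h2
  obtain ⟨r, hr, hr2⟩ := h2 η hη
  refine ⟨r, hr, ?_⟩
  intro w hw hwr
  have hne : w ≠ 1 := by
    intro h
    rw [h] at hw
    simp at hw
  have hne' : w - 1 ≠ 0 := sub_ne_zero.2 hne
  have h4 := hr2 (x := w) hne (by rw [dist_eq_norm]; exact hwr)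
  rw [dist_eq_norm] at h4
  have h5 : Complex.Gamma (1 + w) * riemannZeta (1 + w) / riemannZeta w -
      (Real.pi ^ 2 / 6 : ℝ) * (w - 1) =
      (Complex.Gamma (1 + w) * riemannZeta (1 + w) / ((w - 1) * riemannZeta w) -
        ((Real.pi ^ 2 / 6 : ℝ) : ℂ)) * (w - 1) := by
    rw [sub_mul]
    congr 1
    rw [mul_comm (w - 1) (riemannZeta w), ← div_div, div_mul_cancel₀ _ hne']
  rw [h5, norm_mul]
  exact mul_le_mul_of_nonneg_right h4.le (norm_nonneg _)

end Pool.Agent.Helper791.Cyc
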