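import Pool.Agent.Helper791_Cyc.Defs
import Pool.Agent.Helper791_Cyc.B
import Pool.Agent.Helper791_Cyc.E1
import Pool.Agent.Helper791_Cyc.E2
import Pool.Agent.Helper791_Cyc.F
import Pool.Agent.Helper791_Cyc.HL1
import Pool.Agent.Helper791_Cyc.HN
import Pool.Agent.Helper791_Cyc.HP

set_option autoImplicit false

namespace Pool.Agent.Helper791.Cyc

open MeasureTheory Filter Topology Polynomial



theorem HL2_one_sub (w : ℂ) (hw : 0 < w.re) : (1 - (2 : ℂ) ^ (-w)) ≠ 0 := by
  intro h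
  have h1 : (2 : ℂ) ^ (-w) = 1 := (sub_eq_zero.1 h).symm
  have h2 : ‖(2 : ℂ) ^ (-w)‖ = (2 : ℝ) ^ (-w.re) := by
    have := Complex.norm_cpow_eq_rpow_re_of_pos (show (0 : ℝ) < 2 by norm_num) (-w)
    simpa using this
  rw [h1, norm_one] at h2
  have h3 : (2 : ℝ) ^ (-w.re) < 1 := Real.rpow_lt_one_of_one_lt_of_neg (by norm_num) (by linarith)
  linarith

theorem HL2_gz (w : ℂ) (hw : 0 < w.re) :
    ContinuousAt (fun w => Complex.Gamma (1 + w) * riemannZeta (1 + w)) w := by
  have h1 : ContinuousAt (fun w : ℂ => 1 + w) w := by fun_prop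
  have h2 : ContinuousAt Complex.Gamma (1 + w) := by
    refine (Complex.differentiableAt_Gamma (1 + w) fun n hn => ?_).continuousAt
    have := congrArg Complex.re hn
    simp at this
    have h3 : (0 : ℝ) ≤ n := Nat.cast_nonneg n
    linarith
  have h4 : ContinuousAt riemannZeta (1 + w) := by
    refine (differentiableAt_riemannZeta fun hn => ?_).continuousAt
    have := congrArg Complex.re hn
    simp at this
    linarith
  exact (ContinuousAt.comp (f := fun w : ℂ => 1 + w) (g := Complex.Gamma) h2 h1).mul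
    (ContinuousAt.comp (f := fun w : ℂ => 1 + w) (g := riemannZeta) h4 h1)

theorem HL2_c_cont (w : ℂ) (hw : 0 < w.re) : ContinuousAt c w := by
  have hev : ∀ᶠ z in 𝓝 w, 0 < z.re :=
    (isOpen_lt continuous_const Complex.continuous_re).mem_nhds hw
  have heq : c =ᶠ[𝓝 w] fun w => Complex.Gamma (1 + w) * riemannZeta (1 + w) * (1 - 2 ^ (-w)) := by
    filter_upwards [hev] with z hz using c_eq z hz
  refine ContinuousAt.congr ?_ heq.symm
  have h2 : Continuous fun w : ℂ => (1 : ℂ) - 2 ^ (-w) :=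
    continuous_const.sub (Continuous.const_cpow continuous_neg (Or.inl two_ne_zero))
  exact (HL2_gz w hw).mul h2.continuousAt

theorem HL2_q_ne (i : ℕ) : (q i : ℂ) ≠ 0 := by
  have h : Nat.Prime (q i) := Nat.prime_nth_prime _
  exact_mod_cast h.ne_zero

theorem HL2_M_cont (k : ℕ) (w : ℂ) (hw : 0 < w.re) : ContinuousAt (M k) w := by
  have h2 : Continuous fun w : ℂ => ∏ i ∈ Finset.range k, (1 - (q i : ℂ) ^ (-w)) :=
    continuous_finsetProd _ fun i _ =>
      continuous_const.sub (Continuous.const_cpow continuous_neg (Or.inl (HL2_q_ne i)))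
  exact (HL2_c_cont w hw).mul h2.continuousAt

theorem HL2_M_lim (w : ℂ) (hw : 1 < w.re) : Tendsto (fun k => M k w) atTop
    (𝓝 (Complex.Gamma (1 + w) * riemannZeta (1 + w) / riemannZeta w)) := by
  have h1 := (prod_zeta w hw).const_mul (c w)
  have h2 : c w * ((1 - 2 ^ (-w)) * riemannZeta w)⁻¹ =
      Complex.Gamma (1 + w) * riemannZeta (1 + w) / riemannZeta w := by
    have h3 := HL2_one_sub w (by linarith)
    rw [c_eq w (by linarith), mul_inv]
    field_simp
  rw [h2] at h1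
  exact h1

theorem HL2_F_cont (w : ℂ) (hw : 1 < w.re) :
    ContinuousAt (fun w => Complex.Gamma (1 + w) * riemannZeta (1 + w) / riemannZeta w) w := by
  have h4 : ContinuousAt riemannZeta w := by
    refine (differentiableAt_riemannZeta fun hn => ?_).continuousAt
    rw [hn] at hw
    simp at hw
  exact (HL2_gz w (by linarith)).div h4 (riemannZeta_ne_zero_of_one_lt_re hw)

theorem HL2_int0 (k : ℕ) (s : ℝ) (hs : -1 < s) :
    Integrable (fun v : ℝ => h k v * Real.exp (s * v)) := by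
  have h1 := (M_int k (s : ℂ) (by simpa using hs)).re
  refine h1.congr (Eventually.of_forall fun v => ?_)
  have : (h k v : ℂ) * Complex.exp ((s : ℂ) * v) = ((h k v * Real.exp (s * v) : ℝ) : ℂ) := by
    push_cast; ring
  simp only [this]
  exact Complex.ofReal_re _


/-! END -/

/-- TARGET -/
theorem H_lower : ∃ c₀ : ℝ, 0 < c₀ ∧ ∃ R₀ : ℝ, 0 < R₀ ∧ ∀ R ≥ R₀, ∀ᶠ k : ℕ in atTop,
    c₀ / R ^ 2 ≤ ‖H k R‖ := by
  obtain ⟨C₀, hC₀⟩ := c_bdd
  obtain ⟨C₂, hC₂⟩ := prod_bound
  obtain ⟨r, hr, hnear⟩ := near_one (1 / 8) (by norm_num)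
  have hC₀nn : 0 ≤ C₀ := (norm_nonneg _).trans (hC₀ 0 le_rfl (by norm_num))
  have hMb : ∀ (k : ℕ) (w : ℂ), 1 < w.re → w.re ≤ 2 → ‖M k w‖ ≤ C₀ * C₂ / (w.re - 1) := by
    intro k w h1 h2
    unfold M
    rw [norm_mul, mul_div_assoc]
    exact mul_le_mul ((c_norm_le w (by linarith)).trans (hC₀ w.re (by linarith) h2)) (hC₂ k w h1 h2)
      (norm_nonneg _) hC₀nn
  have hMs : ∀ (k : ℕ) (σ : ℝ), 0 ≤ σ → σ ≤ 2 → ‖M k (σ : ℂ)‖ ≤ C₀ := by
    intro k σ h1 h2
    unfold M
    rw [norm_mul]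
    calc _ ≤ C₀ * 1 := mul_le_mul (hC₀ σ h1 h2) (prod_le_one k σ h1) (norm_nonneg _) hC₀nn
      _ = C₀ := mul_one _
  obtain ⟨F, hFdef⟩ : ∃ F : ℂ → ℂ, F = fun w =>
    Complex.Gamma (1 + w) * riemannZeta (1 + w) / riemannZeta w := ⟨_, rfl⟩
  have hlim : ∀ w : ℂ, 1 < w.re → Tendsto (fun k => M k w) atTop (𝓝 (F w)) := by
    intro w hw
    rw [hFdef]
    exact HL2_M_lim w hw
  have hFb : ∀ w : ℂ, 1 < w.re → w.re ≤ 2 → ‖F w‖ ≤ C₀ * C₂ / (w.re - 1) := by
    intro w h1 h2
    exact le_of_tendsto' (hlim w h1).norm fun k => hMb k w h1 h2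
  have hFc : ∀ w : ℂ, 1 < w.re → ContinuousAt F w := by
    intro w hw
    rw [hFdef]
    exact HL2_F_cont w hw
  obtain ⟨R₀, hR₀, hlap⟩ := laplace_near r hr (C₀ * C₂) F hFb hFc (fun w h1 h2 => by
    rw [hFdef]
    exact hnear w h1 h2)
  refine ⟨1 / 4, by norm_num, max R₀ (2 * C₀ + 1), by positivity, fun R hR => ?_⟩
  have hR1 : R₀ ≤ R := (le_max_left _ _).trans hR
  have hR2 : 2 * C₀ + 1 ≤ R := (le_max_right _ _).trans hR
  have hR3 : 1 ≤ R := hR₀.trans hR1
  have hRpos : 0 < R := by linarith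
  obtain ⟨e, he⟩ : ∃ e : ℝ, e = 1 / R ^ 3 := ⟨_, rfl⟩
  have he0 : 0 < e := by rw [he]; positivity
  have he1 : e ≤ 1 := by
    rw [he, div_le_one (by positivity)]
    exact one_le_pow₀ hR3
  obtain ⟨s, hs⟩ : ∃ s : ℝ, s = 1 + e := ⟨_, rfl⟩
  have hs0 : 0 < s := by linarith
  have hsC : (s : ℂ) = 1 + ((1 / R ^ 3 : ℝ) : ℂ) := by rw [hs, he]; push_cast; ring
  have hre : ∀ τ : ℝ, ((s : ℂ) - Complex.I * τ).re = s := by intro τ; simp
  -- the formula
  have hH : ∀ k, H k R = Complex.exp (-(s * (Complex.I * R))) * Complex.I *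
      (∫ τ in Set.Ioi (0 : ℝ), Complex.exp (-(R * τ)) * M k (s - Complex.I * τ)) -
      ∫ σ in (0 : ℝ)..s, Complex.exp (-(σ * (Complex.I * R))) * M k σ := by
    intro k
    have h0 : Integrable (h k) := by
      have := HL2_int0 k 0 (by norm_num)
      simpa using this
    have h1 := shift (h k) (h_cont k) s R hs0 hRpos h0 (HL2_int0 k s (by linarith))
    have h2 : ∀ τ : ℝ, (∫ v : ℝ, (h k v : ℂ) * Complex.exp ((s - Complex.I * τ) * v)) =
        M k (s - Complex.I * τ) := fun τ => M_eq k _ (by rw [hre]; linarith)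
    simp_rw [h2] at h1
    unfold H
    rw [h1]
    congr 1
    refine intervalIntegral.integral_congr fun σ hσ => ?_
    rw [Set.uIcc_of_le hs0.le] at hσ
    rw [M_eq k (σ : ℂ) (by simp; linarith [hσ.1])]
  -- the main term
  have hI : Tendsto (fun k => ∫ τ in Set.Ioi (0 : ℝ), Complex.exp (-(R * τ)) *
      M k (s - Complex.I * τ)) atTop (𝓝 (∫ τ in Set.Ioi (0 : ℝ), Complex.exp (-(R * τ)) *
      F (s - Complex.I * τ))) := by
    refine tendsto_integral_of_dominated_convergence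
      (fun τ => Real.exp (-R * τ) * (C₀ * C₂ / e)) ?_ ?_ ?_ ?_
    · intro k
      have hc : Continuous fun τ : ℝ => Complex.exp (-(R * τ)) * M k (s - Complex.I * τ) := by
        rw [continuous_iff_continuousAt]
        intro τ
        have h1 : ContinuousAt (fun τ : ℝ => (s : ℂ) - Complex.I * τ) τ := by fun_prop
        have h2 : ContinuousAt (M k) ((s : ℂ) - Complex.I * τ) :=
          HL2_M_cont k _ (by rw [hre]; exact hs0)
        have h3 : ContinuousAt (fun τ : ℝ => Complex.exp (-(R * τ))) τ := by fun_prop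
        exact h3.mul (ContinuousAt.comp (f := fun τ : ℝ => (s : ℂ) - Complex.I * τ) h2 h1)
      exact hc.aestronglyMeasurable
    · exact (exp_neg_integrableOn_Ioi 0 hRpos).mul_const _
    · intro k
      refine Eventually.of_forall fun τ => ?_
      have h1 : ‖Complex.exp (-(R * τ) : ℂ)‖ = Real.exp (-R * τ) := by
        rw [Complex.norm_exp]; congr 1; simp
      rw [norm_mul, h1]
      refine mul_le_mul_of_nonneg_left ?_ (Real.exp_pos _).le
      have h2 := hMb k (s - Complex.I * τ) (by rw [hre]; linarith) (by rw [hre]; linarith)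
      rw [hre] at h2
      have h3 : s - 1 = e := by linarith
      rwa [h3] at h2
    · refine Eventually.of_forall fun τ => ?_
      exact (hlim _ (by rw [hre]; linarith)).const_mul _
  have hIlow : 1 / R ^ 2 ≤ ‖∫ τ in Set.Ioi (0 : ℝ), Complex.exp (-(R * τ)) *
      F (s - Complex.I * τ)‖ := by
    rw [hsC]
    exact hlap R hR1
  -- measurability on intervals
  have hmeas : ∀ (k : ℕ) (a b : ℝ), 0 ≤ a → a ≤ b → b ≤ 2 →
      AEStronglyMeasurable (fun σ : ℝ => Complex.exp (-(σ * (Complex.I * R))) * M k σ)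
        (volume.restrict (Set.Ioc a b)) := by
    intro k a b ha hab hb
    refine ContinuousOn.aestronglyMeasurable (fun σ hσ => ?_) measurableSet_Ioc
    have h2 : ContinuousAt (M k) (σ : ℂ) := HL2_M_cont k _ (by simp; linarith [hσ.1])
    have h1 : ContinuousAt (fun σ : ℝ => (σ : ℂ)) σ := by fun_prop
    have h3 : ContinuousAt (fun σ : ℝ => Complex.exp (-(σ * (Complex.I * R)))) σ := by fun_prop
    exact (h3.mul (ContinuousAt.comp (f := fun σ : ℝ => (σ : ℂ)) h2 h1)).continuousWithinAt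
  have hexp1 : ∀ σ : ℝ, ‖Complex.exp (-(σ * (Complex.I * R)))‖ = 1 := by
    intro σ
    rw [Complex.norm_exp]
    simp
  have hbd : ∀ (k : ℕ) (σ : ℝ), 0 ≤ σ → σ ≤ 2 →
      ‖Complex.exp (-(σ * (Complex.I * R))) * M k σ‖ ≤ C₀ := by
    intro k σ h1 h2
    rw [norm_mul, hexp1, one_mul]
    exact hMs k σ h1 h2
  have hii : ∀ (k : ℕ) (a b : ℝ), 0 ≤ a → a ≤ b → b ≤ 2 →
      IntervalIntegrable (fun σ : ℝ => Complex.exp (-(σ * (Complex.I * R))) * M k σ) volume a b := by
    intro k a b ha hab hb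
    rw [intervalIntegrable_iff_integrableOn_Ioc_of_le hab]
    refine Integrable.mono' (g := fun _ => C₀) (integrable_const _) (hmeas k a b ha hab hb) ?_
    refine (ae_restrict_iff' measurableSet_Ioc).2 (Eventually.of_forall fun σ hσ => ?_)
    exact hbd k σ (by linarith [hσ.1]) (by linarith [hσ.2])
  have hsplit : ∀ k, (∫ σ in (0 : ℝ)..s, Complex.exp (-(σ * (Complex.I * R))) * M k σ) =
      (∫ σ in (0 : ℝ)..1, Complex.exp (-(σ * (Complex.I * R))) * M k σ) +
      ∫ σ in (1 : ℝ)..s, Complex.exp (-(σ * (Complex.I * R))) * M k σ := by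
    intro k
    rw [intervalIntegral.integral_add_adjacent_intervals
      (hii k 0 1 le_rfl zero_le_one (by norm_num))
      (hii k 1 s zero_le_one (by linarith) (by linarith))]
  have hA : Tendsto (fun k => ∫ σ in (0 : ℝ)..1, Complex.exp (-(σ * (Complex.I * R))) * M k σ)
      atTop (𝓝 0) := by
    have h0 : (0 : ℂ) = ∫ σ in (0 : ℝ)..1, (0 : ℂ) := by simp
    rw [h0]
    refine intervalIntegral.tendsto_integral_filter_of_dominated_convergence (fun _ => C₀) ?_ ?_ ?_ ?_
    · refine Eventually.of_forall fun k => ?_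
      rw [Set.uIoc_of_le zero_le_one]
      exact hmeas k 0 1 le_rfl zero_le_one (by norm_num)
    · refine Eventually.of_forall fun k => Eventually.of_forall fun σ hσ => ?_
      rw [Set.uIoc_of_le zero_le_one] at hσ
      exact hbd k σ hσ.1.le (by linarith [hσ.2])
    · exact intervalIntegrable_const
    · refine Eventually.of_forall fun σ hσ => ?_
      rw [Set.uIoc_of_le zero_le_one] at hσ
      have h1 := ((prod_zero σ hσ.1 hσ.2).const_mul (c σ)).const_mul
        (Complex.exp (-(σ * (Complex.I * R))))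
      rw [mul_zero, mul_zero] at h1
      exact h1
  have hB : ∀ k, ‖∫ σ in (1 : ℝ)..s, Complex.exp (-(σ * (Complex.I * R))) * M k σ‖ ≤ C₀ * e := by
    intro k
    have h1 := intervalIntegral.norm_integral_le_of_norm_le_const (a := 1) (b := s) (C := C₀)
      (f := fun σ : ℝ => Complex.exp (-(σ * (Complex.I * R))) * M k σ) (fun σ hσ => by
        rw [Set.uIoc_of_le (by linarith)] at hσ
        exact hbd k σ (by linarith [hσ.1]) (by linarith [hσ.2]))
    have h3 : |s - 1| = e := by rw [hs, add_sub_cancel_left, abs_of_pos he0]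
    rwa [h3] at h1
  have hCe : C₀ * e ≤ 1 / 2 * (1 / R ^ 2) := by
    have h1 : 1 / R ^ 2 = R * e := by rw [he]; field_simp
    rw [h1]
    nlinarith
  have hRR : 0 < 1 / R ^ 2 := by positivity
  have e1 : ∀ᶠ k in atTop, 7 / 8 * (1 / R ^ 2) < ‖∫ τ in Set.Ioi (0 : ℝ), Complex.exp (-(R * τ)) *
      M k (s - Complex.I * τ)‖ :=
    (hI.norm).eventually (lt_mem_nhds (by linarith))
  have e2 : ∀ᶠ k in atTop, ‖∫ σ in (0 : ℝ)..1, Complex.exp (-(σ * (Complex.I * R))) * M k σ‖ <
      1 / 8 * (1 / R ^ 2) := by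
    have h1 := hA.norm
    rw [norm_zero] at h1
    exact h1.eventually (gt_mem_nhds (by linarith))
  filter_upwards [e1, e2] with k h1 h2
  rw [hH k, hsplit k]
  have h3 := hB k
  have h4 : ‖Complex.exp (-(s * (Complex.I * R))) * Complex.I *
      (∫ τ in Set.Ioi (0 : ℝ), Complex.exp (-(R * τ)) * M k (s - Complex.I * τ))‖ =
      ‖∫ τ in Set.Ioi (0 : ℝ), Complex.exp (-(R * τ)) * M k (s - Complex.I * τ)‖ := by
    rw [norm_mul, norm_mul, hexp1, Complex.norm_I, one_mul, one_mul]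
  have h5 := norm_sub_norm_le (Complex.exp (-(s * (Complex.I * R))) * Complex.I *
      (∫ τ in Set.Ioi (0 : ℝ), Complex.exp (-(R * τ)) * M k (s - Complex.I * τ)))
      ((∫ σ in (0 : ℝ)..1, Complex.exp (-(σ * (Complex.I * R))) * M k σ) +
      ∫ σ in (1 : ℝ)..s, Complex.exp (-(σ * (Complex.I * R))) * M k σ)
  have h6 := norm_add_le (∫ σ in (0 : ℝ)..1, Complex.exp (-(σ * (Complex.I * R))) * M k σ)
    (∫ σ in (1 : ℝ)..s, Complex.exp (-(σ * (Complex.I * R))) * M k σ)
  rw [h4] at h5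
  have h7 : 1 / 4 / R ^ 2 = 1 / 4 * (1 / R ^ 2) := by ring
  rw [h7]
  linarith

end Pool.Agent.Helper791.Cyc
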