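import Pool.Agent.Helper791_Cyc.Defs
import Pool.Agent.Helper791_Cyc.B
import Pool.Agent.Helper791_Cyc.E1
import Pool.Agent.Helper791_Cyc.E2
import Pool.Agent.Helper791_Cyc.HP

set_option autoImplicit false

namespace Pool.Agent.Helper791.Cyc

open MeasureTheory Filter Topology Polynomial



theorem I_base (a : ℝ) (ha : 0 < a) : ∃ C : ℝ, 0 < C ∧ ∀ v, |base v| ≤ C * Real.exp (-(a * v)) := by
  obtain ⟨n, hn⟩ := exists_nat_ge (a + 1)
  refine ⟨(n.factorial : ℝ), by exact_mod_cast n.factorial_pos, fun v => ?_⟩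
  have hf : (1 : ℝ) ≤ n.factorial := by exact_mod_cast n.factorial_pos
  have key : Real.exp ((a + 1) * v) ≤ n.factorial * Real.exp (Real.exp v) := by
    rcases le_total v 0 with hv | hv
    · have h1 : Real.exp ((a + 1) * v) ≤ 1 := by
        rw [Real.exp_le_one_iff]
        nlinarith
      have h2 : 1 ≤ Real.exp (Real.exp v) := Real.one_le_exp (Real.exp_pos v).le
      nlinarith
    · have h1 : Real.exp ((a + 1) * v) ≤ Real.exp v ^ n := by
        rw [← Real.exp_nat_mul]
        exact Real.exp_le_exp.2 (mul_le_mul_of_nonneg_right hn hv)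
      have h2 := Real.pow_div_factorial_le_exp (Real.exp v) (Real.exp_pos v).le n
      rw [div_le_iff₀ (by linarith)] at h2
      linarith
  have hE : 0 < Real.exp (Real.exp v) := Real.exp_pos _
  have h0 : 0 ≤ base v := by unfold base; positivity
  rw [abs_of_nonneg h0]
  unfold base
  rw [div_le_iff₀ (by linarith)]
  have e1 : Real.exp ((a + 1) * v) = Real.exp v / Real.exp (-(a * v)) := by
    rw [← Real.exp_sub]
    ring_nf
  rw [e1, div_le_iff₀ (Real.exp_pos _)] at key
  have h3 : 0 ≤ (n.factorial : ℝ) * Real.exp (-(a * v)) := by positivity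
  linarith

/-- `q_i ^ (-a)` -/
noncomputable def I_r (a : ℝ) (i : ℕ) : ℝ := Real.exp (-(a * Real.log (q i)))

theorem I_q (i : ℕ) : i + 1 ≤ q i := by
  unfold q
  exact (Nat.nth_strictMono Nat.infinite_setOfPred_prime).le_apply

theorem I_r_pos (a : ℝ) (i : ℕ) : 0 < I_r a i := Real.exp_pos _

theorem I_r_sum (a : ℝ) (ha : 1 < a) : Summable (I_r a) := by
  have h1 : Summable (fun n : ℕ => ((n + 1 : ℕ) : ℝ) ^ (-a)) := by
    have := (Real.summable_nat_rpow (p := -a)).2 (by linarith)
    exact (summable_nat_add_iff 1).2 this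
  refine Summable.of_nonneg_of_le (fun i => (I_r_pos a i).le) (fun i => ?_) h1
  have hpos : (0 : ℝ) < ((i + 1 : ℕ) : ℝ) := by positivity
  rw [Real.rpow_def_of_pos hpos]
  unfold I_r
  rw [Real.exp_le_exp]
  have h2 : Real.log ((i + 1 : ℕ) : ℝ) ≤ Real.log (q i) :=
    Real.log_le_log hpos (by exact_mod_cast I_q i)
  nlinarith

theorem I_h (a : ℝ) (C : ℝ) (hC : 0 < C) (hb : ∀ v, |base v| ≤ C * Real.exp (-(a * v))) (k : ℕ) :
    ∀ v, |h k v| ≤ C * (∏ i ∈ Finset.range k, (1 + I_r a i)) * Real.exp (-(a * v)) := by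
  induction k with
  | zero =>
    intro v
    rw [Finset.prod_range_zero, mul_one]
    exact hb v
  | succ k ih =>
    intro v
    have e : h (k + 1) v = h k v - h k (v + Real.log (q k)) := rfl
    rw [e, Finset.prod_range_succ]
    have h1 := ih v
    have h2 := ih (v + Real.log (q k))
    have e2 : Real.exp (-(a * (v + Real.log (q k)))) = Real.exp (-(a * v)) * I_r a k := by
      unfold I_r
      rw [← Real.exp_add]
      congr 1
      ring
    rw [e2] at h2
    calc |h k v - h k (v + Real.log (q k))| ≤ |h k v| + |h k (v + Real.log (q k))| := abs_sub _ _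
      _ ≤ _ := add_le_add h1 h2
      _ = _ := by ring

theorem I_bound (a : ℝ) (ha : 1 < a) : ∃ C : ℝ, 0 < C ∧ ∀ k v,
    |h k v| ≤ C * Real.exp (-(a * v)) := by
  obtain ⟨C, hC, hb⟩ := I_base a (by linarith)
  refine ⟨C * Real.exp (∑' i, I_r a i), by positivity, fun k v => ?_⟩
  refine (I_h a C hC hb k v).trans ?_
  refine mul_le_mul_of_nonneg_right ?_ (Real.exp_pos _).le
  refine mul_le_mul_of_nonneg_left ?_ hC.le
  calc ∏ i ∈ Finset.range k, (1 + I_r a i) ≤ ∏ i ∈ Finset.range k, Real.exp (I_r a i) := by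
        refine Finset.prod_le_prod (fun i _ => ?_) (fun i _ => ?_)
        · have := I_r_pos a i; linarith
        · have := Real.add_one_le_exp (I_r a i); linarith
    _ = Real.exp (∑ i ∈ Finset.range k, I_r a i) := by rw [Real.exp_sum]
    _ ≤ Real.exp (∑' i, I_r a i) := Real.exp_le_exp.2
        ((I_r_sum a ha).sum_le_tsum _ (fun i _ => (I_r_pos a i).le))

theorem I_lim (v : ℝ) : ∃ y, Tendsto (fun k => h k v) atTop (𝓝 y) := by
  obtain ⟨C, hC, hb⟩ := I_bound 2 (by norm_num)
  apply cauchySeq_tendsto_of_complete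
  apply cauchySeq_of_summable_dist
  refine Summable.of_nonneg_of_le (fun k => dist_nonneg) (fun k => ?_)
    ((I_r_sum 2 (by norm_num)).mul_left (C * Real.exp (-(2 * v))))
  rw [dist_eq_norm, Real.norm_eq_abs]
  have e : h k v - h (k + 1) v = h k (v + Real.log (q k)) := by
    have : h (k + 1) v = h k v - h k (v + Real.log (q k)) := rfl
    rw [this]
    ring
  show |h k v - h (k + 1) v| ≤ _
  rw [e]
  refine (hb k _).trans (le_of_eq ?_)
  unfold I_r
  rw [mul_assoc, ← Real.exp_add]
  congr 2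
  ring

theorem I_exp_abs (δ : ℝ) (hδ : 0 < δ) : Integrable (fun v : ℝ => Real.exp (-(δ * |v|))) := by
  have h1 : IntegrableOn (fun v : ℝ => Real.exp (-(δ * |v|))) (Set.Iic 0) := by
    refine (integrableOn_exp_mul_Iic hδ 0).congr_fun (fun v hv => ?_) measurableSet_Iic
    have : v ≤ 0 := hv
    show Real.exp (δ * v) = Real.exp (-(δ * |v|))
    rw [abs_of_nonpos this]
    ring_nf
  have h2 : IntegrableOn (fun v : ℝ => Real.exp (-(δ * |v|))) (Set.Ioi 0) := by
    refine (integrableOn_exp_mul_Ioi (a := -δ) (by linarith) 0).congr_fun (fun v hv => ?_)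
      measurableSet_Ioi
    have : 0 < v := hv
    show Real.exp (-δ * v) = Real.exp (-(δ * |v|))
    rw [abs_of_pos this]
    ring_nf
  rw [← integrableOn_univ, ← Set.Iic_union_Ioi (a := (0 : ℝ))]
  exact h1.union h2

theorem I_dom (w : ℝ) (hw : 1 < w) : ∃ B : ℝ → ℝ, Integrable B ∧
    ∀ k v, |h k v| * Real.exp (w * v) ≤ B v := by
  obtain ⟨δ, hδ⟩ : ∃ δ, δ = (w - 1) / 2 := ⟨_, rfl⟩
  have hδ0 : 0 < δ := by rw [hδ]; linarith
  obtain ⟨C1, hC1, h1⟩ := I_bound (w - δ) (by linarith)
  obtain ⟨C2, hC2, h2⟩ := I_bound (w + δ) (by linarith)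
  refine ⟨fun v => (C1 + C2) * Real.exp (-(δ * |v|)), (I_exp_abs δ hδ0).const_mul _, ?_⟩
  intro k v
  have hE := Real.exp_pos (w * v)
  rcases le_total v 0 with hv | hv
  · have h3 := mul_le_mul_of_nonneg_right (h1 k v) hE.le
    refine h3.trans ?_
    show _ ≤ (C1 + C2) * Real.exp (-(δ * |v|))
    rw [mul_assoc, ← Real.exp_add, abs_of_nonpos hv]
    have e : -((w - δ) * v) + w * v = -(δ * -v) := by ring
    rw [e]
    exact mul_le_mul_of_nonneg_right (by linarith) (Real.exp_pos _).le
  · have h3 := mul_le_mul_of_nonneg_right (h2 k v) hE.le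
    refine h3.trans ?_
    show _ ≤ (C1 + C2) * Real.exp (-(δ * |v|))
    rw [mul_assoc, ← Real.exp_add, abs_of_nonneg hv]
    have e : -((w + δ) * v) + w * v = -(δ * v) := by ring
    rw [e]
    exact mul_le_mul_of_nonneg_right (by linarith) (Real.exp_pos _).le

/-! END -/

/-- TARGET -/
theorem limit_fun : ∃ g : ℝ → ℝ, Measurable g ∧
    (∀ v, Tendsto (fun k => h k v) atTop (𝓝 (g v))) ∧
    (∀ a : ℝ, 1 < a → ∃ C : ℝ, ∀ v, |g v| ≤ C * Real.exp (-(a * v))) ∧
    ∀ w : ℝ, 1 < w → Integrable (fun v : ℝ => g v * Real.exp (w * v)) ∧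
      ((∫ v : ℝ, g v * Real.exp (w * v) : ℝ) : ℂ) =
        Complex.Gamma (1 + w) * riemannZeta (1 + w) / riemannZeta w := by
  choose g hg using I_lim
  have hmeas : Measurable g := by
    refine measurable_of_tendsto_metrizable (fun k => (h_cont k).measurable)
      (tendsto_pi_nhds.2 hg)
  refine ⟨g, hmeas, hg, ?_, ?_⟩
  · intro a ha
    obtain ⟨C, hC, hb⟩ := I_bound a ha
    exact ⟨C, fun v => le_of_tendsto (hg v).abs (Eventually.of_forall fun k => hb k v)⟩
  · intro w hw
    obtain ⟨B, hB, hdom⟩ := I_dom w hw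
    have hgB : ∀ v, |g v| * Real.exp (w * v) ≤ B v := fun v =>
      le_of_tendsto ((hg v).abs.mul_const _) (Eventually.of_forall fun k => hdom k v)
    have hint : Integrable (fun v : ℝ => g v * Real.exp (w * v)) := by
      refine hB.mono' ?_ (Eventually.of_forall fun v => ?_)
      · exact (hmeas.mul (by fun_prop)).aestronglyMeasurable
      · rw [Real.norm_eq_abs, abs_mul, abs_of_pos (Real.exp_pos _)]
        exact hgB v
    refine ⟨hint, ?_⟩
    have e1 : ((∫ v : ℝ, g v * Real.exp (w * v) : ℝ) : ℂ) =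
        ∫ v : ℝ, (g v : ℂ) * Complex.exp ((w : ℂ) * v) := by
      refine (integral_ofReal (𝕜 := ℂ)).symm.trans ?_
      refine integral_congr_ae (Eventually.of_forall fun v => ?_)
      show ((g v * Real.exp (w * v) : ℝ) : ℂ) = (g v : ℂ) * Complex.exp ((w : ℂ) * v)
      push_cast
      rfl
    rw [e1]
    have hlim : Tendsto (fun k : ℕ => ∫ v : ℝ, (h k v : ℂ) * Complex.exp ((w : ℂ) * v)) atTop
        (𝓝 (∫ v : ℝ, (g v : ℂ) * Complex.exp ((w : ℂ) * v))) := by
      refine tendsto_integral_of_dominated_convergence B (fun k => ?_) hB (fun k => ?_) ?_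
      · have := (h_cont k).measurable
        exact ((Complex.measurable_ofReal.comp this).mul (by fun_prop)).aestronglyMeasurable
      · refine Eventually.of_forall fun v => ?_
        rw [norm_mul, Complex.norm_real, Real.norm_eq_abs, Complex.norm_exp]
        have : ((w : ℂ) * v).re = w * v := by
          rw [← Complex.ofReal_mul, Complex.ofReal_re]
        rw [this]
        exact hdom k v
      · refine Eventually.of_forall fun v => ?_
        exact ((Complex.continuous_ofReal.tendsto _).comp (hg v)).mul_const _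
    have hre : (w : ℂ).re = w := Complex.ofReal_re w
    have hM : (fun k : ℕ => ∫ v : ℝ, (h k v : ℂ) * Complex.exp ((w : ℂ) * v)) =
        fun k => M k w := by
      funext k
      exact M_eq k w (by rw [hre]; linarith)
    rw [hM] at hlim
    have hlim2 : Tendsto (fun k : ℕ => M k w) atTop
        (𝓝 (c w * (((1 - 2 ^ (-(w : ℂ))) * riemannZeta w)⁻¹))) :=
      (prod_zeta w (by rw [hre]; exact hw)).const_mul _
    rw [tendsto_nhds_unique hlim hlim2, c_eq w (by rw [hre]; linarith)]
    have hne : (1 : ℂ) - 2 ^ (-(w : ℂ)) ≠ 0 := by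
      intro h0
      have h1 : (2 : ℂ) ^ (-(w : ℂ)) = 1 := by
        rw [sub_eq_zero] at h0
        exact h0.symm
      have h2 : ‖(2 : ℂ) ^ (-(w : ℂ))‖ = (2 : ℝ) ^ (-w) := by
        have := Complex.norm_cpow_eq_rpow_re_of_pos (show (0 : ℝ) < 2 by norm_num) (-(w : ℂ))
        rw [show ((2 : ℝ) : ℂ) = 2 by norm_num] at this
        rw [this, Complex.neg_re, hre]
      rw [h1, norm_one] at h2
      have h3 : (2 : ℝ) ^ (-w) < 1 := Real.rpow_lt_one_of_one_lt_of_neg (by norm_num) (by linarith)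
      linarith
    rw [mul_inv]
    field_simp

end Pool.Agent.Helper791.Cyc
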