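import Mathlib
import Pool.Agent.TH988.RB.Lan
import Pool.Agent.H332R2.FL.ZeroExists

set_option autoImplicit false

namespace Pool.Agent.Helper791.Cyc

open MeasureTheory Filter Topology Polynomial

/-- Landau's lemma (library `Pool.Agent.TH988.RB.landau_lap`) -/
theorem landau_lap {f : ℝ → ℝ} (hf : Measurable f) (h0 : ∀ u, 0 < u → 0 ≤ f u)
    {a w1 : ℝ} (h1 : ∀ w > w1, IntegrableOn (fun u => f u * Real.exp (-(w * u))) (Set.Ioi 0))
    {g : ℝ → ℝ} (hg : ∀ w > a, AnalyticAt ℝ g w)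
    (heq : ∀ w > w1, a < w → (∫ u in Set.Ioi 0, f u * Real.exp (-(w * u))) = g w) :
    (∀ w > a, IntegrableOn (fun u => f u * Real.exp (-(w * u))) (Set.Ioi 0)) ∧
      ∀ w > a, (∫ u in Set.Ioi 0, f u * Real.exp (-(w * u))) = g w :=
  Pool.Agent.TH988.RB.landau_lap hf h0 h1 hg heq

/-- a zero of zeta (library `H332.FL.exists_zero_re_ge_half`) -/
theorem exists_zero : ∃ ρ : ℂ, riemannZeta ρ = 0 ∧ 1 / 2 ≤ ρ.re ∧ ρ.re < 1 ∧ 1 < ρ.im := by
  obtain ⟨ρ, h1, h2, h3, h4, -⟩ := H332.FL.exists_zero_re_ge_half 0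
  exact ⟨ρ, h1, h2, h3, h4⟩

end Pool.Agent.Helper791.Cyc
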