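import Pool.Agent.Helper791_Cyc.Defs
import Pool.Agent.Helper791_Cyc.E2
import Pool.Agent.Helper791_Cyc.Lib

set_option autoImplicit false

namespace Pool.Agent.Helper791.Cyc

open MeasureTheory Filter Topology Polynomial



theorem J_lap (φ : ℝ → ℝ) (hφ : Measurable φ) (S : Set ℝ) (A B : ℝ)
    (h : ∀ t, A < t → t < B → IntegrableOn (fun v => φ v * Real.exp (t * v)) S)
    (w : ℂ) (hA : A < w.re) (hB : w.re < B) :
    DifferentiableAt ℂ (fun w : ℂ => ∫ v in S, (φ v : ℂ) * Complex.exp (w * v)) w := by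
  obtain ⟨δ, hδ, h1, h2⟩ : ∃ δ : ℝ, 0 < δ ∧ A < w.re - 2 * δ ∧ w.re + 2 * δ < B := by
    refine ⟨min ((w.re - A) / 3) ((B - w.re) / 3), lt_min (by linarith) (by linarith), ?_, ?_⟩
    · have := min_le_left ((w.re - A) / 3) ((B - w.re) / 3)
      linarith
    · have := min_le_right ((w.re - A) / 3) ((B - w.re) / 3)
      linarith
  have hm : Measurable (fun v => (φ v : ℂ)) := Complex.measurable_ofReal.comp hφ
  have key := hasDerivAt_integral_of_dominated_loc_of_deriv_le (μ := volume.restrict S)
    (F := fun (w : ℂ) (v : ℝ) => (φ v : ℂ) * Complex.exp (w * v))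
    (F' := fun (w : ℂ) (v : ℝ) => (φ v : ℂ) * (Complex.exp (w * v) * v)) (x₀ := w)
    (s := Metric.ball w δ)
    (bound := fun v => δ⁻¹ * (|φ v| * Real.exp ((w.re - 2 * δ) * v) +
      |φ v| * Real.exp ((w.re + 2 * δ) * v)))
    (Metric.ball_mem_nhds w hδ) ?_ ?_ ?_ ?_ ?_ ?_
  · exact key.2.differentiableAt
  · exact Eventually.of_forall fun z => (hm.mul (by fun_prop)).aestronglyMeasurable
  · have h3 := h w.re hA hB
    unfold IntegrableOn at h3
    refine h3.mono (hm.mul (by fun_prop)).aestronglyMeasurable (Eventually.of_forall fun v => ?_)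
    rw [norm_mul, norm_mul, Complex.norm_exp, Complex.norm_real,
      Real.norm_of_nonneg (Real.exp_pos _).le]
    simp
  · exact (hm.mul (by fun_prop)).aestronglyMeasurable
  · refine Eventually.of_forall fun v z hz => ?_
    have hz2 : |z.re - w.re| ≤ δ := by
      have h3 := Complex.abs_re_le_norm (z - w)
      rw [Complex.sub_re] at h3
      exact h3.trans (mem_ball_iff_norm.1 hz).le
    rw [norm_mul, norm_mul, Complex.norm_exp, Complex.norm_real, Complex.norm_real,
      Real.norm_eq_abs, Real.norm_eq_abs]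
    have h4 : (z * (v : ℂ)).re = z.re * v := by simp
    rw [h4]
    have h5 : |v| ≤ δ⁻¹ * Real.exp (δ * |v|) := by
      have h6 := Real.add_one_le_exp (δ * |v|)
      rw [inv_mul_eq_div, le_div_iff₀ hδ]
      linarith
    have h6 : z.re * v ≤ w.re * v + δ * |v| := by
      have h7 : (z.re - w.re) * v ≤ |z.re - w.re| * |v| := by
        rw [← abs_mul]; exact le_abs_self _
      have h8 : |z.re - w.re| * |v| ≤ δ * |v| := mul_le_mul_of_nonneg_right hz2 (abs_nonneg v)
      linarith
    have h7 : Real.exp (z.re * v) * |v| ≤ δ⁻¹ * Real.exp (w.re * v + 2 * δ * |v|) := by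
      calc Real.exp (z.re * v) * |v| ≤ Real.exp (w.re * v + δ * |v|) * (δ⁻¹ * Real.exp (δ * |v|)) :=
            mul_le_mul (Real.exp_le_exp.2 h6) h5 (abs_nonneg v) (Real.exp_pos _).le
        _ = δ⁻¹ * (Real.exp (w.re * v + δ * |v|) * Real.exp (δ * |v|)) := by ring
        _ = _ := by rw [← Real.exp_add]; congr 2; ring
    have h8 : Real.exp (w.re * v + 2 * δ * |v|) ≤ Real.exp ((w.re - 2 * δ) * v) +
        Real.exp ((w.re + 2 * δ) * v) := by
      rcases abs_cases v with ⟨h9, _⟩ | ⟨h9, _⟩
      · rw [h9]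
        have : w.re * v + 2 * δ * v = (w.re + 2 * δ) * v := by ring
        rw [this]
        linarith [Real.exp_pos ((w.re - 2 * δ) * v)]
      · rw [h9]
        have : w.re * v + 2 * δ * -v = (w.re - 2 * δ) * v := by ring
        rw [this]
        linarith [Real.exp_pos ((w.re + 2 * δ) * v)]
    calc |φ v| * (Real.exp (z.re * v) * |v|) ≤ |φ v| * (δ⁻¹ * (Real.exp ((w.re - 2 * δ) * v) +
        Real.exp ((w.re + 2 * δ) * v))) := by
          refine mul_le_mul_of_nonneg_left (h7.trans ?_) (abs_nonneg _)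
          exact mul_le_mul_of_nonneg_left h8 (inv_pos.2 hδ).le
      _ = _ := by ring
  · refine Integrable.const_mul (Integrable.add ?_ ?_) _
    · have h3 := (h (w.re - 2 * δ) h1 (by linarith)).norm
      refine h3.congr (Eventually.of_forall fun v => ?_)
      simp only [norm_mul, Real.norm_eq_abs, abs_of_pos (Real.exp_pos _)]
    · have h3 := (h (w.re + 2 * δ) (by linarith) h2).norm
      refine h3.congr (Eventually.of_forall fun v => ?_)
      simp only [norm_mul, Real.norm_eq_abs, abs_of_pos (Real.exp_pos _)]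
  · refine Eventually.of_forall fun v z _ => ?_
    have h3 : HasDerivAt (fun z : ℂ => z * (v : ℂ)) (v : ℂ) z := by
      simpa using (hasDerivAt_id z).mul_const (v : ℂ)
    exact h3.cexp.const_mul _

/-- `(w - 1) ζ(w)` -/
noncomputable def J_Z : ℂ → ℂ := Function.update (fun w => (w - 1) * riemannZeta w) 1 1

theorem J_Z_of_ne {w : ℂ} (hw : w ≠ 1) : J_Z w = (w - 1) * riemannZeta w :=
  Function.update_of_ne hw _ _

theorem J_Z_one : J_Z 1 = 1 := Function.update_self _ _ _

theorem J_Z_differentiable : Differentiable ℂ J_Z := by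
  have h1 : ∀ w : ℂ, w ≠ 1 → DifferentiableAt ℂ J_Z w := by
    intro w hw
    have h2 : J_Z =ᶠ[𝓝 w] fun w => (w - 1) * riemannZeta w := by
      filter_upwards [isOpen_ne.mem_nhds hw] with z hz
      exact J_Z_of_ne hz
    refine DifferentiableAt.congr_of_eventuallyEq ?_ h2
    exact (differentiableAt_id.sub_const 1).mul (differentiableAt_riemannZeta hw)
  intro w
  by_cases hw : w = 1
  · subst hw
    refine (Complex.analyticAt_of_differentiable_on_punctured_nhds_of_continuousAt ?_ ?_).differentiableAt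
    · filter_upwards [self_mem_nhdsWithin] with z hz
      exact h1 z hz
    · unfold J_Z
      rw [continuousAt_update_same]
      exact riemannZeta_residue_one
  · exact h1 w hw

theorem J_Z_ne (w : ℝ) (hw : 0 < w) : J_Z (w : ℂ) ≠ 0 := by
  rcases lt_trichotomy w 1 with h | h | h
  · have h1 : (w : ℂ) ≠ 1 := by
      intro h2
      have := Complex.ofReal_injective (h2.trans Complex.ofReal_one.symm)
      linarith
    rw [J_Z_of_ne h1]
    exact mul_ne_zero (sub_ne_zero.2 h1) (zeta_real_ne w hw h)
  · subst h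
    rw [Complex.ofReal_one, J_Z_one]
    exact one_ne_zero
  · have h1 : (w : ℂ) ≠ 1 := by
      intro h2
      have := Complex.ofReal_injective (h2.trans Complex.ofReal_one.symm)
      linarith
    rw [J_Z_of_ne h1]
    exact mul_ne_zero (sub_ne_zero.2 h1) (riemannZeta_ne_zero_of_one_lt_re (by simpa using h))

theorem J_main (g : ℝ → ℝ) (hg : Measurable g)
    (hb : ∀ a : ℝ, 1 < a → ∃ C : ℝ, ∀ v, |g v| ≤ C * Real.exp (-(a * v)))
    (ε : ℂ) (hε : ε ≠ 0)
    (hM : ∀ w : ℝ, 1 < w → Integrable (fun v : ℝ => g v * Real.exp (w * v)) ∧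
      ((∫ v : ℝ, g v * Real.exp (w * v) : ℝ) : ℂ) =
        ε * (Complex.Gamma (1 + w) * riemannZeta (1 + w) / riemannZeta w))
    (V : ℝ) : ¬ (∀ v < V, 0 ≤ g v) := by
  intro hpos
  -- the part of the integral above `V`
  let E : ℂ → ℂ := fun w => ∫ v in Set.Ici V, (g v : ℂ) * Complex.exp (w * v)
  have hEint : ∀ t : ℝ, IntegrableOn (fun v => g v * Real.exp (t * v)) (Set.Ici V) := by
    intro t
    obtain ⟨C, hC⟩ := hb (max (t + 1) 2) (by have := le_max_right (t + 1) 2; linarith)
    have h1 : IntegrableOn (fun v : ℝ => C * (Real.exp (-((max (t + 1) 2) - t) * v))) (Set.Ici V) := by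
      refine Integrable.const_mul ?_ C
      rw [← IntegrableOn, integrableOn_Ici_iff_integrableOn_Ioi]
      exact integrableOn_exp_mul_Ioi (by have := le_max_left (t + 1) 2; linarith) V
    refine Integrable.mono h1 (hg.mul (by fun_prop)).aestronglyMeasurable
      (Eventually.of_forall fun v => ?_)
    rw [norm_mul, Real.norm_eq_abs, Real.norm_of_nonneg (Real.exp_pos _).le]
    refine le_trans ?_ (le_abs_self _)
    calc |g v| * Real.exp (t * v) ≤ C * Real.exp (-(max (t + 1) 2 * v)) * Real.exp (t * v) :=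
          mul_le_mul_of_nonneg_right (hC v) (Real.exp_pos _).le
      _ = _ := by
        rw [mul_assoc, ← Real.exp_add]
        congr 2
        ring
  have hE : ∀ w, DifferentiableAt ℂ E w := fun w =>
    J_lap g hg (Set.Ici V) (w.re - 1) (w.re + 1) (fun t _ _ => hEint t) w (by linarith)
      (by linarith)
  -- the function on the half line
  let f : ℝ → ℝ := fun u => g (V - u)
  have hf : Measurable f := hg.comp (measurable_const.sub measurable_id)
  have hf0 : ∀ u, 0 < u → 0 ≤ f u := fun u hu => hpos _ (by linarith)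
  have hfi : ∀ w : ℝ, 1 < w → IntegrableOn (fun u => f u * Real.exp (-(w * u))) (Set.Ioi 0) := by
    intro w hw
    have h1 := ((hM w hw).1.comp_sub_left V).const_mul (Real.exp (-(w * V)))
    refine (h1.congr (Eventually.of_forall fun u => ?_)).integrableOn
    simp only [f]
    rw [mul_left_comm, ← Real.exp_add]
    congr 2
    ring
  have hval : ∀ w : ℝ, 1 < w → ((∫ u in Set.Ioi 0, f u * Real.exp (-(w * u)) : ℝ) : ℂ) =
      Complex.exp (-(w * V)) * (ε * (Complex.Gamma (1 + w) * riemannZeta (1 + w) / riemannZeta w)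
        - E w) := by
    intro w hw
    have h1 : (∫ u in Set.Ioi 0, f u * Real.exp (-(w * u))) =
        Real.exp (-(w * V)) * ∫ v in Set.Iio V, g v * Real.exp (w * v) := by
      rw [← integral_indicator measurableSet_Ioi, ← integral_indicator measurableSet_Iio,
        ← integral_const_mul, ← integral_sub_left_eq_self _ volume V]
      refine integral_congr_ae (Eventually.of_forall fun u => ?_)
      simp only [f]
      by_cases hu : 0 < V - u
      · rw [Set.indicator_of_mem (by exact hu), Set.indicator_of_mem (by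
          show u < V
          linarith)]
        rw [sub_sub_cancel, mul_left_comm, ← Real.exp_add]
        congr 2
        ring
      · rw [Set.indicator_of_notMem (by exact hu), Set.indicator_of_notMem (by
          show ¬ u < V
          linarith), mul_zero]
    have h2 : (∫ v in Set.Iio V, g v * Real.exp (w * v)) =
        (∫ v : ℝ, g v * Real.exp (w * v)) - ∫ v in Set.Ici V, g v * Real.exp (w * v) := by
      have h3 := integral_add_compl (measurableSet_Iio (a := V)) (hM w hw).1
      rw [Set.compl_Iio] at h3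
      linarith
    have h4 : E w = ((∫ v in Set.Ici V, g v * Real.exp (w * v) : ℝ) : ℂ) := by
      simp only [E]
      rw [← integral_complex_ofReal]
      refine integral_congr_ae (Eventually.of_forall fun v => ?_)
      push_cast
      rfl
    rw [h1, h2, Complex.ofReal_mul, Complex.ofReal_sub, (hM w hw).2, h4]
    push_cast
    rfl
  -- the continuation
  let Gc : ℂ → ℂ := fun w => Complex.exp (-(w * V)) *
    (ε * (Complex.Gamma (1 + w) * riemannZeta (1 + w) * (w - 1) / J_Z w) - E w)
  have hopen : IsOpen {w : ℂ | 0 < w.re ∧ J_Z w ≠ 0} :=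
    (isOpen_lt continuous_const Complex.continuous_re).inter
      (isOpen_ne.preimage J_Z_differentiable.continuous)
  have hGam : ∀ w : ℂ, 0 < w.re → DifferentiableAt ℂ (fun w => Complex.Gamma (1 + w)) w := by
    intro w hw
    refine DifferentiableAt.comp w (Complex.differentiableAt_Gamma _ fun m hm => ?_)
      (differentiableAt_id.const_add 1)
    have := congrArg Complex.re hm
    simp at this
    have h2 : (0 : ℝ) ≤ m := Nat.cast_nonneg m
    linarith
  have hZe : ∀ w : ℂ, 0 < w.re → DifferentiableAt ℂ (fun w => riemannZeta (1 + w)) w := by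
    intro w hw
    refine DifferentiableAt.comp w (differentiableAt_riemannZeta fun h1 => ?_)
      (differentiableAt_id.const_add 1)
    have := congrArg Complex.re h1
    simp at this
    linarith
  have hex : ∀ w : ℂ, DifferentiableAt ℂ (fun w : ℂ => Complex.exp (-(w * V))) w := by
    intro w
    fun_prop
  have hGd : DifferentiableOn ℂ Gc {w : ℂ | 0 < w.re ∧ J_Z w ≠ 0} := by
    rintro w ⟨hw1, hw2⟩
    refine DifferentiableAt.differentiableWithinAt ?_
    refine (hex w).mul (DifferentiableAt.sub ?_ (hE w))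
    refine DifferentiableAt.const_mul ?_ _
    refine DifferentiableAt.div ?_ (J_Z_differentiable w) hw2
    exact ((hGam w hw1).mul (hZe w hw1)).mul (differentiableAt_id.sub_const 1)
  have hGa : ∀ w : ℝ, w > 0 → AnalyticAt ℝ (fun w : ℝ => (Gc w).re) w := by
    intro w hw
    have h1 : AnalyticAt ℂ Gc (w : ℂ) :=
      hGd.analyticAt (hopen.mem_nhds ⟨by simpa using hw, J_Z_ne w hw⟩)
    have h2 : AnalyticAt ℝ Gc (w : ℂ) := h1.restrictScalars
    have h3 : AnalyticAt ℝ (fun x : ℝ => (x : ℂ)) w := Complex.ofRealCLM.analyticAt w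
    have h4 : AnalyticAt ℝ (fun x : ℝ => Gc x) w := h2.comp h3
    exact (Complex.reCLM.analyticAt _).comp h4
  have hGval : ∀ w : ℝ, 1 < w →
      ((∫ u in Set.Ioi 0, f u * Real.exp (-(w * u)) : ℝ) : ℂ) = Gc w := by
    intro w hw
    rw [hval w hw]
    have h1 : (w : ℂ) ≠ 1 := by
      intro h2
      have := Complex.ofReal_injective (h2.trans Complex.ofReal_one.symm)
      linarith
    simp only [Gc]
    rw [J_Z_of_ne h1, mul_comm ((w : ℂ) - 1) (riemannZeta w),
      mul_div_mul_right _ _ (sub_ne_zero.2 h1)]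
  obtain ⟨hint, hall⟩ := landau_lap hf hf0 (a := 0) (w1 := 1) (fun w hw => hfi w hw) hGa
    (fun w hw _ => by
      have := congrArg Complex.re (hGval w hw)
      rwa [Complex.ofReal_re] at this)
  -- the complex transform
  let Fc : ℂ → ℂ := fun w => ∫ u in Set.Ioi 0, (f u : ℂ) * Complex.exp (-w * u)
  have hFd : ∀ w : ℂ, 0 < w.re → DifferentiableAt ℂ Fc w := by
    intro w hw
    have h1 := J_lap f hf (Set.Ioi 0) (-(w.re + 1)) 0 (fun t _ h2 => by
      have h3 := hint (-t) (by linarith)
      simpa using h3) (-w) (by simp) (by simpa using hw)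
    exact DifferentiableAt.comp w (g := fun w : ℂ => ∫ u in Set.Ioi 0, (f u : ℂ) *
      Complex.exp (w * u)) h1 differentiableAt_id.neg
  have hFr : ∀ w : ℝ, Fc w = ((∫ u in Set.Ioi 0, f u * Real.exp (-(w * u)) : ℝ) : ℂ) := by
    intro w
    simp only [Fc]
    rw [← integral_complex_ofReal]
    refine integral_congr_ae (Eventually.of_forall fun v => ?_)
    push_cast
    simp only [neg_mul]
  have hH : IsOpen {w : ℂ | 0 < w.re} := isOpen_lt continuous_const Complex.continuous_re
  have hconn : IsPreconnected {w : ℂ | 0 < w.re} :=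
    (convex_halfSpace_re_gt 0).isPreconnected
  have hL : AnalyticOnNhd ℂ (fun w => (Complex.exp (w * V) * Fc w + E w) * J_Z w)
      {w : ℂ | 0 < w.re} := by
    refine DifferentiableOn.analyticOnNhd (fun w hw => ?_) hH
    refine DifferentiableAt.differentiableWithinAt ?_
    refine DifferentiableAt.mul (DifferentiableAt.add (DifferentiableAt.mul ?_ (hFd w hw)) (hE w))
      (J_Z_differentiable w)
    fun_prop
  have hR : AnalyticOnNhd ℂ (fun w => ε * (Complex.Gamma (1 + w) * riemannZeta (1 + w) * (w - 1)))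
      {w : ℂ | 0 < w.re} := by
    refine DifferentiableOn.analyticOnNhd (fun w hw => ?_) hH
    refine DifferentiableAt.differentiableWithinAt ?_
    exact (((hGam w hw).mul (hZe w hw)).mul (differentiableAt_id.sub_const 1)).const_mul ε
  have hfreq : ∃ᶠ z in 𝓝[≠] (2 : ℂ), (Complex.exp (z * V) * Fc z + E z) * J_Z z =
      ε * (Complex.Gamma (1 + z) * riemannZeta (1 + z) * (z - 1)) := by
    have h1 : Tendsto (fun x : ℝ => (x : ℂ)) (𝓝[>] 2) (𝓝[≠] (2 : ℂ)) := by
      refine tendsto_nhdsWithin_of_tendsto_nhds_of_eventually_within _ ?_ ?_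
      · have h2 : Tendsto (fun x : ℝ => (x : ℂ)) (𝓝 2) (𝓝 ((2 : ℝ) : ℂ)) :=
          Complex.continuous_ofReal.tendsto 2
        rw [Complex.ofReal_ofNat] at h2
        exact h2.mono_left nhdsWithin_le_nhds
      · filter_upwards [self_mem_nhdsWithin] with x hx
        intro h3
        have h4 : (x : ℂ) = ((2 : ℝ) : ℂ) := by rw [Complex.ofReal_ofNat]; exact h3
        have := Complex.ofReal_injective h4
        have h5 : (2 : ℝ) < x := hx
        linarith
    refine h1.frequently (Eventually.frequently ?_)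
    filter_upwards [self_mem_nhdsWithin] with x hx
    have h5 : (2 : ℝ) < x := hx
    have h6 : (x : ℂ) ≠ 1 := by
      intro h2
      have := Complex.ofReal_injective (h2.trans Complex.ofReal_one.symm)
      linarith
    have h7 : riemannZeta (x : ℂ) ≠ 0 := riemannZeta_ne_zero_of_one_lt_re (by
      rw [Complex.ofReal_re]; linarith)
    have h8 : Complex.exp ((x : ℂ) * V) * Complex.exp (-((x : ℂ) * V)) = 1 := by
      rw [← Complex.exp_add, add_neg_cancel, Complex.exp_zero]
    rw [hFr, hval x (by linarith), J_Z_of_ne h6, ← mul_assoc (Complex.exp ((x : ℂ) * V)), h8,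
      one_mul, sub_add_cancel]
    field_simp
  have heq := hL.eqOn_of_preconnected_of_frequently_eq hR hconn
    (by show (0 : ℝ) < (2 : ℂ).re; simp) hfreq
  obtain ⟨ρ, hρ0, hρ1, hρ2, hρ3⟩ := exists_zero
  have hρp : (0 : ℝ) < ρ.re := by linarith
  have hρne : ρ ≠ 1 := by
    intro h
    rw [h] at hρ3
    simp at hρ3
    linarith
  have h1 := heq (x := ρ) hρp
  simp only [J_Z_of_ne hρne, hρ0, mul_zero] at h1
  have h2 : Complex.Gamma (1 + ρ) ≠ 0 := Complex.Gamma_ne_zero_of_re_pos (by
    rw [Complex.add_re, Complex.one_re]; linarith)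
  have h3 : riemannZeta (1 + ρ) ≠ 0 := riemannZeta_ne_zero_of_one_lt_re (by
    rw [Complex.add_re, Complex.one_re]; linarith)
  exact mul_ne_zero hε (mul_ne_zero (mul_ne_zero h2 h3) (sub_ne_zero.2 hρne)) h1.symm

/-! END -/

/-- TARGET -/
theorem landau_step (g : ℝ → ℝ) (hg : Measurable g)
    (hb : ∀ a : ℝ, 1 < a → ∃ C : ℝ, ∀ v, |g v| ≤ C * Real.exp (-(a * v)))
    (hM : ∀ w : ℝ, 1 < w → Integrable (fun v : ℝ => g v * Real.exp (w * v)) ∧
      ((∫ v : ℝ, g v * Real.exp (w * v) : ℝ) : ℂ) =
        Complex.Gamma (1 + w) * riemannZeta (1 + w) / riemannZeta w)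
    (V : ℝ) : ¬ (∀ v < V, 0 ≤ g v) ∧ ¬ (∀ v < V, g v ≤ 0) := by
  refine ⟨J_main g hg hb 1 one_ne_zero (fun w hw => ⟨(hM w hw).1, by rw [one_mul]; exact (hM w hw).2⟩) V,
    fun h => ?_⟩
  refine J_main (fun v => - g v) hg.neg (fun a ha => ?_) (-1) (by norm_num) (fun w hw => ⟨?_, ?_⟩) V
    (fun v hv => by have := h v hv; linarith)
  · obtain ⟨C, hC⟩ := hb a ha
    exact ⟨C, fun v => by rw [abs_neg]; exact hC v⟩
  · have := (hM w hw).1.neg
    refine this.congr (Eventually.of_forall fun v => ?_)
    simp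
  · rw [neg_one_mul, ← (hM w hw).2, ← Complex.ofReal_neg, ← integral_neg]
    simp only [neg_mul]

end Pool.Agent.Helper791.Cyc
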