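import Pool.Agent.Helper791_Cyc.C
import Pool.Agent.Helper791_Cyc.D
import Pool.Agent.Helper791_Cyc.G
import Pool.Agent.Helper791_Cyc.HL2
import Pool.Agent.Helper791_Cyc.I
import Pool.Agent.Helper791_Cyc.J

set_option autoImplicit false

namespace Pool.Agent.Helper791.Cyc

open MeasureTheory Filter Topology Polynomial

/-- a product of linear factors which changes sign has a root in between -/
theorem root_between (s : Multiset ℝ) {a b : ℝ} (hab : a < b)
    (h : (s.map (fun r => a - r)).prod * (s.map (fun r => b - r)).prod < 0) :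
    ∃ r ∈ s, a < r ∧ r < b := by
  induction s using Multiset.induction_on with
  | empty => simp at h; linarith
  | cons x s ih =>
    by_cases hx : a < x ∧ x < b
    · exact ⟨x, Multiset.mem_cons_self _ _, hx.1, hx.2⟩
    · have hpos : 0 ≤ (a - x) * (b - x) := by
        by_cases h1 : a < x
        · have h2 : b ≤ x := by
            by_contra hc
            exact hx ⟨h1, not_le.1 hc⟩
          nlinarith
        · have h1' : x ≤ a := not_lt.1 h1
          have h2 : x ≤ b := by linarith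
          exact mul_nonneg (by linarith) (by linarith)
      rw [Multiset.map_cons, Multiset.prod_cons, Multiset.map_cons, Multiset.prod_cons] at h
      have h3 : (s.map (fun r => a - r)).prod * (s.map (fun r => b - r)).prod < 0 := by
        by_contra hc
        have hc' := not_lt.1 hc
        have : 0 ≤ ((a - x) * (b - x)) *
            ((s.map (fun r => a - r)).prod * (s.map (fun r => b - r)).prod) :=
          mul_nonneg hpos hc'
        nlinarith
      obtain ⟨r, hr, hr2⟩ := ih h3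
      exact ⟨r, Multiset.mem_cons_of_mem hr, hr2⟩

theorem sign_root {f : ℝ → ℝ} {s : Multiset ℝ} {σ : ℝ} (hσ : σ = 1 ∨ σ = -1)
    (hsign : ∀ v, 0 ≤ σ * f v * (s.map (fun r => v - r)).prod) (hz : ∀ r ∈ s, f r = 0)
    {a b : ℝ} (hab : a < b) (h : f a * f b < 0) : ∃ r ∈ s, a < r ∧ r < b := by
  have ha0 : f a ≠ 0 := by intro h0; rw [h0] at h; simp at h
  have hb0 : f b ≠ 0 := by intro h0; rw [h0] at h; simp at h
  have hne : ∀ v, f v ≠ 0 → (s.map (fun r => v - r)).prod ≠ 0 := by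
    intro v hv hp
    rw [Multiset.prod_eq_zero_iff, Multiset.mem_map] at hp
    obtain ⟨r, hr, hr2⟩ := hp
    have : v = r := by linarith
    exact hv (this ▸ hz r hr)
  apply root_between s hab
  have hσ2 : σ * σ = 1 := by rcases hσ with rfl | rfl <;> norm_num
  have h1 := hsign a
  have h2 := hsign b
  have h3 := mul_nonneg h1 h2
  have h4 : σ * f a * (s.map (fun r => a - r)).prod * (σ * f b * (s.map (fun r => b - r)).prod) =
      (f a * f b) * ((s.map (fun r => a - r)).prod * (s.map (fun r => b - r)).prod) := by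
    calc _ = (σ * σ) * ((f a * f b) *
        ((s.map (fun r => a - r)).prod * (s.map (fun r => b - r)).prod)) := by ring
      _ = _ := by rw [hσ2, one_mul]
  rw [h4] at h3
  rcases lt_or_gt_of_ne (mul_ne_zero (hne a ha0) (hne b hb0)) with h5 | h5
  · exact h5
  · nlinarith

theorem main : ∃ K : ℕ, ∀ k ≥ K,
    2 * k - 1 < Multiset.card (derivative (cyclotomic (m k) ℝ)).roots := by
  by_contra hcon
  push Not at hcon
  obtain ⟨g, hgm, hlim, hgb, hgM⟩ := limit_fun
  have hneg : ∀ V : ℝ, ∃ v < V, g v < 0 := by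
    intro V
    have := (landau_step g hgm hgb hgM V).1
    push Not at this
    exact this
  have hpos : ∀ V : ℝ, ∃ v < V, 0 < g v := by
    intro V
    have := (landau_step g hgm hgb hgM V).2
    push Not at this
    exact this
  obtain ⟨u0, -, hu0⟩ := hpos 0
  obtain ⟨u1, h10, hu1⟩ := hneg u0
  obtain ⟨u2, h21, hu2⟩ := hpos u1
  obtain ⟨u3, h32, hu3⟩ := hneg u2
  obtain ⟨u4, h43, hu4⟩ := hpos u3
  set R₁ : ℝ := |u0| + |u4| + 1 with hR1
  have hR1pos : 0 < R₁ := by positivity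
  have hwin : ∀ r : ℝ, u4 < r → r < u0 → |r| ≤ R₁ := by
    intro r h1 h2
    rw [abs_le]
    have := neg_abs_le u4
    have := le_abs_self u0
    have := abs_nonneg u0
    have := abs_nonneg u4
    constructor <;> linarith
  obtain ⟨C, hC⟩ := H_upper R₁ hR1pos
  have hC0 : 0 ≤ C := (norm_nonneg _).trans (hC 0)
  obtain ⟨c₀, hc0, R₀, hR0, hlow⟩ := H_lower
  set R₂ : ℝ := max (max R₀ R₁) (10 * R₁ ^ 3 * C / c₀ + 1) with hR2
  have h20 : R₀ ≤ R₂ := (le_max_left _ _).trans (le_max_left _ _)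
  have h21' : R₁ ≤ R₂ := (le_max_right _ _).trans (le_max_left _ _)
  have h22 : 10 * R₁ ^ 3 * C / c₀ < R₂ := lt_of_lt_of_le (by linarith) (le_max_right _ _)
  have hR2pos : 0 < R₂ := by linarith
  have ev : ∀ᶠ k : ℕ in atTop, (c₀ / R₂ ^ 2 ≤ ‖H k R₂‖) ∧ 0 < h k u0 ∧ h k u1 < 0 ∧ 0 < h k u2 ∧
      h k u3 < 0 ∧ 0 < h k u4 ∧ 1 ≤ k := by
    filter_upwards [hlow R₂ h20, (hlim u0).eventually_const_lt hu0,
      (hlim u1).eventually_lt_const hu1, (hlim u2).eventually_const_lt hu2,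
      (hlim u3).eventually_lt_const hu3, (hlim u4).eventually_const_lt hu4,
      eventually_ge_atTop 1] with k a0 a1 a2 a3 a4 a5 a6
    exact ⟨a0, a1, a2, a3, a4, a5, a6⟩
  obtain ⟨K, hK⟩ := eventually_atTop.1 ev
  obtain ⟨k, hkK, hk⟩ := hcon K
  obtain ⟨b0, s0, s1, s2, s3, s4, hk1⟩ := hK k hkK
  obtain ⟨s, σ, hσ, hcard, hsign, hz⟩ := step1 k hk1 hk
  obtain ⟨r0, m0, l0, g0⟩ := sign_root hσ hsign hz h10 (mul_neg_of_neg_of_pos s1 s0)
  obtain ⟨r1, m1, l1, g1⟩ := sign_root hσ hsign hz h21 (mul_neg_of_pos_of_neg s2 s1)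
  obtain ⟨r2, m2, l2, g2⟩ := sign_root hσ hsign hz h32 (mul_neg_of_neg_of_pos s3 s2)
  obtain ⟨r3, m3, l3, g3⟩ := sign_root hσ hsign hz h43 (mul_neg_of_pos_of_neg s4 s3)
  have hnd : ({r0, r1, r2, r3} : Multiset ℝ).Nodup := by
    simp only [Multiset.insert_eq_cons, Multiset.nodup_cons, Multiset.mem_cons,
      Multiset.mem_singleton, Multiset.nodup_singleton, and_true, not_or]
    refine ⟨⟨?_, ?_, ?_⟩, ⟨?_, ?_⟩, ?_⟩ <;> intro h <;> linarith
  have hle : ({r0, r1, r2, r3} : Multiset ℝ) ≤ s := by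
    rw [Multiset.le_iff_subset hnd]
    intro x hx
    simp only [Multiset.insert_eq_cons, Multiset.mem_cons, Multiset.mem_singleton] at hx
    rcases hx with rfl | rfl | rfl | rfl <;> assumption
  have hwin' : ∀ r ∈ ({r0, r1, r2, r3} : Multiset ℝ), |r| ≤ R₁ := by
    intro x hx
    simp only [Multiset.insert_eq_cons, Multiset.mem_cons, Multiset.mem_singleton] at hx
    rcases hx with rfl | rfl | rfl | rfl <;> apply hwin <;> linarith
  have key := core (h k) k (h_cont k) (h_int k) (fun p hp => h_mom k p hp) s hcard σ hσ hsign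
    R₁ R₂ hR1pos h21' _ hle hwin'
  have hc4 : Multiset.card ({r0, r1, r2, r3} : Multiset ℝ) = 4 := by simp
  rw [hc4] at key
  have e1 : (R₂ / (√2 * R₁)) ^ 4 = R₂ ^ 4 / (4 * R₁ ^ 4) := by
    rw [div_pow, mul_pow]
    have : (√2 : ℝ) ^ 4 = 4 := by
      have h := Real.sq_sqrt (show (0:ℝ) ≤ 2 by norm_num)
      calc (√2 : ℝ) ^ 4 = (√2 ^ 2) ^ 2 := by ring
        _ = 4 := by rw [h]; norm_num
    rw [this]
  rw [e1] at key
  have k1 : R₂ ^ 4 / (4 * R₁ ^ 4) * (c₀ / R₂ ^ 2) ≤ 5 / 2 * (R₂ / R₁) * C := by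
    refine le_trans (mul_le_mul_of_nonneg_left b0 (by positivity)) (le_trans key ?_)
    exact mul_le_mul_of_nonneg_left (hC k) (by positivity)
  have k2 : R₂ ^ 4 / (4 * R₁ ^ 4) * (c₀ / R₂ ^ 2) = (c₀ * R₂ / (10 * R₁ ^ 3)) * (5 / 2 * (R₂ / R₁)) := by
    field_simp
    ring
  rw [k2] at k1
  have k3 : c₀ * R₂ / (10 * R₁ ^ 3) ≤ C := by
    have : 0 < 5 / 2 * (R₂ / R₁) := by positivity
    by_contra hc
    have hc' := not_le.1 hc
    nlinarith
  rw [div_le_iff₀ (by positivity)] at k3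
  rw [div_lt_iff₀ hc0] at h22
  nlinarith

end Pool.Agent.Helper791.Cyc
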